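import Pool.Agent.TH981.SD.L3

set_option autoImplicit false

open Pool.Agent.TH981.SD
open Finset Set Filter
open scoped BigOperators Topology Classical

namespace Pool.Agent.TH981.SD

theorem ei_nonneg {j : ℕ} {s : Sys j} (h : Par s) (i : Fin j) : 0 ≤ s.ei i := by
  unfold Sys.ei
  split_ifs
  · exact le_rfl
  · have := h.e0pos
    positivity

theorem ei_le {j : ℕ} {s : Sys j} (h : Par s) (i : Fin j) : s.ei i ≤ s.e0 := by
  unfold Sys.ei
  split_ifs
  · exact h.e0pos.le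
  · have hNN : (1:ℝ) ≤ (s.N : ℝ) := (par_small h).2.2.2.2
    have h16 : (1 / (16 * (s.N : ℝ))) ^ i.val ≤ 1 := by
      apply pow_le_one₀ (by positivity)
      rw [div_le_one (by positivity)]; linarith
    calc s.e0 * (1 / (16 * (s.N : ℝ))) ^ i.val ≤ s.e0 * 1 :=
          mul_le_mul_of_nonneg_left h16 h.e0pos.le
      _ = s.e0 := mul_one _

theorem K_mul_D {α K : ℝ} (h1 : α < 1) (hK : 0 < K) : K * DK α K ^ α = DK α K := by
  unfold DK
  rw [← Real.rpow_mul hK.le]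
  conv_lhs => rw [← Real.rpow_one K]
  rw [← Real.rpow_mul hK.le, ← Real.rpow_add hK]
  congr 1
  have : 1 - α ≠ 0 := by linarith
  field_simp
  ring

theorem cb (h1 : S_YF) (h2 : S_TM) : S_CB := by
  intro α e0 ep e1 N j hpar he1
  obtain ⟨ha0, ha1, hN, hj1, hjN, he0p, he0l, hepp, hepl⟩ := hpar
  refine ⟨max 4 ((N:ℝ) ^ (2:ℕ)), fun s hα he0 hep hN' he1' hK hF => ?_⟩
  have hP := hF.par
  obtain ⟨p1, p2, p3, p4, p5⟩ := par_small hP
  have hK4 : 4 ≤ s.K := (le_max_left _ _).trans hK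
  have hKN : (N:ℝ) ^ 2 ≤ s.K := (le_max_right _ _).trans hK
  have hK0 : 0 < s.K := by linarith
  have h1a : 0 < 1 - s.α := by have := hP.a1'; linarith
  have hKD : s.K ≤ s.D := by
    unfold Sys.D DK
    conv_lhs => rw [← Real.rpow_one s.K]
    apply Real.rpow_le_rpow_of_exponent_le (by linarith)
    rw [le_div_iff₀ h1a]; have := hP.a0; linarith
  have hND : (s.N : ℝ) ≤ s.D := by
    rw [hN']
    have : (N:ℝ) ≤ (N:ℝ) ^ 2 := by
      have : (1:ℝ) ≤ N := by exact_mod_cast (by omega : 1 ≤ N)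
      nlinarith
    linarith
  have hgam1 : ∀ i, s.gam i ≤ 1 := fun i => by unfold Sys.gam; linarith [ei_nonneg hP i]
  have hgam2 : ∀ i, 1 / 2 ≤ s.gam i := fun i => by unfold Sys.gam; linarith [ei_le hP i]
  have hKv1 : ∀ i, 2 ≤ s.Kv i := by
    intro i
    unfold Sys.Kv
    calc (2:ℝ) = (4:ℝ) ^ (1/2:ℝ) := by
          rw [show (4:ℝ) = 2 ^ (2:ℝ) by norm_num, ← Real.rpow_mul (by norm_num)]; norm_num
      _ ≤ s.K ^ (1/2:ℝ) := Real.rpow_le_rpow (by norm_num) hK4 (by norm_num)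
      _ ≤ s.K ^ s.gam i := Real.rpow_le_rpow_of_exponent_le (by linarith) (hgam2 i)
  have hKv2 : ∀ i, s.Kv i ≤ s.K := by
    intro i
    unfold Sys.Kv
    conv_rhs => rw [← Real.rpow_one s.K]
    exact Real.rpow_le_rpow_of_exponent_le (by linarith) (hgam1 i)
  have hz0 : 0 < s.z := by linarith [hF.z2]
  obtain ⟨y1, y2, y3, y4, y5, y6, y7⟩ := h1 s.α s.z s.Y hP.a0 hP.a1' hz0 hF.z1 hF.hY
  have tmm := (h2 s.α s.z s.Y hP.a0 hP.a1' hF.z2 hF.z1 hF.hY).2 s.tM hF.tMpos.le hF.htM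
  refine ⟨hND, fun i => ⟨hKv1 i, hKv2 i⟩, ?_, ?_, ?_⟩
  · intro i t ht
    have ht0 : 0 ≤ t := hF.tMpos.le.trans ht
    obtain ⟨ylo, yhi⟩ := tmm.2.1 t ht
    have yh : s.Y 1 t ≤ 1 / 2 := by
      have := y6 1 (show s.tM ∈ Set.Ici (0:ℝ) from hF.tMpos.le) (show t ∈ Set.Ici (0:ℝ) from ht0) ht
      rw [hF.htM] at this; exact this
    have yp := hF.hY.pos 1 t ht0
    obtain ⟨m1l, m1u⟩ := y4 t ht0
    have hk := hKv1 i
    have hm : s.Y 1 t / 2 ≤ m1 s.Y t := by nlinarith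
    have hc : s.Kv i * s.Y 1 t / 2 ≤ cc s.Y (s.Kv i) t := by
      unfold cc; nlinarith
    refine ⟨?_, ?_, hc⟩
    · refine le_trans ?_ hc
      nlinarith
    · unfold cc
      have e := Real.exp_pos (-(t - s.tM))
      nlinarith
  · unfold Sys.D
    exact K_mul_D hP.a1' hK0
  · intro i t ht
    obtain ⟨m1l, m1u⟩ := y4 t ht
    have yp := hF.hY.pos 1 t ht
    have yz := hF.hY.le 1 t ht
    have ym : 0 ≤ m1 s.Y t := by
      refine le_trans ?_ m1l
      apply mul_nonneg yp.le; linarith [hF.z1]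
    have hk := hKv1 i
    have hk2 := hKv2 i
    refine ⟨?_, ?_, ?_, ?_⟩
    · unfold cc
      linarith [mul_le_mul_of_nonneg_right hk2 ym]
    · have hD1 : 1 ≤ s.D := by linarith
      have hD0 : 0 < s.D := by linarith
      have he : s.D ^ (-(s.ei i)) ≤ s.K ^ (-(s.ei i)) := by
        rw [Real.rpow_neg hD0.le, Real.rpow_neg hK0.le]
        apply inv_anti₀ (Real.rpow_pos_of_pos hK0 _)
        exact Real.rpow_le_rpow hK0.le hKD (ei_nonneg hP i)
      have he1 : s.K ^ (-(s.ei i)) ≤ 1 := by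
        apply Real.rpow_le_one_of_one_le_of_nonpos (by linarith)
        linarith [ei_nonneg hP i]
      have hepos : 0 < s.K ^ (-(s.ei i)) := Real.rpow_pos_of_pos hK0 _
      have hKv : s.Kv i = s.K ^ (-(s.ei i)) * s.K := by
        unfold Sys.Kv Sys.gam
        rw [← Real.rpow_add_one (ne_of_gt hK0)]
        congr 1; ring
      have hcc0 : 0 ≤ cc s.Y s.K t := add_nonneg yp.le (mul_nonneg hK0.le ym)
      calc s.D ^ (-(s.ei i)) * cc s.Y s.K t ≤ s.K ^ (-(s.ei i)) * cc s.Y s.K t :=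
            mul_le_mul_of_nonneg_right he hcc0
        _ ≤ cc s.Y (s.Kv i) t := by
            unfold cc
            rw [hKv]
            have h5 := mul_le_mul_of_nonneg_right he1 yp.le
            linarith [mul_add (s.K ^ (-(s.ei i))) (s.Y 1 t) (s.K * m1 s.Y t),
              mul_assoc (s.K ^ (-(s.ei i))) s.K (m1 s.Y t)]
    · unfold cc
      have h6 := hF.z1
      have h7 : s.K * m1 s.Y t ≤ s.K * 1 :=
        mul_le_mul_of_nonneg_left (by linarith) hK0.le
      linarith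
    · unfold cc
      have h7 : 0 ≤ s.Kv i * m1 s.Y t := mul_nonneg (by linarith) ym
      linarith

end Pool.Agent.TH981.SD
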