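import Mathlib

/-!
# Seed distinguishability in sublinear preferential attachment trees: definitions

`PA_alpha(n,S)`: new vertex joined to `v` with probability proportional to `deg(v)^alpha`.
-/

set_option autoImplicit false

namespace Pool.Agent.TH981.SD

open Finset Set
open scoped BigOperators Topology Classical

noncomputable section

/-! ## Graphs, attachment, expectations -/

/-- the attachment weight `d^α` -/
def lam (α : ℝ) (d : ℕ) : ℝ := (d : ℝ) ^ α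

/-- degree -/
def dg {n : ℕ} (G : SimpleGraph (Fin n)) (v : Fin n) : ℕ :=
  (Finset.univ.filter (fun w => G.Adj v w)).card

/-- attach a new leaf (the vertex `Fin.last n`) to the vertex `v` -/
def attach {n : ℕ} (G : SimpleGraph (Fin n)) (v : Fin n) : SimpleGraph (Fin (n + 1)) where
  Adj a b := (∃ i j : Fin n, a = i.castSucc ∧ b = j.castSucc ∧ G.Adj i j) ∨
    (a = Fin.last n ∧ b = v.castSucc) ∨ (a = v.castSucc ∧ b = Fin.last n)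
  symm := ⟨by
    rintro a b (⟨i, j, h1, h2, h3⟩ | ⟨h1, h2⟩ | ⟨h1, h2⟩)
    · exact Or.inl ⟨j, i, h2, h1, h3.symm⟩
    · exact Or.inr (Or.inr ⟨h2, h1⟩)
    · exact Or.inr (Or.inl ⟨h2, h1⟩)⟩
  loopless := ⟨by
    rintro a (⟨i, j, h1, h2, h3⟩ | ⟨h1, h2⟩ | ⟨h1, h2⟩)
    · have : i = j := by
        apply Fin.castSucc_injective; rw [← h1, ← h2]
      subst this; exact G.loopless.irrefl i h3
    · rw [h1] at h2; exact absurd h2.symm (Fin.castSucc_lt_last v).ne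
    · rw [h2] at h1; exact absurd h1.symm (Fin.castSucc_lt_last v).ne⟩

/-- total attachment weight -/
def totW (α : ℝ) {n : ℕ} (G : SimpleGraph (Fin n)) : ℝ := ∑ v, lam α (dg G v)

/-- `pexp α f m n G = E f(T_{n+m})` where `T` is the attachment chain started from `G`
(a tree on `n` vertices); backward recursion -/
def pexp (α : ℝ) (f : (n : ℕ) → SimpleGraph (Fin n) → ℝ) :
    ℕ → (n : ℕ) → SimpleGraph (Fin n) → ℝ
  | 0, n, G => f n G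
  | (m + 1), n, G => ∑ v, (lam α (dg G v) / totW α G) * pexp α f m (n + 1) (attach G v)

/-- partial sums `∑_{i<m} E f(T_{n+i})` -/
def psum (α : ℝ) (f : (n : ℕ) → SimpleGraph (Fin n) → ℝ) (m n : ℕ) (G : SimpleGraph (Fin n)) : ℝ :=
  ∑ i ∈ Finset.range m, pexp α f i n G

/-- isomorphism invariance of a functional -/
def IsoInv (f : (n : ℕ) → SimpleGraph (Fin n) → ℝ) : Prop :=
  ∀ (n : ℕ) (G H : SimpleGraph (Fin n)), Nonempty (G ≃g H) → f n G = f n H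

/-! ## Pattern functionals -/

/-- the branch of the tree `G` at `b` seen from `h` (vertices closer to `b` than to `h`) -/
def br {n : ℕ} (G : SimpleGraph (Fin n)) (h b : Fin n) : Finset (Fin n) :=
  Finset.univ.filter (fun v => G.dist v b < G.dist v h)

/-- neighbours of `h` outside the set `I` -/
def offN {n : ℕ} (G : SimpleGraph (Fin n)) (I : Finset (Fin n)) (h : Fin n) : Finset (Fin n) :=
  Finset.univ.filter (fun b => G.Adj h b ∧ b ∉ I)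

/-- value of a hub: sum over the sets `S ⊆ O` of marked branches; `r` = marks already made -/
def hval {n : ℕ} (O : Finset (Fin n)) (a b : Fin n → ℝ) (g : ℕ → ℝ) (r : ℕ) : ℝ :=
  ∑ S ∈ O.powerset, (∏ x ∈ S, b x) * (∏ x ∈ O \ S, a x) * g (r + S.card)

/-- image of a partial map -/
def img {j n : ℕ} (ψ : Fin j → Option (Fin n)) : Finset (Fin n) :=
  Finset.univ.filter (fun v => ∃ i, ψ i = some v)

/-- domain of a partial map -/
def dom {j n : ℕ} (ψ : Fin j → Option (Fin n)) : Finset (Fin j) :=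
  Finset.univ.filter (fun i => ψ i ≠ none)

/-- partial embeddings of the pattern `J` into `G` with nonempty connected domain -/
structure PE {j n : ℕ} (J : SimpleGraph (Fin j)) (G : SimpleGraph (Fin n))
    (ψ : Fin j → Option (Fin n)) : Prop where
  inj : ∀ i i' v, ψ i = some v → ψ i' = some v → i = i'
  hom : ∀ i i' v v', J.Adj i i' → ψ i = some v → ψ i' = some v' → G.Adj v v'
  conn : (J.induce {i | ψ i ≠ none}).Connected

/-- number of missing pattern neighbours of `i` -/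
def miss {j n : ℕ} (J : SimpleGraph (Fin j)) (ψ : Fin j → Option (Fin n)) (i : Fin j) : ℕ :=
  (Finset.univ.filter (fun l => J.Adj i l ∧ ψ l = none)).card

/-- multiset of degrees of the vertices in `C` -/
def degs {n : ℕ} (G : SimpleGraph (Fin n)) (C : Finset (Fin n)) : Multiset ℕ := C.val.map (dg G)

/-- the hub factor of an image vertex `h` of `i` -/
def hubf {j n : ℕ} (J : SimpleGraph (Fin j)) (G : SimpleGraph (Fin n)) (a b : Multiset ℕ → ℝ)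
    (Kv : Fin j → ℝ) (Gf : Fin j → ℕ → ℕ → ℕ → ℝ) (ψ : Fin j → Option (Fin n))
    (i : Fin j) (h : Fin n) : ℝ :=
  hval (offN G (img ψ) h) (fun x => a (degs G (br G h x)))
    (fun x => Kv i * b (degs G (br G h x))) (fun r => Gf i (miss J ψ i) (dg G h) r) 0

/-- weight of a partial embedding: missing hubs contribute `Z i`, present hubs the hub factor -/
def wt {j n : ℕ} (J : SimpleGraph (Fin j)) (G : SimpleGraph (Fin n)) (a b : Multiset ℕ → ℝ)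
    (Kv Z : Fin j → ℝ) (Gf : Fin j → ℕ → ℕ → ℕ → ℝ) (ψ : Fin j → Option (Fin n)) : ℝ :=
  ∏ i, (match ψ i with
    | none => Z i
    | some h => hubf J G a b Kv Gf ψ i h)

/-- all partial embeddings -/
def PEs {j n : ℕ} (J : SimpleGraph (Fin j)) (G : SimpleGraph (Fin n)) :
    Finset (Fin j → Option (Fin n)) := Finset.univ.filter (fun ψ => PE J G ψ)

/-- total embeddings -/
def TEs {j n : ℕ} (J : SimpleGraph (Fin j)) (G : SimpleGraph (Fin n)) :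
    Finset (Fin j → Option (Fin n)) := Finset.univ.filter (fun ψ => PE J G ψ ∧ ∀ i, ψ i ≠ none)

/-- the pattern functional: sum over embeddings of `J`, every hub `i` carries a set `S` of marked
branches with weight `g |S|`, each marked branch contributes `K_i (1-z) R(branch)`; total weight
`z^{n-j}` -/
def fz {j : ℕ} (α z : ℝ) (J : SimpleGraph (Fin j)) (Kv : Fin j → ℝ) (g : ℕ → ℝ)
    (n : ℕ) (G : SimpleGraph (Fin n)) : ℝ :=
  ∑ ψ ∈ TEs J G, wt J G (fun C => z ^ (Multiset.card C))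
    (fun C => z ^ (Multiset.card C) * ((C.map (fun d => lam α d * (1 - z))).sum)) Kv
    (fun _ => 0) (fun _ _ _ r => g r) ψ

/-- `f / R` -/
def fR {j : ℕ} (α z : ℝ) (J : SimpleGraph (Fin j)) (Kv : Fin j → ℝ) (g : ℕ → ℝ)
    (n : ℕ) (G : SimpleGraph (Fin n)) : ℝ := fz α z J Kv g n G / totW α G

/-- mark functions -/
def g4 (r : ℕ) : ℝ := if 4 ≤ r then 1 else 0
def gM (M r : ℕ) : ℝ := if 4 ≤ r ∧ r ≤ M then 1 else 0
def glow (r : ℕ) : ℝ := if r ≤ 3 then 1 else 0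

/-! ## The differential systems -/

/-- generating functions of the sizes of offspring trees:
`Y_d' = λ_d (Y_1 Y_{d+1} - Y_d)`, `Y_d(0) = z` -/
structure IsY (α z : ℝ) (Y : ℕ → ℝ → ℝ) : Prop where
  init : ∀ d, Y d 0 = z
  deriv : ∀ d t, 0 ≤ t →
    HasDerivWithinAt (Y d) (lam α d * (Y 1 t * Y (d + 1) t - Y d t)) (Set.Ici 0) t
  pos : ∀ d t, 0 ≤ t → 0 < Y d t
  le : ∀ d t, 0 ≤ t → Y d t ≤ z

/-- `m_1 = - Y_1' = Y_1 (1 - Y_2)` -/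
def m1 (Y : ℕ → ℝ → ℝ) (t : ℝ) : ℝ := Y 1 t * (1 - Y 2 t)

/-- `c = Y_1 + K m_1` -/
def cc (Y : ℕ → ℝ → ℝ) (K t : ℝ) : ℝ := Y 1 t + K * m1 Y t

/-- linear systems `u_{d,r}' = λ_d (p u_{d+1,r} + q u_{d+1,r+1} - u_{d,r})`, `u_{d,r}(0) = g r` -/
structure IsLin (α : ℝ) (p q : ℝ → ℝ) (g : ℕ → ℝ) (u : ℕ → ℕ → ℝ → ℝ) : Prop where
  init : ∀ d r, u d r 0 = g r
  deriv : ∀ d r t, 0 ≤ t → HasDerivWithinAt (u d r)
    (lam α d * (p t * u (d + 1) r t + q t * u (d + 1) (r + 1) t - u d r t)) (Set.Ici 0) t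
  nonneg : ∀ d r t, 0 ≤ t → 0 ≤ u d r t
  bdd : ∀ T, 0 ≤ T → ∃ B C : ℝ, 0 ≤ B ∧ 1 ≤ C ∧ ∀ d r t, 0 ≤ t → t ≤ T → u d r t ≤ B * C ^ d

/-- the same system truncated at degree `Δ` -/
structure IsCap (α : ℝ) (p q : ℝ → ℝ) (g : ℕ → ℝ) (Δ : ℕ) (w : ℕ → ℕ → ℝ → ℝ) : Prop where
  init : ∀ d r, d ≤ Δ → w d r 0 = g r
  deriv : ∀ d r t, 0 ≤ t → d ≤ Δ → HasDerivWithinAt (w d r)
    (lam α d * (p t * w (d + 1) r t + q t * w (d + 1) (r + 1) t - w d r t)) (Set.Ici 0) t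
  zero : ∀ d r t, Δ < d → w d r t = 0
  nonneg : ∀ d r t, 0 ≤ t → 0 ≤ w d r t

/-- hub functions: parameter `K`, mark function `g` -/
def IsHub (α : ℝ) (Y : ℕ → ℝ → ℝ) (K : ℝ) (g : ℕ → ℝ) (u : ℕ → ℕ → ℝ → ℝ) : Prop :=
  IsLin α (Y 1) (fun t => K * m1 Y t) g u

/-- `V_d' = λ_d (c V_{d+1} - V_d)`, `V_d(0) = 1` -/
structure IsV (α : ℝ) (Y : ℕ → ℝ → ℝ) (K : ℝ) (V : ℕ → ℝ → ℝ) : Prop where
  init : ∀ d, V d 0 = 1
  deriv : ∀ d t, 0 ≤ t →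
    HasDerivWithinAt (V d) (lam α d * (cc Y K t * V (d + 1) t - V d t)) (Set.Ici 0) t
  pos : ∀ d t, 0 ≤ t → 0 < V d t
  bdd : ∀ T, 0 ≤ T → ∃ B C : ℝ, 0 ≤ B ∧ 1 ≤ C ∧ ∀ d t, 0 ≤ t → t ≤ T → V d t ≤ B * C ^ d

/-- unmarked branch weight -/
def aW (Y : ℕ → ℝ → ℝ) (t : ℝ) (C : Multiset ℕ) : ℝ := (C.map (fun d => Y d t)).prod

/-- marked branch weight `= - d/dt aW` -/
def bW (α : ℝ) (Y : ℕ → ℝ → ℝ) (t : ℝ) (C : Multiset ℕ) : ℝ :=
  aW Y t C * (C.map (fun d => lam α d * (1 - Y 1 t * Y (d + 1) t / Y d t))).sum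

/-- `β = (2^α - 1)/(2 - 2^α)` -/
def bet (α : ℝ) : ℝ := ((2:ℝ) ^ α - 1) / (2 - (2:ℝ) ^ α)

/-- `D = K^{1/(1-α)}` -/
def DK (α K : ℝ) : ℝ := K ^ (1 / (1 - α))

/-- `L = log D = log K/(1-α)` -/
def LK (α K : ℝ) : ℝ := Real.log K / (1 - α)

/-! ## The multi-hub system used in the comparison -/

/-- data of the multi-hub comparison -/
structure Sys (j : ℕ) where
  α : ℝ
  z : ℝ
  K : ℝ
  e0 : ℝ      -- hierarchy scale ε_0
  ep : ℝ      -- region width ε_p (much smaller)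
  e1 : ℝ      -- growth exponent ε_1
  tM : ℝ
  a1 : ℝ
  N : ℕ
  M : ℕ
  Y : ℕ → ℝ → ℝ
  V : Fin j → ℕ → ℝ → ℝ
  u : Fin j → ℕ → ℕ → ℝ → ℝ
  uM : Fin j → ℕ → ℕ → ℝ → ℝ
  Z : Fin j → ℝ → ℝ
  Eh : ℝ → ℝ

namespace Sys
variable {j : ℕ} (s : Sys j)

/-- `ε_i` (`0` for the top hub `i = 0`, `ε_0 (1/(16N))^i` otherwise) -/
def ei (i : Fin j) : ℝ := if i.val = 0 then 0 else s.e0 * (1 / (16 * (s.N : ℝ))) ^ i.val
/-- `γ_i = 1 - ε_i` -/
def gam (i : Fin j) : ℝ := 1 - s.ei i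
/-- `K_i = K^{γ_i}` -/
def Kv (i : Fin j) : ℝ := s.K ^ s.gam i
def D : ℝ := DK s.α s.K
def L : ℝ := LK s.α s.K
/-- `min (C' D (1-Y_1)) 1` -/
def Am (t : ℝ) : ℝ := min ((2:ℝ) ^ (j + 6) * s.D * (1 - s.Y 1 t)) 1
def eta (d : ℕ) : ℝ := 1 + (d : ℝ) / s.D
/-- hub functions: `m` = number of missing neighbours, `d` = degree, `r` = number of marks -/
def Gf (i : Fin j) (m d r : ℕ) (t : ℝ) : ℝ :=
  if m = 0 then s.u i d r t else s.eta d ^ (m + (4 - r)) * s.Am t ^ (4 - r) * s.V i d t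
def kap : ℝ := (2:ℝ) ^ (j + 6) * s.D ^ (s.α + s.ep)
def mu (t : ℝ) : ℝ := ((j:ℝ) + 4) * (2:ℝ) ^ (j + 5) * s.D ^ (s.α + s.ep - 1) * cc s.Y s.K t
def x4 (i : Fin j) (t : ℝ) : ℝ := (2:ℝ) ^ (j + 4) * s.Am t ^ 4 * s.V i 1 t
def x3 (i : Fin j) (t : ℝ) : ℝ := (2:ℝ) ^ (j + 4) * s.Am t ^ 3 * s.V i 1 t
/-- left end, middle and right end of the main region -/
def tl : ℝ := s.tM + (1 - 2 * s.ep) * s.L
def tm : ℝ := s.tM + (1 - s.ep) * s.L
def tp : ℝ := s.tM + (1 + s.ep) * s.L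

/-- the supersolution -/
def Ubar (J : SimpleGraph (Fin j)) {n : ℕ} (G : SimpleGraph (Fin n)) (t : ℝ) : ℝ :=
  (∑ ψ ∈ PEs J G, wt J G (aW s.Y t) (bW s.α s.Y t) s.Kv (fun i => s.Z i t)
    (fun i m d r => s.Gf i m d r t) ψ) + Real.sqrt (∏ v, s.Y (dg G v) t) * s.Eh t

/-- `P(d,t) = ∏_i c_i^{d_i - deg_J(i)} V^{(i)}_{d_i}` -/
def PP (J : SimpleGraph (Fin j)) (d : Fin j → ℕ) (t : ℝ) : ℝ :=
  ∏ i, (cc s.Y (s.Kv i) t) ^ (d i - dg J i) * s.V i (d i) t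

/-- `B(t) = c_0^{2-j} ∏_i V^{(i)}_1` -/
def Bt (t : ℝ) : ℝ := (cc s.Y s.K t) ^ (2 - (j:ℤ)) * ∏ i, s.V i 1 t

/-- `X_ψ = ∏_{l missing} Z_l ∏_{i present} c_i^{|O_i|} V^{(i)}_{d_i} y^{e_i}`, where
`e_i = ∑_{b ∈ O_i} (|branch b| - 1)` -/
def Xp {n : ℕ} (G : SimpleGraph (Fin n)) (ψ : Fin j → Option (Fin n)) (t : ℝ) : ℝ :=
  ∏ i, (match ψ i with
    | none => s.Z i t
    | some h => (cc s.Y (s.Kv i) t) ^ (offN G (img ψ) h).card * s.V i (dg G h) t *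
        (s.Y 1 t) ^ (∑ b ∈ offN G (img ψ) h, ((br G h b).card - 1)))

end Sys

/-- constraints on the parameters -/
structure Par {j : ℕ} (s : Sys j) : Prop where
  a0 : 0 < s.α
  a1' : s.α < 1
  N3 : 3 ≤ s.N
  j1 : 1 ≤ j
  jN : j ≤ s.N
  e0pos : 0 < s.e0
  e0le : s.e0 ≤ (1 - s.α) / (1000 * (s.N : ℝ) ^ 2)
  eppos : 0 < s.ep
  eple : s.ep ≤ s.e0 * (1 / (16 * (s.N : ℝ))) ^ (s.N) / (1000 * (s.N : ℝ) ^ 2)
  e1pos : 0 < s.e1
  K1 : 2 ≤ s.K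

/-- the analytic facts on which the comparison is based -/
structure Facts {j : ℕ} (s : Sys j) : Prop where
  par : Par s
  z2 : 1 / 2 < s.z
  z1 : s.z < 1
  hY : IsY s.α s.z s.Y
  tMpos : 0 < s.tM
  htM : s.Y 1 s.tM = 1 / 2
  hV : ∀ i, IsV s.α s.Y (s.Kv i) (s.V i)
  hu : ∀ i, IsHub s.α s.Y (s.Kv i) g4 (s.u i)
  huM : ∀ i, IsHub s.α s.Y (s.Kv i) (gM s.M) (s.uM i)
  /-- upper ratio bound, all degrees and times -/
  ratio : ∀ i d t, 1 ≤ d → 0 ≤ t → lam s.α d * s.V i (d + 1) t ≤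
    (s.D ^ s.gam i) ^ s.ep * ((s.D ^ s.gam i) ^ s.α + lam s.α d) * s.V i d t
  /-- growth -/
  grow : ∀ i k t, 1 ≤ k → k ≤ s.N → s.tM ≤ t → t ≤ s.tM + (1 - s.ep) * (s.gam i * s.L) →
    s.D ^ s.e1 * s.V i k t ≤ lam s.α k * cc s.Y (s.Kv i) t * s.V i (k + 1) t
  late : ∀ i k t, 1 ≤ k → k ≤ s.N → s.tM + (1 - s.ep) * (s.gam i * s.L) ≤ t →
    2 / 3 * Real.exp (-2 * (t - (s.tM + (1 - s.ep) * (s.gam i * s.L)))) * s.V i k t ≤
      lam s.α k * cc s.Y (s.Kv i) t * s.V i (k + 1) t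
  /-- early phase -/
  a1nn : 0 ≤ s.a1
  a1le : s.a1 ≤ s.tM
  a1A : ∀ t, 0 ≤ t → t ≤ s.a1 → (2:ℝ) ^ (j + 6) * s.D * (1 - s.Y 1 t) ≤ 1
  a1B : ∀ t, s.a1 ≤ t → 1 ≤ (2:ℝ) ^ (j + 6) * s.D * (1 - s.Y 1 t)
  early : ∀ i d t, 1 ≤ d → 0 ≤ t → t ≤ s.a1 → s.V i (d + 1) t ≤ 2 * s.V i d t
  /-- marks -/
  marks : ∀ i d r t, 1 ≤ d → 0 ≤ t →
    s.u i d r t ≤ s.eta d ^ (4 - r) * s.Am t ^ (4 - r) * s.V i d t
  capM : ∀ i d r t, 1 ≤ d → d ≤ s.N → r ≤ s.N → s.tM ≤ t → t ≤ s.tp →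
    s.V i d t / 2 ≤ s.uM i d r t
  /-- the source functions -/
  Z0 : ∀ i, s.Z i 0 = 0
  Zd : ∀ i t, 0 ≤ t → HasDerivWithinAt (s.Z i) (s.mu t * s.Z i t + s.kap * s.x4 i t) (Set.Ici 0) t
  Znn : ∀ i t, 0 ≤ t → 0 ≤ s.Z i t
  E0 : s.Eh 0 = 0
  Ed : ∀ t, 0 ≤ t → HasDerivWithinAt s.Eh ((1 + s.K) * (32 / (1 - s.Y 1 t) ^ 2) *
    ∑ w, s.x3 w t * ∏ l ∈ Finset.univ.erase w, s.Z l t) (Set.Ici 0) t
  Enn : ∀ t, 0 ≤ t → 0 ≤ s.Eh t

end

end Pool.Agent.TH981.SD
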