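import Pool.Agent.TH981.SD.Stm

set_option autoImplicit false

open Pool.Agent.TH981.SD
open Finset Set Filter
open scoped BigOperators Topology Classical

namespace Pool.Agent.TH981.SD

theorem par_small {j : ℕ} {s : Sys j} (h : Par s) : s.e0 ≤ 1 / 1000 ∧ s.ep ≤ 1 / 1000 ∧
    s.ep ≤ s.e0 / 1000 ∧ 0 ≤ s.L ∧ 1 ≤ (s.N : ℝ) := by
  have hNN : (1:ℝ) ≤ (s.N : ℝ) := by exact_mod_cast (by have := h.N3; omega : 1 ≤ s.N)
  have h16 : (1 / (16 * (s.N : ℝ))) ^ s.N ≤ 1 := by
    apply pow_le_one₀ (by positivity)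
    rw [div_le_one (by positivity)]; linarith
  have he01 : s.e0 ≤ 1 / 1000 := by
    refine h.e0le.trans ?_
    rw [div_le_div_iff₀ (by positivity) (by norm_num)]
    nlinarith [h.a0]
  have h0 := h.e0pos
  have hep : s.ep ≤ s.e0 / 1000 := by
    refine h.eple.trans ?_
    rw [div_le_div_iff₀ (by positivity) (by norm_num)]
    have : s.e0 * (1 / (16 * (s.N : ℝ))) ^ s.N ≤ s.e0 * 1 :=
      mul_le_mul_of_nonneg_left h16 h0.le
    have hN2 : (1:ℝ) ≤ (s.N : ℝ) ^ 2 := one_le_pow₀ hNN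
    nlinarith [mul_le_mul_of_nonneg_left hN2 h0.le]
  refine ⟨he01, by linarith, hep, ?_, hNN⟩
  unfold Sys.L LK
  apply div_nonneg (Real.log_nonneg (by linarith [h.K1])) (by linarith [h.a1'])

theorem times {j : ℕ} {s : Sys j} (h : Facts s) : s.tM ≤ s.tl ∧ s.tl ≤ s.tm ∧ s.tm ≤ s.tp ∧
    0 < s.tM := by
  obtain ⟨h1, h2, h3, h4, h5⟩ := par_small h.par
  have h6 := h.par.eppos
  refine ⟨?_, ?_, ?_, h.tMpos⟩
  · unfold Sys.tl; nlinarith
  · unfold Sys.tl Sys.tm; nlinarith
  · unfold Sys.tm Sys.tp; nlinarith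

theorem l3 (h1 : S_L3A) (h2 : S_L3B) (h3 : S_L3C) (h4 : S_L3D) (h5 : S_UC) (h6 : S_TM) :
    S_L3 := by
  intro η hη α e0 ep e1 N j hpar he1
  have hη3 : 0 < η / 3 := by positivity
  obtain ⟨K1, hK1⟩ := h1 0 α e0 ep e1 N j hpar he1
  obtain ⟨K2, hK2⟩ := h2 (η / 3) hη3 α e0 ep e1 N j hpar he1
  obtain ⟨K3, hK3⟩ := h3 (η / 3) hη3 α e0 ep e1 N j hpar he1
  obtain ⟨K4, hK4⟩ := h4 (η / 3) hη3 α e0 ep e1 N j hpar he1
  refine ⟨max (max K1 K2) (max K3 K4), fun s a b c d e hK hF J hJ ds hds => ?_⟩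
  have A1 := hK1 s a b c d e (((le_max_left _ _).trans (le_max_left _ _)).trans hK) hF J hJ ds hds
  have A2 := hK2 s a b c d e (((le_max_right _ _).trans (le_max_left _ _)).trans hK) hF J hJ ds hds
  have A3 := hK3 s a b c d e (((le_max_left _ _).trans (le_max_right _ _)).trans hK) hF J hJ ds hds
  have A4 := hK4 s a b c d e (((le_max_right _ _).trans (le_max_right _ _)).trans hK) hF J hJ ds hds
  refine ⟨A1.1, fun G hG hyp τ hτ => ?_⟩
  obtain ⟨t1, t2, t3, t4⟩ := times hF
  have hN2 : 2 ≤ s.N := by have := hF.par.N3; omega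
  obtain ⟨hUc, hUn⟩ := (h5 j s hF J hJ).1 s.N G hN2 hG
  obtain ⟨hPc, hPn⟩ := (h5 j s hF J hJ).2.1 ds
  have hI : 0 ≤ ∫ t in s.tl..s.tp, s.PP J ds t :=
    intervalIntegral.integral_nonneg (by linarith) (fun t ht => hPn t (by linarith [ht.1]))
  set I := ∫ t in s.tl..s.tp, s.PP J ds t with hIdef
  have hUint : ∀ a b : ℝ, 0 ≤ a → a ≤ b → IntervalIntegrable (fun t => s.Ubar J G t)
      MeasureTheory.volume a b := by
    intro a b ha hab
    apply ContinuousOn.intervalIntegrable
    rw [Set.uIcc_of_le hab]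
    exact hUc.mono (fun t ht => ha.trans ht.1)
  have hPint : ∀ a b : ℝ, 0 ≤ a → a ≤ b → IntervalIntegrable (fun t => s.PP J ds t)
      MeasureTheory.volume a b := by
    intro a b ha hab
    apply ContinuousOn.intervalIntegrable
    rw [Set.uIcc_of_le hab]
    exact hPc.mono (fun t ht => ha.trans ht.1)
  have hmid : ∀ b, s.tl ≤ b → b ≤ s.tp → ∫ t in s.tl..b, s.Ubar J G t ≤ η / 3 * I := by
    intro b hb hb'
    calc ∫ t in s.tl..b, s.Ubar J G t ≤ ∫ t in s.tl..b, η / 3 * s.PP J ds t := by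
          apply intervalIntegral.integral_mono_on hb (hUint _ _ (by linarith) hb)
            ((hPint _ _ (by linarith) hb).const_mul _)
          intro t ht
          exact A3 G hG hyp t ht.1 (ht.2.trans hb')
      _ = η / 3 * ∫ t in s.tl..b, s.PP J ds t := by
          rw [intervalIntegral.integral_const_mul]
      _ ≤ η / 3 * I := by
          apply mul_le_mul_of_nonneg_left _ hη3.le
          rw [hIdef, ← intervalIntegral.integral_add_adjacent_intervals
            (hPint s.tl b (by linarith) hb) (hPint b s.tp (by linarith) hb')]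
          have : 0 ≤ ∫ t in b..s.tp, s.PP J ds t :=
            intervalIntegral.integral_nonneg hb' (fun t ht => hPn t (by linarith [ht.1]))
          linarith
  have hηI : 0 ≤ η / 3 * I := mul_nonneg hη3.le hI
  rcases le_total τ s.tl with hc | hc
  · have := A2 G hG τ hτ hc
    linarith
  · have hA2 := A2 G hG s.tl (by linarith) le_rfl
    rw [← intervalIntegral.integral_add_adjacent_intervals
      (hUint 0 s.tl le_rfl (by linarith)) (hUint s.tl τ (by linarith) hc)]
    rcases le_total τ s.tp with hc' | hc'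
    · have := hmid τ hc hc'
      linarith
    · rw [← intervalIntegral.integral_add_adjacent_intervals
        (hUint s.tl s.tp (by linarith) (by linarith)) (hUint s.tp τ (by linarith) hc')]
      have e1 := hmid s.tp (by linarith) le_rfl
      have e2 := (A4 G hG hyp).2 τ hc'
      linarith

end Pool.Agent.TH981.SD
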