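import Pool.Agent.TH981.SD.Cb

set_option autoImplicit false

open Pool.Agent.TH981.SD
open Finset Set Filter
open scoped BigOperators Topology Classical

namespace Pool.Agent.TH981.SD

theorem K_le_D {j : ℕ} {s : Sys j} (hP : Par s) : s.K ≤ s.D := by
  have h1a : 0 < 1 - s.α := by have := hP.a1'; linarith
  have hK1 := hP.K1
  unfold Sys.D DK
  conv_lhs => rw [← Real.rpow_one s.K]
  apply Real.rpow_le_rpow_of_exponent_le (by linarith)
  rw [le_div_iff₀ h1a]; have := hP.a0; linarith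

theorem exp_L {j : ℕ} {s : Sys j} (hP : Par s) (x : ℝ) : Real.exp (x * s.L) = s.D ^ x := by
  have hK1 := hP.K1
  have hK0 : 0 < s.K := by linarith
  unfold Sys.D DK Sys.L LK
  rw [← Real.rpow_mul hK0.le, Real.rpow_def_of_pos hK0]
  congr 1
  ring

theorem logK_le_L {j : ℕ} {s : Sys j} (hP : Par s) : Real.log s.K ≤ s.L := by
  have h1a : 0 < 1 - s.α := by have := hP.a1'; linarith
  have hK1 := hP.K1
  have := hP.a0
  unfold Sys.L LK
  rw [le_div_iff₀ h1a]
  nlinarith [Real.log_nonneg (by linarith : (1:ℝ) ≤ s.K)]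

theorem l3a (h1 : S_CB) (h2 : S_VV) (h3 : S_PPB) (h4 : S_UC) : S_L3A := by
  intro p α e0 ep e1 N j hpar he1
  obtain ⟨K2, hK2⟩ := h2 α e0 ep e1 N j hpar he1
  obtain ⟨K3, hK3⟩ := h3 α e0 ep e1 N j hpar he1
  obtain ⟨ha0, ha1, hN, hj1, hjN, he0p, he0l, hepp, hepl⟩ := hpar
  refine ⟨max (max K2 K3) (max (max ((2:ℝ) ^ (j + 1)) (Real.exp (1 / (2 * ep))))
    ((1 + ((p:ℝ) + 10) / ep) ^ (1 / e1))), fun s hα he0 hep hN' he1' hK hF => ?_⟩
  have A2 := hK2 s hα he0 hep hN' he1'
    (((le_max_left _ _).trans (le_max_left _ _)).trans hK) hF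
  have A3 := hK3 s hα he0 hep hN' he1'
    (((le_max_right _ _).trans (le_max_left _ _)).trans hK) hF
  have hKa : (2:ℝ) ^ (j + 1) ≤ s.K :=
    (((le_max_left _ _).trans (le_max_left _ _)).trans (le_max_right _ _)).trans hK
  have hKb : Real.exp (1 / (2 * ep)) ≤ s.K :=
    (((le_max_right _ _).trans (le_max_left _ _)).trans (le_max_right _ _)).trans hK
  have hKc : (1 + ((p:ℝ) + 10) / ep) ^ (1 / e1) ≤ s.K :=
    ((le_max_right _ _).trans (le_max_right _ _)).trans hK
  have hP := hF.par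
  obtain ⟨p1, p2, p3, p4, p5⟩ := par_small hP
  obtain ⟨t1, t2, t3, t4⟩ := times hF
  have hKD := K_le_D hP
  have hK1 := hP.K1
  have hD2 : 2 ≤ s.D := hK1.trans hKD
  have hD0 : 0 < s.D := by linarith
  have hD1 : 1 ≤ s.D := by linarith
  rw [← hep] at hKb hKc
  rw [← he1'] at hKc he1
  have hepp' : 0 < s.ep := hP.eppos
  -- 2 ep L ≥ 1
  have hL1 : 1 ≤ 2 * s.ep * s.L := by
    have : 1 / (2 * s.ep) ≤ Real.log s.K := by
      rw [Real.le_log_iff_exp_le (by linarith)]; exact hKb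
    have h5 := this.trans (logK_le_L hP)
    rw [div_le_iff₀ (by positivity)] at h5
    linarith
  -- growth exponent
  have hgrow : (p:ℝ) + 10 ≤ (s.D ^ s.e1 - 1) * s.ep := by
    have hbase : 0 ≤ 1 + ((p:ℝ) + 10) / s.ep := by positivity
    have : 1 + ((p:ℝ) + 10) / s.ep ≤ s.D ^ s.e1 := by
      calc 1 + ((p:ℝ) + 10) / s.ep = ((1 + ((p:ℝ) + 10) / s.ep) ^ (1 / s.e1)) ^ s.e1 := by
            rw [← Real.rpow_mul hbase, one_div, inv_mul_cancel₀ (ne_of_gt he1), Real.rpow_one]
        _ ≤ s.K ^ s.e1 := Real.rpow_le_rpow (Real.rpow_nonneg hbase _) hKc he1.le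
        _ ≤ s.D ^ s.e1 := Real.rpow_le_rpow (by linarith) hKD he1.le
    have h6 : ((p:ℝ) + 10) / s.ep ≤ s.D ^ s.e1 - 1 := by linarith
    rwa [div_le_iff₀ hepp'] at h6
  have htm1 : s.tm + 1 ≤ s.tp := by
    unfold Sys.tm Sys.tp; nlinarith
  have htl0 : 0 ≤ s.tl := by linarith
  have hje : 2 * s.e0 * j ≤ 1 := by
    have hj : (j:ℝ) ≤ s.N := by exact_mod_cast hP.jN
    have h7 := hP.e0le
    have h8 : 0 ≤ s.e0 := hP.e0pos.le
    have h9 : s.e0 * s.N ≤ 1 / 1000 := by
      have hNp : (0:ℝ) < s.N := by linarith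
      calc s.e0 * s.N ≤ (1 - s.α) / (1000 * (s.N : ℝ) ^ 2) * s.N :=
            mul_le_mul_of_nonneg_right h7 hNp.le
        _ = (1 - s.α) / (1000 * s.N) := by field_simp
        _ ≤ 1 / 1000 := by
            rw [div_le_div_iff₀ (by positivity) (by norm_num)]
            nlinarith [hP.a0]
    nlinarith
  obtain ⟨v1, v2, v3, v4, v5, v6, v7⟩ := A2
  intro J hJ ds hds
  obtain ⟨B1, B2, B3, B4⟩ := (A3 J hJ).1 ds hds
  obtain ⟨hPc, hPn⟩ := (h4 j s hF J hJ).2.1 ds
  set i0 : Fin j := ⟨0, by omega⟩ with hi0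
  have hVpos : ∀ i t, 0 ≤ t → 0 < s.V i 1 t := fun i t ht => (hF.hV i).pos 1 t ht
  set E : ℝ := s.D ^ ((p:ℝ) + 10) with hE
  have hE1 : 0 < E := Real.rpow_pos_of_pos hD0 _
  have key : ∀ t, s.tm ≤ t → t ≤ s.tm + 1 →
      s.D ^ ((p:ℝ) + 9) * ∏ i, s.V i 1 s.tl ≤ ∏ i, s.V i 1 t := by
    intro t ht ht'
    have ht0 : 0 ≤ t := by linarith
    have each : ∀ i, s.D ^ (-(2 * s.e0)) * ((if i = i0 then E else 1) * s.V i 1 s.tl) ≤
        s.V i 1 t := by
      intro i
      by_cases hi : i = i0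
      · subst hi
        rw [if_pos rfl]
        have a1 := v2 i0 s.tm t (by linarith) ht (by linarith)
        have a2 := v3 i0 rfl s.tl s.tm t1 t2 le_rfl
        have a3 : s.tm - s.tl = s.ep * s.L := by unfold Sys.tm Sys.tl; ring
        rw [a3, ← mul_assoc, exp_L hP] at a2
        have a4 : E ≤ s.D ^ ((s.D ^ s.e1 - 1) * s.ep) :=
          Real.rpow_le_rpow_of_exponent_le hD1 hgrow
        calc s.D ^ (-(2 * s.e0)) * (E * s.V i0 1 s.tl) ≤
              s.D ^ (-(2 * s.e0)) * s.V i0 1 s.tm := by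
                apply mul_le_mul_of_nonneg_left _ (Real.rpow_nonneg hD0.le _)
                exact (mul_le_mul_of_nonneg_right a4 (hVpos _ _ htl0).le).trans a2
          _ ≤ s.V i0 1 t := a1
      · rw [if_neg hi, one_mul]
        exact v2 i s.tl t htl0 (by linarith) (by linarith)
    calc s.D ^ ((p:ℝ) + 9) * ∏ i, s.V i 1 s.tl ≤
          (s.D ^ (-(2 * s.e0))) ^ j * E * ∏ i, s.V i 1 s.tl := by
            apply mul_le_mul_of_nonneg_right _
              (Finset.prod_nonneg (fun i _ => (hVpos i _ htl0).le))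
            rw [← Real.rpow_natCast, ← Real.rpow_mul hD0.le, hE, ← Real.rpow_add hD0]
            apply Real.rpow_le_rpow_of_exponent_le hD1
            nlinarith
      _ = ∏ i, (s.D ^ (-(2 * s.e0)) * ((if i = i0 then E else 1) * s.V i 1 s.tl)) := by
            rw [Finset.prod_mul_distrib, Finset.prod_mul_distrib, Finset.prod_const,
              Finset.prod_ite_eq']
            simp
            ring
      _ ≤ ∏ i, s.V i 1 t := by
            apply Finset.prod_le_prod
            · intro i _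
              apply mul_nonneg (Real.rpow_nonneg hD0.le _)
              apply mul_nonneg _ (hVpos i _ htl0).le
              split_ifs
              · exact hE1.le
              · norm_num
            · intro i _; exact each i
  have hPlow : ∀ t, s.tm ≤ t → t ≤ s.tm + 1 →
      s.D ^ ((p:ℝ) + 7) * ∏ i, s.V i 1 s.tl ≤ s.PP J ds t := by
    intro t ht ht'
    have b := (B1 t (by linarith) (by linarith)).2
    refine le_trans ?_ b
    have k := key t ht ht'
    calc s.D ^ ((p:ℝ) + 7) * ∏ i, s.V i 1 s.tl =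
          s.D ^ (-(2:ℝ)) * (s.D ^ ((p:ℝ) + 9) * ∏ i, s.V i 1 s.tl) := by
            rw [← mul_assoc, ← Real.rpow_add hD0]; congr 2; ring
      _ ≤ _ := mul_le_mul_of_nonneg_left k (Real.rpow_nonneg hD0.le _)
  have hPint : ∀ a b : ℝ, 0 ≤ a → a ≤ b → IntervalIntegrable (fun t => s.PP J ds t)
      MeasureTheory.volume a b := by
    intro a b ha hab
    apply ContinuousOn.intervalIntegrable
    rw [Set.uIcc_of_le hab]
    exact hPc.mono (fun t ht => ha.trans ht.1)
  have hint : s.D ^ ((p:ℝ) + 7) * ∏ i, s.V i 1 s.tl ≤ ∫ t in s.tl..s.tp, s.PP J ds t := by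
    rw [← intervalIntegral.integral_add_adjacent_intervals
      (hPint s.tl s.tm (by linarith) t2) (hPint s.tm s.tp (by linarith) t3),
      ← intervalIntegral.integral_add_adjacent_intervals
      (hPint s.tm (s.tm + 1) (by linarith) (by linarith))
      (hPint (s.tm + 1) s.tp (by linarith) htm1)]
    have n1 : 0 ≤ ∫ t in s.tl..s.tm, s.PP J ds t :=
      intervalIntegral.integral_nonneg t2 (fun t ht => hPn t (by linarith [ht.1]))
    have n2 : 0 ≤ ∫ t in (s.tm + 1)..s.tp, s.PP J ds t :=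
      intervalIntegral.integral_nonneg htm1 (fun t ht => hPn t (by linarith [ht.1]))
    have n3 : s.D ^ ((p:ℝ) + 7) * ∏ i, s.V i 1 s.tl ≤ ∫ t in s.tm..(s.tm + 1), s.PP J ds t := by
      have : ∫ t in s.tm..(s.tm + 1), (s.D ^ ((p:ℝ) + 7) * ∏ i, s.V i 1 s.tl) ≤
          ∫ t in s.tm..(s.tm + 1), s.PP J ds t := by
        apply intervalIntegral.integral_mono_on (by linarith) (by simp)
          (hPint _ _ (by linarith) (by linarith))
        intro t ht
        exact hPlow t ht.1 ht.2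
      simpa using this
    linarith
  have hprod : s.D ^ (-(1:ℝ)) ≤ ∏ i, s.V i 1 s.tl := by
    calc s.D ^ (-(1:ℝ)) ≤ (s.D ^ (-(2 * s.e0))) ^ j := by
          rw [← Real.rpow_natCast, ← Real.rpow_mul hD0.le]
          apply Real.rpow_le_rpow_of_exponent_le hD1
          nlinarith
      _ = ∏ _i : Fin j, s.D ^ (-(2 * s.e0)) := by simp
      _ ≤ ∏ i, s.V i 1 s.tl := by
          apply Finset.prod_le_prod (fun i _ => Real.rpow_nonneg hD0.le _)
          intro i _
          have a1 := v2 i 0 s.tl le_rfl htl0 (by linarith)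
          rw [(hF.hV i).init 1, mul_one] at a1
          exact a1
  have hprodpos : 0 ≤ ∏ i, s.V i 1 s.tl :=
    Finset.prod_nonneg (fun i _ => (hVpos i _ htl0).le)
  refine ⟨?_, ?_⟩
  · refine le_trans ?_ hint
    calc (2:ℝ) ^ (j + 1) ≤ s.D := hKa.trans hKD
      _ = s.D ^ (1:ℝ) := (Real.rpow_one _).symm
      _ ≤ s.D ^ ((p:ℝ) + 6) := Real.rpow_le_rpow_of_exponent_le hD1 (by
          have : (0:ℝ) ≤ p := Nat.cast_nonneg p
          linarith)
      _ = s.D ^ ((p:ℝ) + 7) * s.D ^ (-(1:ℝ)) := by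
          rw [← Real.rpow_add hD0]; congr 1; ring
      _ ≤ _ := mul_le_mul_of_nonneg_left hprod (Real.rpow_nonneg hD0.le _)
  · refine le_trans ?_ hint
    apply mul_le_mul_of_nonneg_right _ hprodpos
    rw [← Real.rpow_natCast]
    exact Real.rpow_le_rpow_of_exponent_le hD1 (by linarith)

end Pool.Agent.TH981.SD
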