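import Pool.Agent.TH981.SD.Main
import Pool.Agent.TH981.SD.L3

set_option autoImplicit false

open Pool.Agent.TH981.SD
open Finset Set Filter
open scoped BigOperators Topology Classical

namespace Pool.Agent.TH981.SD

theorem hval_nonneg {n : ℕ} (O : Finset (Fin n)) (a b : Fin n → ℝ) (g : ℕ → ℝ) (r : ℕ)
    (ha : ∀ x, 0 ≤ a x) (hb : ∀ x, 0 ≤ b x) (hg : ∀ r, 0 ≤ g r) : 0 ≤ hval O a b g r := by
  unfold hval
  apply Finset.sum_nonneg
  intro S _
  exact mul_nonneg (mul_nonneg (Finset.prod_nonneg (fun x _ => hb x))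
    (Finset.prod_nonneg (fun x _ => ha x))) (hg _)

theorem wt_nonneg {j n : ℕ} (J : SimpleGraph (Fin j)) (G : SimpleGraph (Fin n))
    (a b : Multiset ℕ → ℝ) (Kv Z : Fin j → ℝ) (Gf : Fin j → ℕ → ℕ → ℕ → ℝ)
    (ψ : Fin j → Option (Fin n)) (ha : ∀ C, 0 ≤ a C) (hb : ∀ C, 0 ≤ b C) (hK : ∀ i, 0 ≤ Kv i)
    (hZ : ∀ i, 0 ≤ Z i) (hG : ∀ i m d r, 0 ≤ Gf i m d r) : 0 ≤ wt J G a b Kv Z Gf ψ := by
  unfold wt
  apply Finset.prod_nonneg
  intro i _
  rcases hψ : ψ i with _ | h
  · simpa using hZ i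
  · simp only []
    unfold hubf
    exact hval_nonneg _ _ _ _ _ (fun x => ha _) (fun x => mul_nonneg (hK i) (hb _))
      (fun r => hG _ _ _ _)

theorem uc (h1 : S_AB) (h2 : S_YF) : S_UC := by
  intro j s hF J hJ
  have hP := hF.par
  have hz0 : 0 < s.z := by linarith [hF.z2]
  have hK0 : 0 < s.K := by linarith [hP.K1]
  have hD0 : 0 < s.D := Real.rpow_pos_of_pos hK0 _
  have hKv : ∀ i, 0 < s.Kv i := fun i => Real.rpow_pos_of_pos hK0 _
  obtain ⟨y1, y2, y3, y4, y5, y6, y7⟩ := h2 s.α s.z s.Y hP.a0 hP.a1' hz0 hF.z1 hF.hY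
  have hab := (h1 s.α s.z s.Y hP.a0 hP.a1' hz0 hF.z1 hF.hY).1
  have cY : ∀ d, ContinuousOn (s.Y d) (Set.Ici 0) := fun d t ht =>
    (hF.hY.deriv d t ht).continuousWithinAt
  have cV : ∀ i k, ContinuousOn (s.V i k) (Set.Ici 0) := fun i k t ht =>
    ((hF.hV i).deriv k t ht).continuousWithinAt
  have cu : ∀ i d r, ContinuousOn (s.u i d r) (Set.Ici 0) := fun i d r t ht =>
    ((hF.hu i).deriv d r t ht).continuousWithinAt
  have cZ : ∀ i, ContinuousOn (s.Z i) (Set.Ici 0) := fun i t ht =>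
    (hF.Zd i t ht).continuousWithinAt
  have cE : ContinuousOn s.Eh (Set.Ici 0) := fun t ht => (hF.Ed t ht).continuousWithinAt
  have ca : ∀ C, ContinuousOn (fun t => aW s.Y t C) (Set.Ici 0) := fun C t ht =>
    (hab C t ht).1.continuousWithinAt
  have cb : ∀ C, ContinuousOn (fun t => bW s.α s.Y t C) (Set.Ici 0) := fun C t ht =>
    (hab C t ht).2.1.continuousWithinAt
  have cm1 : ContinuousOn (fun t => m1 s.Y t) (Set.Ici 0) :=
    (cY 1).mul (continuousOn_const.sub (cY 2))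
  have ccc : ∀ K, ContinuousOn (fun t => cc s.Y K t) (Set.Ici 0) := fun K =>
    (cY 1).add (continuousOn_const.mul cm1)
  have ym : ∀ t, 0 ≤ t → 0 ≤ m1 s.Y t := by
    intro t ht
    obtain ⟨m1l, m1u⟩ := y4 t ht
    have yp := hF.hY.pos 1 t ht
    have yz := hF.hY.le 1 t ht
    refine le_trans ?_ m1l
    apply mul_nonneg yp.le; linarith [hF.z1]
  have ccn : ∀ K, 0 ≤ K → ∀ t, 0 ≤ t → 0 ≤ cc s.Y K t := fun K hK t ht =>
    add_nonneg (hF.hY.pos 1 t ht).le (mul_nonneg hK (ym t ht))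
  have cA : ContinuousOn (fun t => s.Am t) (Set.Ici 0) := by
    unfold Sys.Am
    have h1 : ContinuousOn (fun t => (2:ℝ) ^ (j + 6) * s.D * (1 - s.Y 1 t)) (Set.Ici 0) :=
      continuousOn_const.mul (continuousOn_const.sub (cY 1))
    exact ContinuousOn.inf h1 continuousOn_const
  have nA : ∀ t, 0 ≤ t → 0 ≤ s.Am t := by
    intro t ht
    unfold Sys.Am
    apply le_min _ zero_le_one
    have : s.Y 1 t ≤ 1 := (hF.hY.le 1 t ht).trans hF.z1.le
    apply mul_nonneg (by positivity) (by linarith)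
  have neta : ∀ d, 0 ≤ s.eta d := fun d => by unfold Sys.eta; positivity
  have cG : ∀ i m d r, ContinuousOn (fun t => s.Gf i m d r t) (Set.Ici 0) := by
    intro i m d r
    unfold Sys.Gf
    by_cases hm : m = 0
    · simpa [hm] using cu i d r
    · simp only [hm, if_false]
      exact (continuousOn_const.mul (cA.pow _)).mul (cV i d)
  have nG : ∀ t, 0 ≤ t → ∀ i m d r, 0 ≤ s.Gf i m d r t := by
    intro t ht i m d r
    unfold Sys.Gf
    split_ifs
    · exact (hF.hu i).nonneg d r t ht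
    · exact mul_nonneg (mul_nonneg (pow_nonneg (neta d) _) (pow_nonneg (nA t ht) _))
        ((hF.hV i).pos d t ht).le
  refine ⟨?_, ?_, cV, cY 1⟩
  · intro n G hn hG
    refine ⟨?_, ?_⟩
    · unfold Sys.Ubar
      apply ContinuousOn.add
      · apply continuousOn_finsetSum
        intro ψ _
        exact wt_cont J G _ _ _ _ _ _ _ ca cb cZ cG
      · apply ContinuousOn.mul _ cE
        apply ContinuousOn.sqrt
        exact continuousOn_finsetProd _ (fun v _ => cY _)
    · intro t ht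
      unfold Sys.Ubar
      apply add_nonneg
      · apply Finset.sum_nonneg
        intro ψ _
        exact wt_nonneg J G _ _ _ _ _ _ (fun C => (hab C t ht).2.2.1.le)
          (fun C => (hab C t ht).2.2.2.1) (fun i => (hKv i).le) (fun i => hF.Znn i t ht)
          (fun i m d r => nG t ht i m d r)
      · exact mul_nonneg (Real.sqrt_nonneg _) (hF.Enn t ht)
  · intro d
    refine ⟨?_, ?_⟩
    · unfold Sys.PP
      apply continuousOn_finsetProd
      intro i _
      exact ((ccc _).pow _).mul (cV i _)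
    · intro t ht
      unfold Sys.PP
      apply Finset.prod_nonneg
      intro i _
      exact mul_nonneg (pow_nonneg (ccn _ (hKv i).le t ht) _) ((hF.hV i).pos _ t ht).le

end Pool.Agent.TH981.SD
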