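import Pool.Agent.TH981.SD.L3A
import Pool.Agent.TH981.SD.Uc

set_option autoImplicit false

open Pool.Agent.TH981.SD
open Finset Set Filter
open scoped BigOperators Topology Classical

namespace Pool.Agent.TH981.SD

/-- the small exponent -/
noncomputable def kapp (e0 : ℝ) (N : ℕ) : ℝ := e0 * (1 / (16 * (N:ℝ))) ^ N / 2

theorem kapp_facts {j : ℕ} {s : Sys j} (hP : Par s) : 0 < kapp s.e0 s.N ∧
    4 * s.ep ≤ kapp s.e0 s.N ∧ kapp s.e0 s.N ≤ 1 / 1000 ∧ s.N * s.e0 ≤ 1 / 3000 ∧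
    s.N * s.ep ≤ 1 / 1000 := by
  obtain ⟨p1, p2, p3, p4, p5⟩ := par_small hP
  have h0 := hP.e0pos
  have hN3 : (3:ℝ) ≤ s.N := by exact_mod_cast hP.N3
  have hNp : (0:ℝ) < s.N := by linarith
  have h16 : (1 / (16 * (s.N : ℝ))) ^ s.N ≤ 1 := by
    apply pow_le_one₀ (by positivity)
    rw [div_le_one (by positivity)]; linarith
  have h16' : 0 < (1 / (16 * (s.N : ℝ))) ^ s.N := by positivity
  have hx := mul_le_mul_of_nonneg_left h16 h0.le
  have hNe : s.N * s.e0 ≤ 1 / 3000 := by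
    calc s.N * s.e0 ≤ s.N * ((1 - s.α) / (1000 * (s.N : ℝ) ^ 2)) :=
          mul_le_mul_of_nonneg_left hP.e0le hNp.le
      _ = (1 - s.α) / (1000 * s.N) := by field_simp
      _ ≤ 1 / 3000 := by
          rw [div_le_div_iff₀ (by positivity) (by norm_num)]
          nlinarith [hP.a0]
  refine ⟨by unfold kapp; positivity, ?_, ?_, hNe, ?_⟩
  · unfold kapp
    have := hP.eple
    have h2 : s.e0 * (1 / (16 * (s.N : ℝ))) ^ s.N / (1000 * (s.N : ℝ) ^ 2) ≤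
        s.e0 * (1 / (16 * (s.N : ℝ))) ^ s.N / 8 := by
      apply div_le_div_of_nonneg_left (by positivity) (by norm_num)
      nlinarith
    linarith
  · unfold kapp; linarith
  · nlinarith

theorem K_eq {j : ℕ} {s : Sys j} (hP : Par s) (h : s.K * s.D ^ s.α = s.D) :
    s.K = s.D ^ (1 - s.α) := by
  have hD0 : 0 < s.D := lt_of_lt_of_le (by linarith [hP.K1]) (K_le_D hP)
  rw [Real.rpow_sub hD0, Real.rpow_one, eq_div_iff (ne_of_gt (Real.rpow_pos_of_pos hD0 _))]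
  exact h

theorem exp_lower {j : ℕ} {s : Sys j} (hP : Par s) {t : ℝ} (ht : t ≤ s.tp) :
    s.D ^ (-(1 + s.ep)) ≤ Real.exp (-(t - s.tM)) := by
  rw [← exp_L hP]
  apply Real.exp_le_exp.mpr
  unfold Sys.tp at ht
  linarith

theorem exp_upper {j : ℕ} {s : Sys j} (hP : Par s) {t : ℝ} (ht : s.tl ≤ t) :
    Real.exp (-(t - s.tM)) ≤ s.D ^ (-(1 - 2 * s.ep)) := by
  rw [← exp_L hP]
  apply Real.exp_le_exp.mpr
  unfold Sys.tl at ht
  linarith

theorem Kv_zero {j : ℕ} {s : Sys j} (i : Fin j) (hi : i.val = 0) : s.Kv i = s.K := by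
  unfold Sys.Kv Sys.gam Sys.ei
  rw [if_pos hi, sub_zero, Real.rpow_one]

/-- `Π ≤ C D^{-α(j-2)+2 ep N} Bt` on `[tl,tp]` -/
theorem Pi_le_Bt {j : ℕ} {s : Sys j} (hF : Facts s) (hj : 1 ≤ j)
    (hcb : (∀ i t, s.tM ≤ t → s.Kv i * Real.exp (-(t - s.tM)) / 4 ≤ cc s.Y (s.Kv i) t ∧
      cc s.Y (s.Kv i) t ≤ 2 * s.Kv i * Real.exp (-(t - s.tM)) ∧
      s.Kv i * s.Y 1 t / 2 ≤ cc s.Y (s.Kv i) t)) (hKD : s.K * s.D ^ s.α = s.D)
    (hcpos : ∀ t, 0 ≤ t → 0 < cc s.Y s.K t) {t : ℝ} (h1 : s.tl ≤ t) (h2 : t ≤ s.tp) :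
    ∏ i, s.V i 1 t ≤ ((2:ℝ) ^ s.N + 4) * s.D ^ (-(s.α * ((j:ℝ) - 2)) + 2 * s.ep * s.N) *
      s.Bt t := by
  have hP := hF.par
  obtain ⟨p1, p2, p3, p4, p5⟩ := par_small hP
  obtain ⟨t1, t2, t3, t4⟩ := times hF
  have hep := hP.eppos
  have hD1 : 1 ≤ s.D := by linarith [K_le_D hP, hP.K1]
  have hD0 : 0 < s.D := by linarith
  have ht0 : 0 ≤ t := by linarith
  have hc := hcpos t ht0
  obtain ⟨c1, c2, c3⟩ := hcb ⟨0, hj⟩ t (by linarith)
  rw [Kv_zero ⟨0, hj⟩ rfl] at c1 c2 c3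
  have hK : s.K = s.D ^ (1 - s.α) := K_eq hP hKD
  have hPi0 : 0 ≤ ∏ i, s.V i 1 t := Finset.prod_nonneg (fun i _ => ((hF.hV i).pos 1 t ht0).le)
  have hlow := exp_lower hP h2
  have hup := exp_upper hP h1
  have hKpos : 0 < s.K := by linarith [hP.K1]
  -- the inverse of the power of c
  have key : ((cc s.Y s.K t) ^ (2 - (j:ℤ)))⁻¹ ≤
      ((2:ℝ) ^ s.N + 4) * s.D ^ (-(s.α * ((j:ℝ) - 2)) + 2 * s.ep * s.N) := by
    rcases Nat.lt_or_ge j 2 with hj2 | hj2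
    · have hj1 : j = 1 := by omega
      subst hj1
      have hcl : s.D ^ (-s.α - s.ep) / 4 ≤ cc s.Y s.K t := by
        refine le_trans ?_ c1
        have : s.D ^ (-s.α - s.ep) = s.K * s.D ^ (-(1 + s.ep)) := by
          rw [hK, ← Real.rpow_add hD0]; congr 1; ring
        rw [this]
        have := mul_le_mul_of_nonneg_left hlow hKpos.le
        linarith
      have e1 : ((cc s.Y s.K t) ^ (2 - ((1:ℕ):ℤ)))⁻¹ = (cc s.Y s.K t)⁻¹ := by norm_num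
      rw [e1]
      have hdp : 0 < s.D ^ (-s.α - s.ep) := Real.rpow_pos_of_pos hD0 _
      calc (cc s.Y s.K t)⁻¹ ≤ (s.D ^ (-s.α - s.ep) / 4)⁻¹ :=
            inv_anti₀ (by positivity) hcl
        _ = 4 * s.D ^ (s.α + s.ep) := by
            rw [inv_div, div_eq_mul_inv, ← Real.rpow_neg hD0.le]; congr 2; ring
        _ ≤ ((2:ℝ) ^ s.N + 4) * s.D ^ (-(s.α * (((1:ℕ):ℝ) - 2)) + 2 * s.ep * s.N) := by
            apply mul_le_mul
            · have : (0:ℝ) ≤ 2 ^ s.N := by positivity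
              linarith
            · apply Real.rpow_le_rpow_of_exponent_le hD1
              push_cast
              nlinarith
            · exact Real.rpow_nonneg hD0.le _
            · positivity
    · obtain ⟨k, rfl⟩ : ∃ k, j = k + 2 := ⟨j - 2, by omega⟩
      have hcu : cc s.Y s.K t ≤ 2 * s.D ^ (-s.α + 2 * s.ep) := by
        refine c2.trans ?_
        have : s.D ^ (-s.α + 2 * s.ep) = s.K * s.D ^ (-(1 - 2 * s.ep)) := by
          rw [hK, ← Real.rpow_add hD0]; congr 1; ring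
        rw [this]
        have := mul_le_mul_of_nonneg_left hup hKpos.le
        linarith
      have e1 : ((cc s.Y s.K t) ^ (2 - (((k + 2 : ℕ)):ℤ)))⁻¹ = (cc s.Y s.K t) ^ k := by
        have : (2 - (((k + 2 : ℕ)):ℤ)) = -(k:ℤ) := by push_cast; ring
        rw [this, zpow_neg, inv_inv, zpow_natCast]
      rw [e1]
      have hkN : k ≤ s.N := by have := hP.jN; omega
      have hkN' : (k:ℝ) ≤ s.N := by exact_mod_cast hkN
      calc (cc s.Y s.K t) ^ k ≤ (2 * s.D ^ (-s.α + 2 * s.ep)) ^ k :=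
            pow_le_pow_left₀ hc.le hcu k
        _ = 2 ^ k * s.D ^ ((-s.α + 2 * s.ep) * k) := by
            rw [mul_pow, ← Real.rpow_natCast (s.D ^ (-s.α + 2 * s.ep)),
              ← Real.rpow_mul hD0.le]
        _ ≤ ((2:ℝ) ^ s.N + 4) *
            s.D ^ (-(s.α * ((((k + 2 : ℕ)):ℝ) - 2)) + 2 * s.ep * s.N) := by
            apply mul_le_mul
            · have : (2:ℝ) ^ k ≤ 2 ^ s.N := pow_le_pow_right₀ (by norm_num) hkN
              linarith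
            · apply Real.rpow_le_rpow_of_exponent_le hD1
              push_cast
              nlinarith
            · exact Real.rpow_nonneg hD0.le _
            · positivity
  have hzp : 0 < (cc s.Y s.K t) ^ (2 - (j:ℤ)) := zpow_pos hc _
  have e2 : ∏ i, s.V i 1 t = ((cc s.Y s.K t) ^ (2 - (j:ℤ)))⁻¹ * s.Bt t := by
    unfold Sys.Bt
    rw [← mul_assoc, inv_mul_cancel₀ (ne_of_gt hzp), one_mul]
  have hB : 0 ≤ s.Bt t := by
    unfold Sys.Bt; exact mul_nonneg hzp.le hPi0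
  calc ∏ i, s.V i 1 t = ((cc s.Y s.K t) ^ (2 - (j:ℤ)))⁻¹ * s.Bt t := e2
    _ ≤ _ := mul_le_mul_of_nonneg_right key hB

theorem sqrt_prod_le {j n : ℕ} {s : Sys j} (hF : Facts s)
    (hY : ∀ d t, 0 ≤ t → s.Y (d + 1) t ≤ s.Y d t) (G : SimpleGraph (Fin n)) (hn : 3 ≤ n)
    (hdeg : ∀ v, 1 ≤ dg G v) {t y : ℝ} (ht : 0 ≤ t) (hy : s.Y 1 t ≤ y) :
    Real.sqrt (∏ v, s.Y (dg G v) t) ≤ Real.sqrt (y ^ 3) := by
  apply Real.sqrt_le_sqrt
  have hmono : ∀ d, 1 ≤ d → s.Y d t ≤ s.Y 1 t := by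
    intro d hd
    induction d, hd using Nat.le_induction with
    | base => exact le_rfl
    | succ d hd ih => exact (hY d t ht).trans ih
  have hpos := hF.hY.pos 1 t ht
  have h1 : s.Y 1 t ≤ 1 := (hF.hY.le 1 t ht).trans hF.z1.le
  calc ∏ v, s.Y (dg G v) t ≤ ∏ _v : Fin n, s.Y 1 t := by
        apply Finset.prod_le_prod
        · intro v _; exact (hF.hY.pos _ t ht).le
        · intro v _; exact hmono _ (hdeg v)
    _ = (s.Y 1 t) ^ n := by simp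
    _ ≤ (s.Y 1 t) ^ 3 := pow_le_pow_of_le_one hpos.le h1 hn
    _ ≤ y ^ 3 := pow_le_pow_left₀ hpos.le hy 3

theorem sqrt_rpow_cube {D x : ℝ} (hD : 0 < D) : Real.sqrt ((D ^ x) ^ 3) = D ^ (3 / 2 * x) := by
  rw [Real.sqrt_eq_rpow, ← Real.rpow_natCast, ← Real.rpow_mul hD.le, ← Real.rpow_mul hD.le]
  congr 1; push_cast; ring

theorem l3c (h1 : S_CB) (h2 : S_VV) (h3 : S_EB) (h4 : S_CNT) (h5 : S_WTX) (h6 : S_XB) (h7 : S_PPB)
    (h8 : S_WTP) (h9 : S_TM) (h10 : S_YF) (h11 : S_UC) : S_L3C := by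
  intro η hη α e0 ep e1 N j hpar he1
  obtain ⟨K1, hK1⟩ := h1 α e0 ep e1 N j hpar he1
  obtain ⟨K3, hK3⟩ := h3 α e0 ep e1 N j hpar he1
  obtain ⟨K5, hK5⟩ := h5 α e0 ep e1 N j hpar he1
  obtain ⟨K6, hK6⟩ := h6 α e0 ep e1 N j hpar he1
  obtain ⟨K7, hK7⟩ := h7 α e0 ep e1 N j hpar he1
  obtain ⟨K8, hK8⟩ := h8 α e0 ep e1 N j hpar he1
  obtain ⟨ha0, ha1, hN, hj1, hjN, he0p, he0l, hepp, hepl⟩ := hpar
  -- total constant
  obtain ⟨Ct, hCt⟩ : ∃ Ct : ℝ, Ct = ((N:ℝ) + 1) ^ j *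
    ((2:ℝ) ^ ((j + 4) * j) * (6 * (N:ℝ)) ^ N + 1) + ((2:ℝ) ^ N + 4) := ⟨_, rfl⟩
  have hCtpos : 0 < Ct := by rw [hCt]; positivity
  refine ⟨max (max (max K1 K3) (max K5 K6)) (max (max K7 K8)
    ((Ct / η) ^ (1 / kapp e0 N))), fun s hα he0 hep hN' he1' hK hF => ?_⟩
  have A1 := hK1 s hα he0 hep hN' he1' ((((le_max_left _ _).trans (le_max_left _ _)).trans
    (le_max_left _ _)).trans hK) hF
  have A3 := hK3 s hα he0 hep hN' he1' ((((le_max_right _ _).trans (le_max_left _ _)).trans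
    (le_max_left _ _)).trans hK) hF
  have A5 := hK5 s hα he0 hep hN' he1' ((((le_max_left _ _).trans (le_max_right _ _)).trans
    (le_max_left _ _)).trans hK) hF
  have A6 := hK6 s hα he0 hep hN' he1' ((((le_max_right _ _).trans (le_max_right _ _)).trans
    (le_max_left _ _)).trans hK) hF
  have A7 := hK7 s hα he0 hep hN' he1' ((((le_max_left _ _).trans (le_max_left _ _)).trans
    (le_max_right _ _)).trans hK) hF
  have A8 := hK8 s hα he0 hep hN' he1' ((((le_max_right _ _).trans (le_max_left _ _)).trans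
    (le_max_right _ _)).trans hK) hF
  have hKc : (Ct / η) ^ (1 / kapp e0 N) ≤ s.K :=
    ((le_max_right _ _).trans (le_max_right _ _)).trans hK
  have hP := hF.par
  obtain ⟨p1, p2, p3, p4, p5⟩ := par_small hP
  obtain ⟨t1, t2, t3, t4⟩ := times hF
  obtain ⟨k1, k2, k3, k4, k5⟩ := kapp_facts hP
  rw [← he0, ← hN'] at hKc
  have hKD := K_le_D hP
  have hD1 : 1 ≤ s.D := by linarith [hP.K1]
  have hD0 : 0 < s.D := by linarith
  have hCη : 0 < Ct / η := by positivity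
  have hCD : Ct * s.D ^ (-(kapp s.e0 s.N)) ≤ η := by
    have : Ct / η ≤ s.D ^ (kapp s.e0 s.N) := by
      calc Ct / η = ((Ct / η) ^ (1 / kapp s.e0 s.N)) ^ (kapp s.e0 s.N) := by
            rw [← Real.rpow_mul hCη.le, one_div, inv_mul_cancel₀ (ne_of_gt k1), Real.rpow_one]
        _ ≤ s.K ^ (kapp s.e0 s.N) := Real.rpow_le_rpow (Real.rpow_nonneg hCη.le _) hKc k1.le
        _ ≤ s.D ^ (kapp s.e0 s.N) := Real.rpow_le_rpow (by linarith [hP.K1]) hKD k1.le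
    rw [div_le_iff₀ hη] at this
    rw [Real.rpow_neg hD0.le, ← div_eq_mul_inv, div_le_iff₀ (Real.rpow_pos_of_pos hD0 _)]
    linarith
  intro J hJ ds hds G hG hyp t htl htp
  have ht0 : 0 ≤ t := by linarith
  have htM : s.tM ≤ t := by linarith
  have hN3 : 3 ≤ s.N := hP.N3
  obtain ⟨hcnt1, hcnt2, hcnt3⟩ := h4 j s.N J G hj1 (by omega) hJ hG
  obtain ⟨q1, q2, q3, q4, q5⟩ := A1
  have hc0pos : ∀ t, 0 ≤ t → 0 < cc s.Y s.K t := by
    intro t ht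
    have := (q5 ⟨0, hj1⟩ t ht).2.2.2
    rwa [Kv_zero ⟨0, hj1⟩ rfl] at this
  have hPP := (A7 J hJ).1 ds hds
  have hPB := (hPP.1 t htl htp).1
  have hPPn : 0 ≤ s.PP J ds t := ((h11 j s hF J hJ).2.1 ds).2 t ht0
  have hzp : 0 < (cc s.Y s.K t) ^ (2 - (j:ℤ)) := zpow_pos (hc0pos t ht0) _
  have hPi0 : 0 ≤ ∏ i, s.V i 1 t := Finset.prod_nonneg (fun i _ => ((hF.hV i).pos 1 t ht0).le)
  have hB : 0 ≤ s.Bt t := by unfold Sys.Bt; exact mul_nonneg hzp.le hPi0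
  have hNe0 : 0 ≤ (s.N:ℝ) * s.e0 := mul_nonneg (by positivity) hP.e0pos.le
  -- Bt ≤ D^{3 N e0} PP
  have hBt : s.Bt t ≤ s.D ^ (3 * (s.N:ℝ) * s.e0) * s.PP J ds t := by
    have h := mul_le_mul_of_nonneg_left hPB
      (Real.rpow_nonneg hD0.le (3 * (s.N:ℝ) * s.e0))
    rw [← mul_assoc, ← Real.rpow_add hD0] at h
    simpa using h
  have small : ∀ x : ℝ, x ≤ -(kapp s.e0 s.N) - 3 * (s.N:ℝ) * s.e0 →
      s.D ^ x * s.Bt t ≤ s.D ^ (-(kapp s.e0 s.N)) * s.PP J ds t := by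
    intro x hx
    calc s.D ^ x * s.Bt t ≤ s.D ^ x * (s.D ^ (3 * (s.N:ℝ) * s.e0) * s.PP J ds t) :=
          mul_le_mul_of_nonneg_left hBt (Real.rpow_nonneg hD0.le _)
      _ = s.D ^ (x + 3 * (s.N:ℝ) * s.e0) * s.PP J ds t := by
          rw [← mul_assoc, ← Real.rpow_add hD0]
      _ ≤ s.D ^ (-(kapp s.e0 s.N)) * s.PP J ds t := by
          apply mul_le_mul_of_nonneg_right _ hPPn
          apply Real.rpow_le_rpow_of_exponent_le hD1
          linarith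
  set Cw : ℝ := (2:ℝ) ^ ((j + 4) * j) * (6 * (N:ℝ)) ^ N with hCw
  have hCw0 : 0 ≤ Cw := by rw [hCw]; positivity
  -- each weight
  have hw : ∀ ψ ∈ PEs J G, wt J G (aW s.Y t) (bW s.α s.Y t) s.Kv (fun i => s.Z i t)
      (fun i m d r => s.Gf i m d r t) ψ ≤
      (Cw + 1) * (s.D ^ (-(kapp s.e0 s.N)) * s.PP J ds t) := by
    intro ψ hψ
    have hnn : 0 ≤ s.D ^ (-(kapp s.e0 s.N)) * s.PP J ds t :=
      mul_nonneg (Real.rpow_nonneg hD0.le _) hPPn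
    rcases hyp ψ hψ with he | ⟨hfull, hlex⟩
    · have a := (A5 J G hJ hG ψ hψ).1 t htM
      have b := (A6 J G hJ hG ψ hψ).2.1 he t htl htp
      have c := small (-(1:ℝ)/2) (by nlinarith)
      have hCw' : (2:ℝ) ^ ((j + 4) * j) * (6 * (s.N:ℝ)) ^ s.N = Cw := by rw [hCw, hN']
      rw [hCw'] at a
      calc _ ≤ Cw * s.Xp G ψ t := a
        _ ≤ Cw * (s.D ^ (-(kapp s.e0 s.N)) * s.PP J ds t) :=
            mul_le_mul_of_nonneg_left (b.trans c) hCw0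
        _ ≤ _ := by nlinarith
    · have a := (A8 J G hJ hG ψ hfull).1 t ht0
      have hAdm := (hcnt2 ψ hfull).1
      have b := (A7 J hJ).2 (dv G ψ) ds hAdm hds hlex t htl htp
      have b' : s.PP J (dv G ψ) t ≤ s.D ^ (-(kapp s.e0 s.N)) * s.PP J ds t := by
        unfold kapp; exact b
      calc _ ≤ s.PP J (dv G ψ) t := a
        _ ≤ _ := b'
        _ ≤ _ := by nlinarith
  have hsum : ∑ ψ ∈ PEs J G, wt J G (aW s.Y t) (bW s.α s.Y t) s.Kv (fun i => s.Z i t)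
      (fun i m d r => s.Gf i m d r t) ψ ≤
      ((N:ℝ) + 1) ^ j * ((Cw + 1) * (s.D ^ (-(kapp s.e0 s.N)) * s.PP J ds t)) := by
    have hnn : 0 ≤ (Cw + 1) * (s.D ^ (-(kapp s.e0 s.N)) * s.PP J ds t) :=
      mul_nonneg (by linarith) (mul_nonneg (Real.rpow_nonneg hD0.le _) hPPn)
    have hcard : ((PEs J G).card : ℝ) ≤ ((N:ℝ) + 1) ^ j := by
      have h1 : (PEs J G).card ≤ (s.N + 1) ^ j := by
        calc (PEs J G).card ≤ (Finset.univ : Finset (Fin j → Option (Fin s.N))).card :=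
              Finset.card_le_univ _
          _ = (s.N + 1) ^ j := by simp
      calc ((PEs J G).card : ℝ) ≤ ((s.N:ℝ) + 1) ^ j := by exact_mod_cast h1
        _ = ((N:ℝ) + 1) ^ j := by rw [hN']
    calc _ ≤ ∑ _ψ ∈ PEs J G, (Cw + 1) * (s.D ^ (-(kapp s.e0 s.N)) * s.PP J ds t) :=
          Finset.sum_le_sum hw
      _ = ((PEs J G).card : ℝ) * ((Cw + 1) * (s.D ^ (-(kapp s.e0 s.N)) * s.PP J ds t)) := by
          rw [Finset.sum_const, nsmul_eq_mul]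
      _ ≤ _ := mul_le_mul_of_nonneg_right hcard hnn
  -- the E term
  have hE : Real.sqrt (∏ v, s.Y (dg G v) t) * s.Eh t ≤
      ((2:ℝ) ^ N + 4) * (s.D ^ (-(kapp s.e0 s.N)) * s.PP J ds t) := by
    have hz0 : 0 < s.z := by linarith [hF.z2]
    have yf := h10 s.α s.z s.Y hP.a0 hP.a1' hz0 hF.z1 hF.hY
    have tmm := (h9 s.α s.z s.Y hP.a0 hP.a1' hF.z2 hF.z1 hF.hY).2 s.tM hF.tMpos.le hF.htM
    have hy : s.Y 1 t ≤ s.D ^ (-(1 - 2 * s.ep)) := (tmm.2.1 t htM).2.trans (exp_upper hP htl)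
    have hs := sqrt_prod_le hF yf.1 G hN3 (fun v => (hcnt3 v).1) ht0 hy
    rw [sqrt_rpow_cube hD0] at hs
    have hEb := A3.2.2.1 t htl htp
    have hPi := Pi_le_Bt hF hj1 q3 q4 hc0pos htl htp
    have hEh0 := hF.Enn t ht0
    calc Real.sqrt (∏ v, s.Y (dg G v) t) * s.Eh t ≤
          s.D ^ (3 / 2 * (-(1 - 2 * s.ep))) *
            (s.D ^ (1 + ((j:ℝ) - 2) * s.α + 10 * s.N * s.e0) * ∏ i, s.V i 1 t) :=
          mul_le_mul hs hEb hEh0 (Real.rpow_nonneg hD0.le _)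
      _ ≤ s.D ^ (3 / 2 * (-(1 - 2 * s.ep))) *
            (s.D ^ (1 + ((j:ℝ) - 2) * s.α + 10 * s.N * s.e0) *
            (((2:ℝ) ^ s.N + 4) * s.D ^ (-(s.α * ((j:ℝ) - 2)) + 2 * s.ep * s.N) * s.Bt t)) := by
          apply mul_le_mul_of_nonneg_left _ (Real.rpow_nonneg hD0.le _)
          exact mul_le_mul_of_nonneg_left hPi (Real.rpow_nonneg hD0.le _)
      _ = ((2:ℝ) ^ s.N + 4) * (s.D ^ (3 / 2 * (-(1 - 2 * s.ep)) +
            (1 + ((j:ℝ) - 2) * s.α + 10 * s.N * s.e0) +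
            (-(s.α * ((j:ℝ) - 2)) + 2 * s.ep * s.N)) * s.Bt t) := by
          have e3 : ∀ A B C : ℝ, s.D ^ (A + B + C) = s.D ^ A * s.D ^ B * s.D ^ C := by
            intro A B C; rw [Real.rpow_add hD0, Real.rpow_add hD0]
          rw [e3 (3 / 2 * (-(1 - 2 * s.ep))) (1 + ((j:ℝ) - 2) * s.α + 10 * s.N * s.e0)
            (-(s.α * ((j:ℝ) - 2)) + 2 * s.ep * s.N)]
          generalize s.D ^ (3 / 2 * (-(1 - 2 * s.ep))) = X1
          generalize s.D ^ (1 + ((j:ℝ) - 2) * s.α + 10 * s.N * s.e0) = X2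
          generalize s.D ^ (-(s.α * ((j:ℝ) - 2)) + 2 * s.ep * s.N) = X3
          ring
      _ ≤ ((2:ℝ) ^ s.N + 4) * (s.D ^ (-(kapp s.e0 s.N)) * s.PP J ds t) := by
          apply mul_le_mul_of_nonneg_left _ (by positivity)
          apply small
          nlinarith
      _ = _ := by rw [hN']
  unfold Sys.Ubar
  calc _ ≤ ((N:ℝ) + 1) ^ j * ((Cw + 1) * (s.D ^ (-(kapp s.e0 s.N)) * s.PP J ds t)) +
        ((2:ℝ) ^ N + 4) * (s.D ^ (-(kapp s.e0 s.N)) * s.PP J ds t) := add_le_add hsum hE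
    _ = (Ct * s.D ^ (-(kapp s.e0 s.N))) * s.PP J ds t := by rw [hCt, hCw]; ring
    _ ≤ η * s.PP J ds t := mul_le_mul_of_nonneg_right hCD hPPn

end Pool.Agent.TH981.SD
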