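import Pool.Agent.TH981.SD.L3C

set_option autoImplicit false

open Pool.Agent.TH981.SD
open Finset Set Filter
open scoped BigOperators Topology Classical

namespace Pool.Agent.TH981.SD

theorem integral_exp_shift (a τ : ℝ) (_h : a ≤ τ) :
    ∫ t in a..τ, Real.exp (-(t - a)) ≤ 1 := by
  have h1 : ∀ t ∈ Set.uIcc a τ, HasDerivAt (fun t => -Real.exp (a - t))
      (Real.exp (a - t)) t := by
    intro t _
    have h2 : HasDerivAt (fun t : ℝ => a - t) (-1) t := by
      simpa using (hasDerivAt_id t).const_sub a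
    have h3 := h2.exp.fun_neg
    simpa using h3
  have h4 : ∀ t, Real.exp (-(t - a)) = Real.exp (a - t) := fun t => by rw [neg_sub]
  simp only [h4]
  rw [intervalIntegral.integral_eq_sub_of_hasDerivAt h1
    (Continuous.intervalIntegrable (by fun_prop) _ _)]
  simp
  positivity

theorem l3d (h1 : S_CB) (h2 : S_VV) (h3 : S_EB) (h4 : S_CNT) (h5 : S_WTX) (h6 : S_XB) (h7 : S_PPB)
    (h8 : S_WTP) (h9 : S_TM) (h10 : S_YF) (h11 : S_UC) : S_L3D := by
  intro η hη α e0 ep e1 N j hpar he1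
  obtain ⟨K1, hK1⟩ := h1 α e0 ep e1 N j hpar he1
  obtain ⟨K3, hK3⟩ := h3 α e0 ep e1 N j hpar he1
  obtain ⟨K5, hK5⟩ := h5 α e0 ep e1 N j hpar he1
  obtain ⟨K6, hK6⟩ := h6 α e0 ep e1 N j hpar he1
  obtain ⟨K7, hK7⟩ := h7 α e0 ep e1 N j hpar he1
  obtain ⟨K8, hK8⟩ := h8 α e0 ep e1 N j hpar he1
  obtain ⟨ha0, ha1, hN, hj1, hjN, he0p, he0l, hepp, hepl⟩ := hpar
  -- total constant
  obtain ⟨Ct, hCt⟩ : ∃ Ct : ℝ, Ct = ((N:ℝ) + 1) ^ j *
    ((2:ℝ) ^ ((j + 4) * j) * (6 * (N:ℝ)) ^ N + 1) + ((2:ℝ) ^ N + 4) := ⟨_, rfl⟩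
  have hCtpos : 0 < Ct := by rw [hCt]; positivity
  have hk2 : 0 < kapp e0 N / 2 := by
    unfold kapp
    have : (0:ℝ) < N := by exact_mod_cast (by omega : 0 < N)
    positivity
  refine ⟨max (max (max K1 K3) (max K5 K6)) (max (max K7 K8)
    (max ((Ct / η) ^ (1 / (kapp e0 N / 2))) (Real.exp (1 / (2 * ep))))),
    fun s hα he0 hep hN' he1' hK hF => ?_⟩
  have A1 := hK1 s hα he0 hep hN' he1' ((((le_max_left _ _).trans (le_max_left _ _)).trans
    (le_max_left _ _)).trans hK) hF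
  have A3 := hK3 s hα he0 hep hN' he1' ((((le_max_right _ _).trans (le_max_left _ _)).trans
    (le_max_left _ _)).trans hK) hF
  have A5 := hK5 s hα he0 hep hN' he1' ((((le_max_left _ _).trans (le_max_right _ _)).trans
    (le_max_left _ _)).trans hK) hF
  have A6 := hK6 s hα he0 hep hN' he1' ((((le_max_right _ _).trans (le_max_right _ _)).trans
    (le_max_left _ _)).trans hK) hF
  have A7 := hK7 s hα he0 hep hN' he1' ((((le_max_left _ _).trans (le_max_left _ _)).trans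
    (le_max_right _ _)).trans hK) hF
  have A8 := hK8 s hα he0 hep hN' he1' ((((le_max_right _ _).trans (le_max_left _ _)).trans
    (le_max_right _ _)).trans hK) hF
  have hKc : (Ct / η) ^ (1 / (kapp e0 N / 2)) ≤ s.K :=
    (((le_max_left _ _).trans (le_max_right _ _)).trans (le_max_right _ _)).trans hK
  have hKb : Real.exp (1 / (2 * ep)) ≤ s.K :=
    (((le_max_right _ _).trans (le_max_right _ _)).trans (le_max_right _ _)).trans hK
  have hP := hF.par
  obtain ⟨p1, p2, p3, p4, p5⟩ := par_small hP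
  obtain ⟨t1, t2, t3, t4⟩ := times hF
  obtain ⟨k1, k2, k3, k4, k5⟩ := kapp_facts hP
  rw [← he0, ← hN'] at hKc hk2
  rw [← hep] at hKb
  have hKD := K_le_D hP
  have hD1 : 1 ≤ s.D := by linarith [hP.K1]
  have hD0 : 0 < s.D := by linarith
  have hepp' : 0 < s.ep := hP.eppos
  have hCη : 0 < Ct / η := by positivity
  have hL1 : 1 ≤ 2 * s.ep * s.L := by
    have : 1 / (2 * s.ep) ≤ Real.log s.K := by
      rw [Real.le_log_iff_exp_le (by linarith [hP.K1])]; exact hKb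
    have h5 := this.trans (logK_le_L hP)
    rw [div_le_iff₀ (by positivity)] at h5
    linarith
  have htp1 : s.tl ≤ s.tp - 1 := by
    unfold Sys.tl Sys.tp; nlinarith
  have hCD : Ct * s.D ^ (-(kapp s.e0 s.N / 2)) ≤ η := by
    have : Ct / η ≤ s.D ^ (kapp s.e0 s.N / 2) := by
      calc Ct / η = ((Ct / η) ^ (1 / (kapp s.e0 s.N / 2))) ^ (kapp s.e0 s.N / 2) := by
            rw [← Real.rpow_mul hCη.le, one_div, inv_mul_cancel₀ (ne_of_gt hk2), Real.rpow_one]
        _ ≤ s.K ^ (kapp s.e0 s.N / 2) :=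
            Real.rpow_le_rpow (Real.rpow_nonneg hCη.le _) hKc hk2.le
        _ ≤ s.D ^ (kapp s.e0 s.N / 2) := Real.rpow_le_rpow (by linarith [hP.K1]) hKD hk2.le
    rw [div_le_iff₀ hη] at this
    rw [Real.rpow_neg hD0.le, ← div_eq_mul_inv, div_le_iff₀ (Real.rpow_pos_of_pos hD0 _)]
    linarith
  intro J hJ ds hds G hG hyp
  have hN3 : 3 ≤ s.N := hP.N3
  obtain ⟨hcnt1, hcnt2, hcnt3⟩ := h4 j s.N J G hj1 (by omega) hJ hG
  obtain ⟨q1, q2, q3, q4, q5⟩ := A1
  have htp0 : 0 ≤ s.tp := by linarith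
  have hc0pos : ∀ t, 0 ≤ t → 0 < cc s.Y s.K t := by
    intro t ht
    have := (q5 ⟨0, hj1⟩ t ht).2.2.2
    rwa [Kv_zero ⟨0, hj1⟩ rfl] at this
  have hPP := (A7 J hJ).1 ds hds
  have hPB := (hPP.1 s.tp (by linarith) le_rfl).1
  obtain ⟨hPc, hPn⟩ := (h11 j s hF J hJ).2.1 ds
  have hPPn : 0 ≤ s.PP J ds s.tp := hPn s.tp htp0
  have hzp : 0 < (cc s.Y s.K s.tp) ^ (2 - (j:ℤ)) := zpow_pos (hc0pos s.tp htp0) _
  have hPi0 : 0 ≤ ∏ i, s.V i 1 s.tp :=
    Finset.prod_nonneg (fun i _ => ((hF.hV i).pos 1 s.tp htp0).le)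
  have hB : 0 ≤ s.Bt s.tp := by unfold Sys.Bt; exact mul_nonneg hzp.le hPi0
  have hNe0 : 0 ≤ (s.N:ℝ) * s.e0 := mul_nonneg (by positivity) hP.e0pos.le
  have hBt : s.Bt s.tp ≤ s.D ^ (3 * (s.N:ℝ) * s.e0) * s.PP J ds s.tp := by
    have h := mul_le_mul_of_nonneg_left hPB
      (Real.rpow_nonneg hD0.le (3 * (s.N:ℝ) * s.e0))
    rw [← mul_assoc, ← Real.rpow_add hD0] at h
    simpa using h
  have small : ∀ x : ℝ, x ≤ (s.ep - kapp s.e0 s.N) - 3 * (s.N:ℝ) * s.e0 →
      s.D ^ x * s.Bt s.tp ≤ s.D ^ (s.ep - kapp s.e0 s.N) * s.PP J ds s.tp := by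
    intro x hx
    calc s.D ^ x * s.Bt s.tp ≤ s.D ^ x * (s.D ^ (3 * (s.N:ℝ) * s.e0) * s.PP J ds s.tp) :=
          mul_le_mul_of_nonneg_left hBt (Real.rpow_nonneg hD0.le _)
      _ = s.D ^ (x + 3 * (s.N:ℝ) * s.e0) * s.PP J ds s.tp := by
          rw [← mul_assoc, ← Real.rpow_add hD0]
      _ ≤ s.D ^ (s.ep - kapp s.e0 s.N) * s.PP J ds s.tp := by
          apply mul_le_mul_of_nonneg_right _ hPPn
          apply Real.rpow_le_rpow_of_exponent_le hD1
          linarith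
  obtain ⟨Q, hQ⟩ : ∃ Q, Q = s.D ^ (s.ep - kapp s.e0 s.N) * s.PP J ds s.tp := ⟨_, rfl⟩
  have hQ0 : 0 ≤ Q := by rw [hQ]; exact mul_nonneg (Real.rpow_nonneg hD0.le _) hPPn
  rw [← hQ] at small
  obtain ⟨Cw, hCw⟩ : ∃ Cw : ℝ, Cw = (2:ℝ) ^ ((j + 4) * j) * (6 * (N:ℝ)) ^ N := ⟨_, rfl⟩
  have hCw0 : 0 ≤ Cw := by rw [hCw]; positivity
  have hCw' : (2:ℝ) ^ ((j + 4) * j) * (6 * (s.N:ℝ)) ^ s.N = Cw := by rw [hCw, hN']
  rw [← hCw] at hCt
  have hz0 : 0 < s.z := by linarith [hF.z2]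
  have yf := h10 s.α s.z s.Y hP.a0 hP.a1' hz0 hF.z1 hF.hY
  have tmm := (h9 s.α s.z s.Y hP.a0 hP.a1' hF.z2 hF.z1 hF.hY).2 s.tM hF.tMpos.le hF.htM
  have hPi := Pi_le_Bt hF hj1 q3 q4 hc0pos (show s.tl ≤ s.tp by linarith) le_rfl
  have first : ∀ t, s.tp ≤ t → s.Ubar J G t ≤ Ct * (Real.exp (-(t - s.tp)) * Q) := by
    intro t ht
    have ht0 : 0 ≤ t := by linarith
    have htM : s.tM ≤ t := by linarith
    obtain ⟨E, hE⟩ : ∃ E, E = Real.exp (-(t - s.tp)) := ⟨_, rfl⟩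
    have hE0 : 0 < E := by rw [hE]; exact Real.exp_pos _
    have hE1 : E ≤ 1 := by rw [hE]; apply Real.exp_le_one_iff.mpr; linarith
    have hEQ : 0 ≤ E * Q := mul_nonneg hE0.le hQ0
    rw [← hE]
    have hw : ∀ ψ ∈ PEs J G, wt J G (aW s.Y t) (bW s.α s.Y t) s.Kv (fun i => s.Z i t)
        (fun i m d r => s.Gf i m d r t) ψ ≤ (Cw + 1) * (E * Q) := by
      intro ψ hψ
      rcases hyp ψ hψ with he | ⟨hfull, hlex⟩
      · have a := (A5 J G hJ hG ψ hψ).1 t htM
        have b := (A6 J G hJ hG ψ hψ).2.2 he t ht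
        have c := small (-(1:ℝ)/4) (by linarith)
        rw [hCw'] at a
        rw [← hE] at b
        calc _ ≤ Cw * s.Xp G ψ t := a
          _ ≤ Cw * (E * Q) := by
              apply mul_le_mul_of_nonneg_left _ hCw0
              refine b.trans ?_
              calc s.D ^ (-(1:ℝ) / 4) * E * s.Bt s.tp = E * (s.D ^ (-(1:ℝ) / 4) * s.Bt s.tp) := by
                    ring
                _ ≤ E * Q := mul_le_mul_of_nonneg_left c hE0.le
          _ ≤ _ := by linarith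
      · have a := (A8 J G hJ hG ψ hfull).1 t ht0
        have hAdm := (hcnt2 ψ hfull).1
        have b := (A7 J hJ).2 (dv G ψ) ds hAdm hds hlex s.tp (by linarith) le_rfl
        have b' : s.PP J (dv G ψ) s.tp ≤ s.D ^ (-(kapp s.e0 s.N)) * s.PP J ds s.tp := by
          unfold kapp; exact b
        have c := ((A7 J hJ).1 (dv G ψ) hAdm).2.2.1 t ht
        rw [← hE] at c
        calc _ ≤ s.PP J (dv G ψ) t := a
          _ ≤ s.D ^ s.ep * E * s.PP J (dv G ψ) s.tp := c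
          _ ≤ s.D ^ s.ep * E * (s.D ^ (-(kapp s.e0 s.N)) * s.PP J ds s.tp) :=
              mul_le_mul_of_nonneg_left b' (mul_nonneg (Real.rpow_nonneg hD0.le _) hE0.le)
          _ = E * Q := by
              rw [hQ, sub_eq_add_neg, Real.rpow_add hD0]; ring
          _ ≤ _ := by nlinarith [mul_nonneg hCw0 hEQ]
    have hsum : ∑ ψ ∈ PEs J G, wt J G (aW s.Y t) (bW s.α s.Y t) s.Kv (fun i => s.Z i t)
        (fun i m d r => s.Gf i m d r t) ψ ≤ ((N:ℝ) + 1) ^ j * ((Cw + 1) * (E * Q)) := by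
      have hnn : 0 ≤ (Cw + 1) * (E * Q) := mul_nonneg (by linarith) hEQ
      have hcard : ((PEs J G).card : ℝ) ≤ ((N:ℝ) + 1) ^ j := by
        have h1 : (PEs J G).card ≤ (s.N + 1) ^ j := by
          calc (PEs J G).card ≤ (Finset.univ : Finset (Fin j → Option (Fin s.N))).card :=
                Finset.card_le_univ _
            _ = (s.N + 1) ^ j := by simp
        calc ((PEs J G).card : ℝ) ≤ ((s.N:ℝ) + 1) ^ j := by exact_mod_cast h1
          _ = ((N:ℝ) + 1) ^ j := by rw [hN']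
      calc _ ≤ ∑ _ψ ∈ PEs J G, (Cw + 1) * (E * Q) := Finset.sum_le_sum hw
        _ = ((PEs J G).card : ℝ) * ((Cw + 1) * (E * Q)) := by
            rw [Finset.sum_const, nsmul_eq_mul]
        _ ≤ _ := mul_le_mul_of_nonneg_right hcard hnn
    have hEt : Real.sqrt (∏ v, s.Y (dg G v) t) * s.Eh t ≤ ((2:ℝ) ^ N + 4) * (E * Q) := by
      have hexp : Real.exp (-(t - s.tM)) = E * s.D ^ (-(1 + s.ep)) := by
        rw [hE, ← exp_L hP, ← Real.exp_add]
        congr 1
        unfold Sys.tp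
        ring
      have hy : s.Y 1 t ≤ E * s.D ^ (-(1 + s.ep)) := by
        rw [← hexp]; exact (tmm.2.1 t htM).2
      have hs := sqrt_prod_le hF yf.1 G hN3 (fun v => (hcnt3 v).1) ht0 hy
      have hs2 : Real.sqrt ((E * s.D ^ (-(1 + s.ep))) ^ 3) ≤ E * s.D ^ (-(3:ℝ) / 2) := by
        rw [mul_pow, Real.sqrt_mul (by positivity), sqrt_rpow_cube hD0]
        apply mul_le_mul _ _ (Real.rpow_nonneg hD0.le _) hE0.le
        · calc Real.sqrt (E ^ 3) ≤ Real.sqrt (E ^ 2) := by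
                apply Real.sqrt_le_sqrt
                exact pow_le_pow_of_le_one hE0.le hE1 (by norm_num)
            _ = E := Real.sqrt_sq hE0.le
        · apply Real.rpow_le_rpow_of_exponent_le hD1
          linarith
      have hEb := A3.2.2.2 t ht
      have hEh0 := hF.Enn t ht0
      calc Real.sqrt (∏ v, s.Y (dg G v) t) * s.Eh t ≤
            (E * s.D ^ (-(3:ℝ) / 2)) *
              (s.D ^ (1 + ((j:ℝ) - 2) * s.α + 12 * s.N * s.e0) * ∏ i, s.V i 1 s.tp) :=
            mul_le_mul (hs.trans hs2) hEb hEh0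
              (mul_nonneg hE0.le (Real.rpow_nonneg hD0.le _))
        _ ≤ (E * s.D ^ (-(3:ℝ) / 2)) *
              (s.D ^ (1 + ((j:ℝ) - 2) * s.α + 12 * s.N * s.e0) *
              (((2:ℝ) ^ s.N + 4) * s.D ^ (-(s.α * ((j:ℝ) - 2)) + 2 * s.ep * s.N) *
                s.Bt s.tp)) := by
            apply mul_le_mul_of_nonneg_left _ (mul_nonneg hE0.le (Real.rpow_nonneg hD0.le _))
            exact mul_le_mul_of_nonneg_left hPi (Real.rpow_nonneg hD0.le _)
        _ = ((2:ℝ) ^ s.N + 4) * (E * (s.D ^ (-(3:ℝ) / 2 +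
              (1 + ((j:ℝ) - 2) * s.α + 12 * s.N * s.e0) +
              (-(s.α * ((j:ℝ) - 2)) + 2 * s.ep * s.N)) * s.Bt s.tp)) := by
            have e3 : ∀ A B C : ℝ, s.D ^ (A + B + C) = s.D ^ A * s.D ^ B * s.D ^ C := by
              intro A B C; rw [Real.rpow_add hD0, Real.rpow_add hD0]
            rw [e3 (-(3:ℝ) / 2) (1 + ((j:ℝ) - 2) * s.α + 12 * s.N * s.e0)
              (-(s.α * ((j:ℝ) - 2)) + 2 * s.ep * s.N)]
            generalize s.D ^ (-(3:ℝ) / 2) = X1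
            generalize s.D ^ (1 + ((j:ℝ) - 2) * s.α + 12 * s.N * s.e0) = X2
            generalize s.D ^ (-(s.α * ((j:ℝ) - 2)) + 2 * s.ep * s.N) = X3
            ring
        _ ≤ ((2:ℝ) ^ s.N + 4) * (E * Q) := by
            apply mul_le_mul_of_nonneg_left _ (by positivity)
            apply mul_le_mul_of_nonneg_left _ hE0.le
            apply small
            nlinarith
        _ = _ := by rw [hN']
    unfold Sys.Ubar
    calc _ ≤ ((N:ℝ) + 1) ^ j * ((Cw + 1) * (E * Q)) + ((2:ℝ) ^ N + 4) * (E * Q) :=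
          add_le_add hsum hEt
      _ = Ct * (E * Q) := by rw [hCt]; ring
  -- Ct * Q ≤ η D^{-ep} PP
  have hCQ : Ct * Q ≤ η * (s.D ^ (-s.ep) * s.PP J ds s.tp) := by
    have e4 : s.D ^ (s.ep - kapp s.e0 s.N) ≤ s.D ^ (-(kapp s.e0 s.N / 2)) * s.D ^ (-s.ep) := by
      rw [← Real.rpow_add hD0]
      apply Real.rpow_le_rpow_of_exponent_le hD1
      linarith
    have hDe : 0 ≤ s.D ^ (-s.ep) * s.PP J ds s.tp :=
      mul_nonneg (Real.rpow_nonneg hD0.le _) hPPn
    calc Ct * Q ≤ Ct * ((s.D ^ (-(kapp s.e0 s.N / 2)) * s.D ^ (-s.ep)) * s.PP J ds s.tp) := by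
          rw [hQ]
          exact mul_le_mul_of_nonneg_left (mul_le_mul_of_nonneg_right e4 hPPn) hCtpos.le
      _ = (Ct * s.D ^ (-(kapp s.e0 s.N / 2))) * (s.D ^ (-s.ep) * s.PP J ds s.tp) := by ring
      _ ≤ η * (s.D ^ (-s.ep) * s.PP J ds s.tp) := mul_le_mul_of_nonneg_right hCD hDe
  have hDep1 : s.D ^ (-s.ep) ≤ 1 := by
    apply Real.rpow_le_one_of_one_le_of_nonpos hD1; linarith
  obtain ⟨hUc, hUn⟩ := (h11 j s hF J hJ).1 s.N G (by omega) hG
  refine ⟨?_, ?_⟩
  · intro t ht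
    have hE0 := Real.exp_pos (-(t - s.tp))
    calc s.Ubar J G t ≤ Ct * (Real.exp (-(t - s.tp)) * Q) := first t ht
      _ = Real.exp (-(t - s.tp)) * (Ct * Q) := by ring
      _ ≤ Real.exp (-(t - s.tp)) * (η * (s.D ^ (-s.ep) * s.PP J ds s.tp)) :=
          mul_le_mul_of_nonneg_left hCQ hE0.le
      _ ≤ Real.exp (-(t - s.tp)) * (η * (1 * s.PP J ds s.tp)) := by
          apply mul_le_mul_of_nonneg_left _ hE0.le
          apply mul_le_mul_of_nonneg_left _ hη.le
          exact mul_le_mul_of_nonneg_right hDep1 hPPn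
      _ = _ := by ring
  · intro τ hτ
    have hPint : ∀ a b : ℝ, 0 ≤ a → a ≤ b → IntervalIntegrable (fun t => s.PP J ds t)
        MeasureTheory.volume a b := by
      intro a b ha hab
      apply ContinuousOn.intervalIntegrable
      rw [Set.uIcc_of_le hab]
      exact hPc.mono (fun t ht => ha.trans ht.1)
    have hUint : IntervalIntegrable (fun t => s.Ubar J G t) MeasureTheory.volume s.tp τ := by
      apply ContinuousOn.intervalIntegrable
      rw [Set.uIcc_of_le hτ]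
      exact hUc.mono (fun t ht => htp0.trans ht.1)
    have i1 : ∫ t in s.tp..τ, s.Ubar J G t ≤ Ct * Q := by
      calc ∫ t in s.tp..τ, s.Ubar J G t ≤ ∫ t in s.tp..τ, (Ct * Q) * Real.exp (-(t - s.tp)) := by
            apply intervalIntegral.integral_mono_on hτ hUint
              (Continuous.intervalIntegrable (by fun_prop) _ _)
            intro t ht
            have := first t ht.1
            linarith
        _ = (Ct * Q) * ∫ t in s.tp..τ, Real.exp (-(t - s.tp)) := by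
            rw [intervalIntegral.integral_const_mul]
        _ ≤ (Ct * Q) * 1 :=
            mul_le_mul_of_nonneg_left (integral_exp_shift _ _ hτ) (mul_nonneg hCtpos.le hQ0)
        _ = Ct * Q := mul_one _
    have i2 : s.D ^ (-s.ep) * s.PP J ds s.tp ≤ ∫ t in s.tl..s.tp, s.PP J ds t := by
      rw [← intervalIntegral.integral_add_adjacent_intervals
        (hPint s.tl (s.tp - 1) (by linarith) htp1)
        (hPint (s.tp - 1) s.tp (by linarith) (by linarith))]
      have n1 : 0 ≤ ∫ t in s.tl..(s.tp - 1), s.PP J ds t :=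
        intervalIntegral.integral_nonneg htp1 (fun t ht => hPn t (by linarith [ht.1]))
      have n2 : s.D ^ (-s.ep) * s.PP J ds s.tp ≤ ∫ t in (s.tp - 1)..s.tp, s.PP J ds t := by
        have : ∫ t in (s.tp - 1)..s.tp, (s.D ^ (-s.ep) * s.PP J ds s.tp) ≤
            ∫ t in (s.tp - 1)..s.tp, s.PP J ds t := by
          apply intervalIntegral.integral_mono_on (by linarith) (by simp)
            (hPint _ _ (by linarith) (by linarith))
          intro t ht
          have h := hPP.2.2.2 t ht.1 ht.2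
          have h' := mul_le_mul_of_nonneg_left h (Real.rpow_nonneg hD0.le (-s.ep))
          rw [← mul_assoc (s.D ^ (-s.ep)) (s.D ^ s.ep), ← Real.rpow_add hD0] at h'
          simpa using h'
        simpa using this
      linarith
    calc ∫ t in s.tp..τ, s.Ubar J G t ≤ Ct * Q := i1
      _ ≤ η * (s.D ^ (-s.ep) * s.PP J ds s.tp) := hCQ
      _ ≤ _ := mul_le_mul_of_nonneg_left i2 hη.le

end Pool.Agent.TH981.SD
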