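import Pool.Agent.TH981.SD.Main
import Pool.Agent.TH981.SD.L3
import Pool.Agent.TH981.SD.Cb
import Pool.Agent.TH981.SD.Uc
import Pool.Agent.TH981.SD.L3A
import Pool.Agent.TH981.SD.L3C
import Pool.Agent.TH981.SD.L3D
import Pool.Agent.TH73.J2221
import Pool.Agent.TH443.J2223
import Pool.Agent.TH945.J2225
import Pool.Agent.TH443.J2227
import Pool.Agent.TH443.J2229
import Pool.Agent.TH945.J2231
import Pool.Agent.TH370.J2233
import Pool.Agent.TH494.J2235
import Pool.Agent.TH370.J2237
import Pool.Agent.TH370.J2239
import Pool.Agent.TH175.J2241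
import Pool.Agent.TH73.J2243
import Pool.Agent.TH945.J2245
import Pool.Agent.TH945.J2248
import Pool.Agent.TH902.J2250
import Pool.Agent.TH89.J2252
import Pool.Agent.TH89.J2254
import Pool.Agent.TH346.J2258
import Pool.Agent.TH902.J2259
import Pool.Agent.TH346.J2261
import Pool.Agent.TH830.J2263
import Pool.Agent.TH830.J2265
import Pool.Agent.TH326.J2268
import Pool.Agent.TH326.J2270
import Pool.Agent.TH692.J2271
import Pool.Agent.TH999.J2277
import Pool.Agent.TH576.J2282
import Pool.Agent.TH576.J2283
import Pool.Agent.TH576.J2284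
import Pool.Agent.TH576.J2285
import Pool.Agent.TH443.J2286
import Pool.Agent.TH443.J2287
import Pool.Agent.TH443.J2288
import Pool.Agent.TH830.J2289
import Pool.Agent.TH830.J2290
import Pool.Agent.TH830.J2291
import Pool.Agent.TH576.J2292
import Pool.Agent.TH999.J2293
import Pool.Agent.TH494.J2294
import Pool.Agent.TH576.J2295
import Pool.Agent.TH611.J2296
import Pool.Agent.TH740.J2297
import Pool.Agent.TH175.J2298
import Pool.Agent.TH124.J2299
import Pool.Agent.TH611.J2300
import Pool.Agent.TH576.J2301
import Pool.Agent.TH576.J2302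
import Pool.Agent.TH611.J2303
import Pool.Agent.TH611.J2304
import Pool.Agent.TH576.J2306
import Pool.Agent.TH611.J2307
import Pool.Agent.TH611.J2308

/-!
# Assembly of the SD project (MP_0bba14_pr)
-/

set_option autoImplicit false

namespace Pool.Agent.TH981.SD.Final

open Pool.Agent.TH981.SD Pool.Agent

/-! ## analytic part -/

theorem pos : S_POS := TH73.J2221.pos
theorem pos1 : S_POS1 := TH73.J2221.pos1
theorem yex : S_YEX := TH443.J2223.yex
theorem yf : S_YF := TH945.J2225.yf pos1
theorem tm : S_TM := TH945.J2225.tm yf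
theorem lin : S_LIN := TH443.J2227.lin pos
theorem vex : S_VEX := TH443.J2229.vex lin pos yf
theorem mono : S_MONO := TH945.J2231.mono pos1 yf
theorem early : S_EARLY := TH370.J2233.early pos1 yf tm
theorem exp_ : S_EXP := TH494.J2235.exp_ yf
theorem grow : S_GROW := TH370.J2237.grow exp_ mono tm yf
theorem ratio : S_RATIO := TH370.J2239.ratio pos1 yf tm mono early exp_
theorem hm : S_HM := TH175.J2241.hm yf tm mono early exp_ grow
theorem hk : S_HK := TH73.J2243.hk hm mono yf tm
theorem marks : S_MARKS := TH945.J2245.marks pos yf vex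
theorem low : S_LOW := TH945.J2248.low pos yf
theorem vb : S_VB := TH902.J2250.vb early exp_ tm yf
theorem capm : S_CAPM := TH89.J2252.capm low vb vex lin pos grow tm mono yf
theorem facts : S_FACTS :=
  TH89.J2254.facts yex yf tm lin vex early ratio hk marks capm mono
theorem cb' : S_CB := SD.cb yf tm
theorem vv : S_VV := TH346.J2258.vv cb' mono tm yf
theorem zb : S_ZB := TH902.J2259.zb cb' vv mono tm yf
theorem eb : S_EB := TH346.J2261.eb cb' vv zb tm yf

/-! ## combinatorial part -/

theorem att : S_ATT := TH576.J2282.att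
theorem tw : S_TW := TH576.J2282.tw
theorem br_ : S_BR := TH576.J2283.br_ att
theorem cell : S_CELL := TH576.J2284.cell
theorem img_ : S_IMG := TH576.J2285.img_
theorem hv : S_HV := TH443.J2286.hv
theorem ab : S_AB := TH443.J2286.ab yf
theorem cnt : S_CNT := TH830.J2263.cnt cell img_
theorem wtx : S_WTX := TH830.J2265.wtx cb' vv zb cnt ab vex tm yf
theorem xb : S_XB := TH326.J2268.xb cb' vv zb cnt tm yf
theorem ppb : S_PPB := TH326.J2270.ppb cb' vv tm yf
theorem wtp : S_WTP := TH692.J2271.wtp cb' cnt ab vex yf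
theorem uc' : S_UC := SD.uc ab yf
theorem l3a' : S_L3A := SD.l3a cb' vv ppb uc'
theorem l3b : S_L3B := TH999.J2277.l3b cb' vv eb cnt wtx xb uc' l3a' yf tm
theorem l3c' : S_L3C := SD.l3c cb' vv eb cnt wtx xb ppb wtp tm yf uc'
theorem l3d' : S_L3D := SD.l3d cb' vv eb cnt wtx xb ppb wtp tm yf uc'
theorem l3' : S_L3 := SD.l3 l3a' l3b l3c' l3d' uc' tm
theorem super : S_SUPER := TH175.J2298.super cb' vv zb eb vex yf tm uc'

/-! ## evolution of the functionals -/

theorem evh : S_EVH := TH443.J2287.evh att br_ cell img_ hv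
theorem evol : S_EVOL := TH443.J2288.evol evh
theorem ext_ : S_EXT := TH830.J2289.ext_ att img_
theorem extv : S_EXTV := TH830.J2290.extv att br_ cell img_ hv
theorem step : S_STEP := TH830.J2291.step extv img_ ab tw yf
theorem epart : S_EPART := TH576.J2292.epart extv ab tw yf att
theorem gen : S_GEN := TH999.J2293.gen evol ext_ step epart ab tw yf att
theorem pe : S_PE := TH576.J2301.pe att tw
theorem ub : S_UB := TH494.J2294.ub gen att tw pe
theorem lb1 : S_LB1 := TH576.J2295.lb1 evol ext_ ab tw att yf
theorem lb2 : S_LB2 := TH611.J2296.lb2 ab tw att cnt yf pe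
theorem lb : S_LB := TH740.J2297.lb lb1 lb2 lin ab yf ext_
theorem isof : S_ISOF := TH576.J2302.isof
theorem iso_ : S_ISO := TH611.J2303.iso_ cnt img_
theorem sel : S_SEL := TH611.J2304.sel cnt img_ iso_
theorem main' : S_MAIN := SD.main sel facts l3' super ub lb wtp cnt uc' ab

/-! ## total variation -/

theorem med : S_MED := TH124.J2299.med cell
theorem bd : S_BD := TH611.J2300.bd med tw cnt
theorem law_ : S_LAW := TH576.J2306.law_ pe
theorem tv : S_TV := TH611.J2307.tv pe law_ att tw
theorem result_ : S_RESULT := TH611.J2308.result_ main' bd pe law_ tv att tw isof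

end Pool.Agent.TH981.SD.Final
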