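import Pool.Agent.TH981.SD.Stm

set_option autoImplicit false

open Pool.Agent.TH981.SD
open Finset Set Filter
open scoped BigOperators Topology Classical

namespace Pool.Agent.TH981.SD

theorem hval_cont {n : ℕ} (O : Finset (Fin n)) (a b : ℝ → Fin n → ℝ) (g : ℝ → ℕ → ℝ) (r : ℕ)
    (S : Set ℝ) (ha : ∀ x, ContinuousOn (fun t => a t x) S)
    (hb : ∀ x, ContinuousOn (fun t => b t x) S) (hg : ∀ r, ContinuousOn (fun t => g t r) S) :
    ContinuousOn (fun t => hval O (a t) (b t) (g t) r) S := by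
  unfold hval
  apply continuousOn_finset_sum
  intro T _
  exact ((continuousOn_finset_prod _ (fun x _ => hb x)).mul
    (continuousOn_finset_prod _ (fun x _ => ha x))).mul (hg _)

theorem wt_cont {j n : ℕ} (J : SimpleGraph (Fin j)) (G : SimpleGraph (Fin n))
    (a b : ℝ → Multiset ℕ → ℝ) (Kv : Fin j → ℝ) (Z : ℝ → Fin j → ℝ)
    (Gf : ℝ → Fin j → ℕ → ℕ → ℕ → ℝ) (ψ : Fin j → Option (Fin n)) (S : Set ℝ)
    (ha : ∀ x, ContinuousOn (fun t => a t x) S)
    (hb : ∀ x, ContinuousOn (fun t => b t x) S)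
    (hZ : ∀ i, ContinuousOn (fun t => Z t i) S)
    (hG : ∀ i m d r, ContinuousOn (fun t => Gf t i m d r) S) :
    ContinuousOn (fun t => wt J G (a t) (b t) Kv (Z t) (Gf t) ψ) S := by
  unfold wt
  apply continuousOn_finset_prod
  intro i _
  rcases hψ : ψ i with _ | h
  · simpa using hZ i
  · simp only []
    unfold hubf
    exact hval_cont _ _ _ _ _ _ (fun x => ha _) (fun x => continuousOn_const.mul (hb _))
      (fun r => hG _ _ _ _)

theorem main (h1 : S_SEL) (h2 : S_FACTS) (h3 : S_L3) (h4 : S_SUPER) (h5 : S_UB) (h6 : S_LB)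
    (h7 : S_WTP) (h8 : S_CNT) (h9 : S_UC) (h10 : S_AB) : S_MAIN := by
  intro α N 𝒢 ha0 ha1 hN hne htree hiso
  obtain ⟨j, J, Hs, ψs, hj1, hjN, hJ, hHs, hfull, hsel⟩ := h1 N 𝒢 hN hne htree hiso
  refine ⟨Hs, hHs, fun η hη => ?_⟩
  have hNpos : (0:ℝ) < N := by exact_mod_cast (by omega : 0 < N)
  obtain ⟨e0, he0⟩ : ∃ e0 : ℝ, e0 = (1 - α) / (1000 * (N : ℝ) ^ 2) := ⟨_, rfl⟩
  have he0pos : 0 < e0 := by rw [he0]; have : 0 < 1 - α := by linarith
                             positivity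
  obtain ⟨ep, hep⟩ : ∃ ep : ℝ, ep = e0 * (1 / (16 * (N : ℝ))) ^ N / (1000 * (N : ℝ) ^ 2) :=
    ⟨_, rfl⟩
  have heppos : 0 < ep := by rw [hep]; positivity
  have hpar : ParC α e0 ep N j :=
    ⟨ha0, ha1, hN, hj1, hjN, he0pos, he0.le, heppos, hep.le⟩
  obtain ⟨e1, he1, K0, hK0, hF⟩ := h2 α e0 ep N j hpar
  have hη' : 0 < η / (2:ℝ) ^ (j + 1) := by positivity
  obtain ⟨K1, hK1⟩ := h3 (η / (2:ℝ) ^ (j + 1)) hη' α e0 ep e1 N j hpar he1
  obtain ⟨K2, hK2⟩ := h4 α e0 ep e1 N j hpar he1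
  obtain ⟨K3, hK3⟩ := h7 α e0 ep e1 N j hpar he1
  obtain ⟨K, hK⟩ : ∃ K : ℝ, K = max (max K0 K1) (max K2 K3) := ⟨_, rfl⟩
  have hKK0 : K0 ≤ K := by rw [hK]; exact (le_max_left _ _).trans (le_max_left _ _)
  have hKK1 : K1 ≤ K := by rw [hK]; exact (le_max_right _ _).trans (le_max_left _ _)
  have hKK2 : K2 ≤ K := by rw [hK]; exact (le_max_left _ _).trans (le_max_right _ _)
  have hKK3 : K3 ≤ K := by rw [hK]; exact (le_max_right _ _).trans (le_max_right _ _)
  obtain ⟨z0, hz0, hz0', M, hM⟩ := hF K hKK0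
  have hK2' : 2 ≤ K := hK0.trans hKK0
  refine ⟨j, J, fun i => K ^ (1 - (if i.val = 0 then 0 else e0 * (1 / (16 * (N : ℝ))) ^ i.val)),
    M, z0, hj1, hJ, fun i => Real.rpow_nonneg (by linarith) _, hz0.le, hz0', fun z hz hz1 => ?_⟩
  obtain ⟨s, hsα, hse0, hsep, hsN, hse1, hsK, hsM, hsz, hfacts⟩ := hM z hz hz1
  have hKv : s.Kv = fun i => K ^ (1 - (if i.val = 0 then 0 else
      e0 * (1 / (16 * (N : ℝ))) ^ i.val)) := by
    funext i
    simp only [Sys.Kv, Sys.gam, Sys.ei, hsK, hse0, hsN]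
  rw [← hKv]
  clear hKv hF hM
  have A3 := hK1 s hsα hse0 hsep hsN hse1 (by rw [hsK]; exact hKK1) hfacts
  have A4 := hK2 s hsα hse0 hsep hsN hse1 (by rw [hsK]; exact hKK2) hfacts
  have A7 := hK3 s hsα hse0 hsep hsN hse1 (by rw [hsK]; exact hKK3) hfacts
  clear hK1 hK2 hK3
  subst hsN
  subst hsα
  subst hsz
  subst hsM
  subst hsK
  obtain ⟨Gf', Z', Eh', hSup⟩ := A4 J hJ
  have hcnt := h8 j s.N J Hs hj1 (by omega) hJ (htree Hs hHs)
  have hAdm : Adm J s.N (dv Hs ψs) := (hcnt.2.1 ψs hfull).1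
  obtain ⟨hbig, hG⟩ := A3 J hJ (dv Hs ψs) hAdm
  obtain ⟨-, -, hPPc, -, -⟩ : True ∧ True ∧ _ ∧ True ∧ True := ⟨trivial, trivial,
    (h9 j s hfacts J hJ).2.1 (dv Hs ψs), trivial, trivial⟩
  set I : ℝ := ∫ t in s.tl..s.tp, s.PP J (dv Hs ψs) t with hI
  have h2j : (0:ℝ) < (2:ℝ) ^ (j + 1) := by positivity
  have hL : 0 ≤ s.L := by
    unfold Sys.L LK
    apply div_nonneg (Real.log_nonneg (by linarith)) (by linarith)
  have hNN : (1:ℝ) ≤ (s.N : ℝ) := by exact_mod_cast (by omega : 1 ≤ s.N)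
  have hep12 : ep < 1 / 2 := by
    have h16 : (1 / (16 * (s.N : ℝ))) ^ s.N ≤ 1 := by
      apply pow_le_one₀ (by positivity)
      rw [div_le_one (by positivity)]; linarith
    have he01 : e0 ≤ 1 / 1000 := by
      rw [he0, div_le_div_iff₀ (by positivity) (by norm_num)]
      nlinarith
    rw [hep, div_lt_div_iff₀ (by positivity) (by norm_num)]
    nlinarith [mul_le_mul he01 h16 (by positivity) (by norm_num : (0:ℝ) ≤ 1/1000)]
  have hep' : s.ep = ep := hsep
  have htl : 0 ≤ s.tl := by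
    unfold Sys.tl
    have := hfacts.tMpos
    have h3 : 0 ≤ (1 - 2 * s.ep) * s.L := mul_nonneg (by rw [hep']; linarith) hL
    linarith
  have htltp : s.tl ≤ s.tp := by
    unfold Sys.tl Sys.tp
    have : 0 ≤ s.ep * s.L := mul_nonneg (by rw [hep']; exact heppos.le) hL
    nlinarith
  have htM : s.tM ≤ s.tl := by
    unfold Sys.tl
    have h3 : 0 ≤ (1 - 2 * s.ep) * s.L := mul_nonneg (by rw [hep']; linarith) hL
    linarith
  refine ⟨I / 2 ^ (j + 1), ?_, ?_, ?_⟩
  · rw [le_div_iff₀ h2j]; linarith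
  · -- lower bound
    obtain ⟨m0, hm0⟩ := h6 j s.N s.α s.z J s.Kv (gM s.M) s.Y s.uM Hs ha0 ha1
      (by have := hfacts.z2; linarith) hfacts.z1 hfacts.hY hJ
      (fun i => Real.rpow_nonneg (by linarith) _)
      (fun r => by unfold gM; split_ifs <;> norm_num)
      (fun r => by unfold gM; split_ifs <;> norm_num) hfacts.huM (htree Hs hHs) (by omega)
      ψs hfull.1 s.tl s.tp 1 htl htltp one_pos
    refine ⟨m0, fun m hm => ?_⟩
    refine le_trans ?_ (hm0 m hm)
    have hW := (A7 J Hs hJ (htree Hs hHs) ψs hfull).2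
    have hPPint : IntervalIntegrable (fun t => s.PP J (dv Hs ψs) t) MeasureTheory.volume
        s.tl s.tp := by
      apply ContinuousOn.intervalIntegrable
      rw [Set.uIcc_of_le htltp]
      exact hPPc.1.mono (fun t ht => htl.trans ht.1)
    have hlow : I / 2 ^ j ≤ ∫ t in s.tl..s.tp, wt J Hs (aW s.Y t) (bW s.α s.Y t) s.Kv
        (fun _ => 0) (fun i _ d r => s.uM i d r t) ψs := by
      by_cases hint : IntervalIntegrable (fun t => wt J Hs (aW s.Y t) (bW s.α s.Y t) s.Kv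
        (fun _ => 0) (fun i _ d r => s.uM i d r t) ψs) MeasureTheory.volume s.tl s.tp
      · have : I / 2 ^ j = ∫ t in s.tl..s.tp, (1 / (2:ℝ)) ^ j * s.PP J (dv Hs ψs) t := by
          rw [intervalIntegral.integral_const_mul, ← hI]
          rw [one_div, inv_pow]; field_simp
        rw [this]
        apply intervalIntegral.integral_mono_on htltp (hPPint.const_mul _) hint
        intro t ht
        exact hW t (htM.trans ht.1) ht.2
      · exfalso
        apply hint
        apply ContinuousOn.intervalIntegrable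
        rw [Set.uIcc_of_le htltp]
        have hab := (h10 s.α s.z s.Y ha0 ha1 (by have := hfacts.z2; linarith) hfacts.z1
          hfacts.hY).1
        apply wt_cont
        · intro C t ht
          exact ((hab C t (htl.trans ht.1)).1.continuousWithinAt).mono
            (fun u hu => htl.trans hu.1)
        · intro C t ht
          exact ((hab C t (htl.trans ht.1)).2.1.continuousWithinAt).mono
            (fun u hu => htl.trans hu.1)
        · intro i; exact continuousOn_const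
        · intro i m d r t ht
          exact (((hfacts.huM i).deriv d r t (htl.trans ht.1)).continuousWithinAt).mono
            (fun u hu => htl.trans hu.1)
    have : I / 2 ^ (j + 1) + 1 ≤ I / 2 ^ j := by
      rw [pow_succ]
      have h2 : (0:ℝ) < 2 ^ j := by positivity
      have e1 : I / 2 ^ j = 2 * (I / (2 ^ j * 2)) := by field_simp
      have e2 : 1 ≤ I / (2 ^ j * 2) := by
        rw [le_div_iff₀ (by positivity)]
        rw [pow_succ] at hbig; linarith
      linarith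
    linarith
  · intro G hGm hGn m
    have hyp := hsel G hGm hGn
    have hB := hG G (htree G hGm) hyp
    have hUB := h5 j s.N s.α s.z J s.Kv s.K (gM s.M) s.Y s.Gf Gf' s.Z Z' s.Eh Eh' s.mu
      (fun _ => s.kap) s.x4 s.x3 s.a1 G hSup (htree G hGm) (by omega)
      (η * (I / 2 ^ (j + 1))) ?_ m
    · exact hUB
    · intro τ hτ
      have h := hB τ hτ
      have e : η / 2 ^ (j + 1) * I = η * (I / 2 ^ (j + 1)) := by ring
      rw [e] at h
      exact h

end Pool.Agent.TH981.SD
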