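import Pool.Agent.TH981.SD.Defs

/-!
# Seed distinguishability: list of statements (each is proved in its own file)
-/

set_option autoImplicit false

namespace Pool.Agent.TH981.SD

open Finset Set Filter
open scoped BigOperators Topology Classical

noncomputable section

/-! ## A. Analysis: comparison principles, existence -/

/-- positivity lemma, two indices (right derivatives) -/
def S_POS : Prop := ∀ (α a b P B C : ℝ), 0 < α → α < 1 → a ≤ b → 0 ≤ P → 0 ≤ B → 1 ≤ C →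
  ∀ (W W' p q s : ℕ → ℕ → ℝ → ℝ),
  (∀ d r, ContinuousOn (W d r) (Set.Icc a b)) →
  (∀ d r, ∀ t ∈ Set.Ico a b, HasDerivWithinAt (W d r) (W' d r t) (Set.Ici t) t) →
  (∀ d r, ∀ t ∈ Set.Ico a b,
    p d r t * W (d + 1) r t + q d r t * W (d + 1) (r + 1) t - s d r t * W d r t ≤ W' d r t) →
  (∀ d r, ∀ t ∈ Set.Ico a b, 0 ≤ p d r t ∧ p d r t ≤ P * lam α (d + 1) ∧
    0 ≤ q d r t ∧ q d r t ≤ P * lam α (d + 1) ∧ -P ≤ s d r t) →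
  (∀ d r, 0 ≤ W d r a) →
  (∀ d r, ∀ t ∈ Set.Icc a b, |W d r t| ≤ B * C ^ (d + r)) →
  ∀ d r, ∀ t ∈ Set.Icc a b, 0 ≤ W d r t

/-- positivity lemma, one index (right derivatives) -/
def S_POS1 : Prop := ∀ (α a b P B C : ℝ), 0 < α → α < 1 → a ≤ b → 0 ≤ P → 0 ≤ B → 1 ≤ C →
  ∀ (W W' p s : ℕ → ℝ → ℝ),
  (∀ d, ContinuousOn (W d) (Set.Icc a b)) →
  (∀ d, ∀ t ∈ Set.Ico a b, HasDerivWithinAt (W d) (W' d t) (Set.Ici t) t) →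
  (∀ d, ∀ t ∈ Set.Ico a b, p d t * W (d + 1) t - s d t * W d t ≤ W' d t) →
  (∀ d, ∀ t ∈ Set.Ico a b, 0 ≤ p d t ∧ p d t ≤ P * lam α (d + 1) ∧ -P ≤ s d t) →
  (∀ d, 0 ≤ W d a) →
  (∀ d, ∀ t ∈ Set.Icc a b, |W d t| ≤ B * C ^ d) →
  ∀ d, ∀ t ∈ Set.Icc a b, 0 ≤ W d t

def S_YEX : Prop := ∀ (α z : ℝ), 0 < α → α < 1 → 0 < z → z < 1 → ∃ Y, IsY α z Y

/-- basic facts on `Y` -/
def S_YF : Prop := ∀ (α z : ℝ) (Y : ℕ → ℝ → ℝ), 0 < α → α < 1 → 0 < z → z < 1 → IsY α z Y →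
  (∀ d t, 0 ≤ t → Y (d + 1) t ≤ Y d t) ∧
  (∀ d t, 1 ≤ d → 0 ≤ t → Y d t - Y (d + 1) t ≤ bet α * (1 - Y 1 t)) ∧
  (∀ t, 0 ≤ t → 1 - Y 2 t ≤ (1 + bet α) * (1 - Y 1 t)) ∧
  (∀ t, 0 ≤ t → Y 1 t * (1 - Y 1 t) ≤ m1 Y t ∧ m1 Y t ≤ Y 1 t) ∧
  (∀ t, 0 ≤ t → HasDerivWithinAt (Y 1) (-(m1 Y t)) (Set.Ici 0) t) ∧
  (∀ d, AntitoneOn (Y d) (Set.Ici 0)) ∧
  (∀ d, 1 ≤ d → Tendsto (Y d) atTop (𝓝 0))

/-- the median time -/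
def S_TM : Prop := ∀ (α z : ℝ) (Y : ℕ → ℝ → ℝ), 0 < α → α < 1 → 1 / 2 < z → z < 1 → IsY α z Y →
  (∃ tM, 0 < tM ∧ Y 1 tM = 1 / 2) ∧
  ∀ tM, 0 ≤ tM → Y 1 tM = 1 / 2 →
    Real.log (z / (1 - z)) ≤ (1 + bet α) * tM ∧
    (∀ t, tM ≤ t → Real.exp (-(t - tM)) / 2 ≤ Y 1 t ∧ Y 1 t ≤ Real.exp (-(t - tM))) ∧
    (∀ t, 0 ≤ t → t ≤ tM → Real.exp ((1 + bet α) * (t - tM)) / 2 ≤ 1 - Y 1 t ∧
      1 - Y 1 t ≤ Real.exp (t - tM) ∧ Y 1 t ≤ Real.exp (tM - t) / 2 ∧ 1 / 2 ≤ Y 1 t)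

/-- existence, uniqueness and truncation for the linear systems -/
def S_LIN : Prop := ∀ (α : ℝ) (p q : ℝ → ℝ) (g : ℕ → ℝ), 0 < α → α < 1 →
  ContinuousOn p (Set.Ici 0) → ContinuousOn q (Set.Ici 0) → (∀ t, 0 ≤ t → 0 ≤ p t) →
  (∀ t, 0 ≤ t → 0 ≤ q t) → (∀ r, 0 ≤ g r) → (∀ r, g r ≤ 1) →
  (∃ u, IsLin α p q g u) ∧
  (∀ u u', IsLin α p q g u → IsLin α p q g u' → ∀ d r t, 0 ≤ t → u d r t = u' d r t) ∧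
  (∀ u, IsLin α p q g u → ∃ w : ℕ → ℕ → ℕ → ℝ → ℝ, (∀ Δ, IsCap α p q g Δ (w Δ)) ∧
    (∀ Δ d r t, 0 ≤ t → w Δ d r t ≤ u d r t) ∧
    (∀ d r t, 0 ≤ t → Tendsto (fun Δ => w Δ d r t) atTop (𝓝 (u d r t))))

/-- existence of `V` and comparison `u ≤ V` -/
def S_VEX : Prop := ∀ (α z K : ℝ) (Y : ℕ → ℝ → ℝ), 0 < α → α < 1 → 0 < z → z < 1 → 0 ≤ K →
  IsY α z Y →
  (∃ V, IsV α Y K V) ∧
  (∀ V g u, IsV α Y K V → (∀ r, 0 ≤ g r) → (∀ r, g r ≤ 1) → IsHub α Y K g u →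
    ∀ d r t, 0 ≤ t → u d r t ≤ V d t) ∧
  (∀ g g' u u', (∀ r, 0 ≤ g r) → (∀ r, g r ≤ g' r) → (∀ r, g' r ≤ 1) → IsHub α Y K g u →
    IsHub α Y K g' u' → ∀ d r t, 0 ≤ t → u d r t ≤ u' d r t)

/-- monotonicity while `K y ≥ 1` -/
def S_MONO : Prop := ∀ (α z K : ℝ) (Y V : ℕ → ℝ → ℝ), 0 < α → α < 1 → 0 < z → z < 1 → 1 ≤ K →
  IsY α z Y → IsV α Y K V → ∀ T, 0 ≤ T → 1 ≤ K * Y 1 T →
  ∀ t, 0 ≤ t → t ≤ T → 1 ≤ cc Y K t ∧ ∀ d, 1 ≤ d → V d t ≤ V (d + 1) t ∧ 1 ≤ V d t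

/-- early phase -/
def S_EARLY : Prop := ∀ (α : ℝ), 0 < α → α < 1 → ∃ C1 : ℝ, 0 ≤ C1 ∧ ∀ (K z : ℝ) (Y V : ℕ → ℝ → ℝ)
  (tM : ℝ), 2 ≤ K → 1 / 2 < z → z < 1 → IsY α z Y → IsV α Y K V → 0 ≤ tM → Y 1 tM = 1 / 2 →
  ∀ t, 0 ≤ t → t ≤ tM - Real.log K - C1 → V 1 t ≤ 2 ∧ ∀ d, 1 ≤ d → V (d + 1) t ≤ 2 * V d t

/-- series expansion of `V` after time `a` -/
def S_EXP : Prop := ∀ (α z K a : ℝ) (Y V : ℕ → ℝ → ℝ), 0 < α → α < 1 → 0 < z → z < 1 → 0 ≤ K →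
  0 ≤ a → IsY α z Y → IsV α Y K V → ∃ v : ℕ → ℕ → ℝ → ℝ,
  (∀ d n t, a ≤ t → 0 ≤ v d n t) ∧
  (∀ d t, a ≤ t → HasSum (fun n => v d n t) (V d t)) ∧
  (∀ d t, a ≤ t → v d 0 t = Real.exp (-(lam α d * (t - a))) * V d a) ∧
  (∀ d n t, a ≤ t → v d n t ≤
    (∏ i ∈ Finset.range n, lam α (d + i)) * (∫ s in a..t, cc Y K s) ^ n / (n.factorial : ℝ) *
      V (d + n) a) ∧
  (∀ d n t, a ≤ t →
    (∏ i ∈ Finset.range n, lam α (d + i)) * (∫ s in a..t, cc Y K s) ^ n / (n.factorial : ℝ) *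
      (Real.exp (-(lam α (d + n) * (t - a))) * V (d + n) a) ≤ v d n t) ∧
  ((∀ d, 1 ≤ d → V (d + 1) a ≤ 2 * V d a) → ∀ d n t, 1 ≤ d → a ≤ t →
    lam α d * v (d + 1) n t ≤ 2 * (lam α (d + n) * v d n t)) ∧
  ((∀ d, 1 ≤ d → V d a ≤ V (d + 1) a) → ∀ d n t, 1 ≤ d → a ≤ t →
    Real.exp (-((lam α (d + 1) - lam α d) * (t - a))) * (lam α (d + n) * v d n t) ≤
      lam α d * v (d + 1) n t)

/-- growth up to the median time -/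
def S_GROW : Prop := ∀ (α : ℝ), 0 < α → α < 1 → ∃ c3 : ℝ, 0 < c3 ∧ ∃ K0 : ℝ, 2 ≤ K0 ∧
  ∀ (K z : ℝ) (Y V : ℕ → ℝ → ℝ) (tM : ℝ), K0 ≤ K → 1 / 2 < z → z < 1 → IsY α z Y → IsV α Y K V →
  1 ≤ tM → Y 1 tM = 1 / 2 → Real.exp (c3 * DK α K) ≤ V 1 tM

/-- upper bound for the ratios, all degrees, all times -/
def S_RATIO : Prop := ∀ (α e : ℝ), 0 < α → α < 1 → 0 < e → ∃ K0 : ℝ, 2 ≤ K0 ∧ ∀ K, K0 ≤ K →
  ∃ z0 : ℝ, 1 / 2 < z0 ∧ z0 < 1 ∧ ∀ (z : ℝ) (Y V : ℕ → ℝ → ℝ), z0 < z → z < 1 → IsY α z Y →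
  IsV α Y K V → ∀ d t, 1 ≤ d → 0 ≤ t →
  lam α d * V (d + 1) t ≤ DK α K ^ e * (DK α K ^ α + lam α d) * V d t

/-- lower bound for the ratio at a fixed large degree `m` -/
def S_HM : Prop := ∀ (α e : ℝ) (m : ℕ), 0 < α → α < 1 → 0 < e → e < 1 → 1 ≤ m →
  lam α (m + 1) - lam α m ≤ e → ∃ K0 : ℝ, 2 ≤ K0 ∧ ∀ K, K0 ≤ K →
  ∃ z0 : ℝ, 1 / 2 < z0 ∧ z0 < 1 ∧ ∀ (z : ℝ) (Y V : ℕ → ℝ → ℝ) (tM : ℝ), z0 < z → z < 1 →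
  IsY α z Y → IsV α Y K V → 0 ≤ tM → Y 1 tM = 1 / 2 → ∀ t, tM ≤ t → t ≤ tM + 2 * LK α K →
  DK α K ^ (1 - 4 * e) * Real.exp (-((1 + e) * (t - tM))) * V m t ≤
    lam α m * cc Y K t * V (m + 1) t

/-- lower bounds for the ratios, all small degrees -/
def S_HK : Prop := ∀ (α e : ℝ) (N : ℕ), 0 < α → α < 1 → 0 < e → e < 1 →
  ∃ e1 : ℝ, 0 < e1 ∧ ∃ K0 : ℝ, 2 ≤ K0 ∧ ∀ K, K0 ≤ K →
  ∃ z0 : ℝ, 1 / 2 < z0 ∧ z0 < 1 ∧ ∀ (z : ℝ) (Y V : ℕ → ℝ → ℝ) (tM : ℝ), z0 < z → z < 1 →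
  IsY α z Y → IsV α Y K V → 0 ≤ tM → Y 1 tM = 1 / 2 → ∀ k, 1 ≤ k → k ≤ N →
  (∀ t, tM ≤ t → t ≤ tM + (1 - e) * LK α K →
    DK α K ^ e1 * V k t ≤ lam α k * cc Y K t * V (k + 1) t) ∧
  (∀ t, tM + (1 - e) * LK α K ≤ t →
    2 / 3 * Real.exp (-2 * (t - (tM + (1 - e) * LK α K))) * V k t ≤
      lam α k * cc Y K t * V (k + 1) t)

/-- bound for the mark-restricted hub functions -/
def S_MARKS : Prop := ∀ (α z k K C' a1 : ℝ) (Y V : ℕ → ℝ → ℝ) (u : ℕ → ℕ → ℝ → ℝ), 0 < α → α < 1 →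
  0 < z → z < 1 → 0 ≤ k → k ≤ K → 32 ≤ K → 8 ≤ C' → 0 ≤ a1 → IsY α z Y → IsV α Y k V →
  IsHub α Y k g4 u →
  (∀ t, 0 ≤ t → t ≤ a1 → C' * DK α K * (1 - Y 1 t) ≤ 1) →
  (∀ d t, 1 ≤ d → 0 ≤ t → t ≤ a1 → V (d + 1) t ≤ 2 * V d t) →
  (∀ t, a1 ≤ t → 1 ≤ C' * DK α K * (1 - Y 1 t)) →
  ∀ d r t, 1 ≤ d → 0 ≤ t → u d r t ≤ (1 + (d:ℝ) / DK α K) ^ (4 - r) *
    (min (C' * DK α K * (1 - Y 1 t)) 1) ^ (4 - r) * V d t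

/-- few marks have small weight -/
def S_LOW : Prop := ∀ (α z K : ℝ) (Y : ℕ → ℝ → ℝ) (u : ℕ → ℕ → ℝ → ℝ), 0 < α → α < 1 →
  0 < z → z < 1 → 32 ≤ K → IsY α z Y → IsHub α Y K glow u →
  ∀ d r t, 1 ≤ d → 0 ≤ t → u d r t ≤ 4 * ((1 + 8 * DK α K) * (1 + (d:ℝ) / DK α K)) ^ 3

/-- boundedness of `V` uniformly in `z` (fixed `K`, bounded time after the median time) -/
def S_VB : Prop := ∀ (α K X : ℝ) (N : ℕ), 0 < α → α < 1 → 2 ≤ K → ∃ B z0 : ℝ,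
  1 / 2 < z0 ∧ z0 < 1 ∧ ∀ (z : ℝ) (Y V : ℕ → ℝ → ℝ) (tM : ℝ), z0 < z → z < 1 →
  IsY α z Y → IsV α Y K V → 0 ≤ tM → Y 1 tM = 1 / 2 → ∀ d t, 1 ≤ d → d ≤ N → 0 ≤ t →
  t ≤ tM + X → V d t ≤ B

/-- capped number of marks -/
def S_CAPM : Prop := ∀ (α : ℝ) (N : ℕ), 0 < α → α < 1 → ∃ K0 : ℝ, 2 ≤ K0 ∧ ∀ K, K0 ≤ K →
  ∃ z0 : ℝ, 1 / 2 < z0 ∧ z0 < 1 ∧ ∃ M0 : ℕ, ∀ M, M0 ≤ M →
  ∀ (z : ℝ) (Y V : ℕ → ℝ → ℝ) (u : ℕ → ℕ → ℝ → ℝ) (tM : ℝ), z0 < z → z < 1 →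
  IsY α z Y → IsV α Y K V → IsHub α Y K (gM M) u → 0 ≤ tM → Y 1 tM = 1 / 2 →
  ∀ d r t, 1 ≤ d → d ≤ N → r ≤ N → tM ≤ t → t ≤ tM + 2 * LK α K → V d t / 2 ≤ u d r t

/-- parameter constraints without `K` -/
def ParC (α e0 ep : ℝ) (N j : ℕ) : Prop :=
  0 < α ∧ α < 1 ∧ 3 ≤ N ∧ 1 ≤ j ∧ j ≤ N ∧ 0 < e0 ∧ e0 ≤ (1 - α) / (1000 * (N : ℝ) ^ 2) ∧
  0 < ep ∧ ep ≤ e0 * (1 / (16 * (N : ℝ))) ^ N / (1000 * (N : ℝ) ^ 2)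

/-- existence of systems satisfying all facts -/
def S_FACTS : Prop := ∀ (α e0 ep : ℝ) (N j : ℕ), ParC α e0 ep N j →
  ∃ e1 : ℝ, 0 < e1 ∧ ∃ K0 : ℝ, 2 ≤ K0 ∧ ∀ K, K0 ≤ K →
  ∃ z0 : ℝ, 1 / 2 < z0 ∧ z0 < 1 ∧ ∃ M : ℕ, ∀ z, z0 < z → z < 1 → ∃ s : Sys j,
  s.α = α ∧ s.e0 = e0 ∧ s.ep = ep ∧ s.N = N ∧ s.e1 = e1 ∧ s.K = K ∧ s.M = M ∧ s.z = z ∧ Facts s

/-! ## B. Comparison (all bounds for `K` large depending on the fixed parameters) -/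

/-- for all systems with the given parameters and `K` large -/
def Large (P : (j : ℕ) → Sys j → Prop) : Prop :=
  ∀ (α e0 ep e1 : ℝ) (N j : ℕ), ParC α e0 ep N j → 0 < e1 → ∃ K1 : ℝ, ∀ s : Sys j,
    s.α = α → s.e0 = e0 → s.ep = ep → s.N = N → s.e1 = e1 → K1 ≤ s.K → Facts s → P j s

/-- bounds for `c_i` -/
def S_CB : Prop := Large fun j s =>
  (s.N : ℝ) ≤ s.D ∧ (∀ i, 2 ≤ s.Kv i ∧ s.Kv i ≤ s.K) ∧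
  (∀ i t, s.tM ≤ t → s.Kv i * Real.exp (-(t - s.tM)) / 4 ≤ cc s.Y (s.Kv i) t ∧
    cc s.Y (s.Kv i) t ≤ 2 * s.Kv i * Real.exp (-(t - s.tM)) ∧
    s.Kv i * s.Y 1 t / 2 ≤ cc s.Y (s.Kv i) t) ∧
  (s.K * s.D ^ s.α = s.D) ∧
  (∀ i t, 0 ≤ t → cc s.Y (s.Kv i) t ≤ cc s.Y s.K t ∧
    s.D ^ (-(s.ei i)) * cc s.Y s.K t ≤ cc s.Y (s.Kv i) t ∧ cc s.Y s.K t ≤ 1 + s.K ∧
    0 < cc s.Y (s.Kv i) t)

/-- behaviour of the `V`'s -/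
def S_VV : Prop := Large fun j s =>
  (∀ i t t', 0 ≤ t → t ≤ t' → t' ≤ s.tM + (1 - s.ep) * (s.gam i * s.L) →
    1 ≤ s.V i 1 t ∧ s.V i 1 t ≤ s.V i 1 t') ∧
  (∀ i t t', 0 ≤ t → t ≤ t' → t' ≤ s.tp → s.D ^ (-(2 * s.e0)) * s.V i 1 t ≤ s.V i 1 t') ∧
  (∀ i, i.val = 0 → ∀ t t', s.tM ≤ t → t ≤ t' → t' ≤ s.tm →
    Real.exp ((s.D ^ s.e1 - 1) * (t' - t)) * s.V i 1 t ≤ s.V i 1 t') ∧
  (∀ i k t, 1 ≤ k → k ≤ s.N → s.tp ≤ t →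
    s.V i k t ≤ Real.exp 4 * Real.exp (-(t - s.tp)) * s.V i k s.tp) ∧
  (∀ i k t, 1 ≤ k → k ≤ s.N → s.tp - 1 ≤ t → t ≤ s.tp →
    s.V i k s.tp ≤ Real.exp 11 * s.V i k t) ∧
  (∀ i k t, 1 ≤ k → k ≤ s.N → s.tl ≤ t → t ≤ s.tp →
    s.D ^ (-(2 * s.ei i) - 5 * s.ep) * s.V i k t ≤ cc s.Y (s.Kv i) t * s.V i (k + 1) t ∧
    cc s.Y (s.Kv i) t * s.V i (k + 1) t ≤ s.D ^ (-(s.ei i) + 4 * s.ep) * s.V i k t) ∧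
  (∀ i k t, 1 ≤ k → k ≤ s.N → 0 ≤ t → s.V i (k + 1) t ≤ s.D * s.V i k t)

/-- bounds for `Z` -/
def S_ZB : Prop := Large fun j s =>
  (∀ i t, 0 ≤ t → t ≤ s.tp → s.Z i t ≤ s.D ^ (s.α + 3 * s.e0) * s.V i 1 t) ∧
  (∀ i t, s.tp ≤ t → s.Z i t ≤ s.D ^ (s.α + 4 * s.e0) * s.V i 1 s.tp)

/-- bounds for `Eh` -/
def S_EB : Prop := Large fun j s =>
  (∀ t, 0 ≤ t → t ≤ s.tM → s.Eh t ≤ s.D ^ (s.N + 5) * (1 - s.Y 1 t) * ∏ i, s.V i 1 t) ∧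
  (∀ t, s.tM ≤ t → t ≤ s.tl → s.Eh t ≤ s.D ^ (s.N + 6) * ∏ i, s.V i 1 t) ∧
  (∀ t, s.tl ≤ t → t ≤ s.tp → s.Eh t ≤
    s.D ^ (1 + ((j:ℝ) - 2) * s.α + 10 * s.N * s.e0) * ∏ i, s.V i 1 t) ∧
  (∀ t, s.tp ≤ t → s.Eh t ≤
    s.D ^ (1 + ((j:ℝ) - 2) * s.α + 12 * s.N * s.e0) * ∏ i, s.V i 1 s.tp)

/-- total excess of a partial embedding -/
def eTot {j n : ℕ} (G : SimpleGraph (Fin n)) (ψ : Fin j → Option (Fin n)) : ℕ :=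
  ∑ i, (match ψ i with
    | none => 0
    | some h => ∑ b ∈ offN G (img ψ) h, ((br G h b).card - 1))

/-- degree vector of a partial embedding -/
def dv {j n : ℕ} (G : SimpleGraph (Fin n)) (ψ : Fin j → Option (Fin n)) (i : Fin j) : ℕ :=
  match ψ i with
    | none => 0
    | some h => dg G h

/-- admissible degree vectors -/
def Adm {j : ℕ} (J : SimpleGraph (Fin j)) (N : ℕ) (d : Fin j → ℕ) : Prop :=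
  (∀ i, dg J i ≤ d i ∧ 1 ≤ d i ∧ d i ≤ N) ∧ ∑ i, d i + 2 = N + j

/-- `d` is larger than `d*` lexicographically in the coordinates `1,2,...` -/
def LexGt {j : ℕ} (d ds : Fin j → ℕ) : Prop :=
  ∃ i0 : Fin j, 1 ≤ i0.val ∧ ds i0 < d i0 ∧ ∀ i : Fin j, 1 ≤ i.val → i < i0 → d i = ds i

/-- full total embeddings -/
def FullT {j n : ℕ} (J : SimpleGraph (Fin j)) (G : SimpleGraph (Fin n))
    (ψ : Fin j → Option (Fin n)) : Prop :=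
  ψ ∈ TEs J G ∧ ∀ v, v ∉ img ψ → dg G v = 1

/-- combinatorial counts for embeddings into a tree -/
def S_CNT : Prop := ∀ (j n : ℕ) (J : SimpleGraph (Fin j)) (G : SimpleGraph (Fin n)), 1 ≤ j →
  2 ≤ n → J.IsTree → G.IsTree →
  (∀ ψ ∈ PEs J G, (∀ i h, ψ i = some h → dg G h + miss J ψ i =
      (offN G (img ψ) h).card + dg J i) ∧
    (∑ i ∈ dom ψ, (dg J i - miss J ψ i : ℤ) = 2 * ((dom ψ).card : ℤ) - 2) ∧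
    (dom ψ).Nonempty ∧ (dom ψ).card ≤ n ∧
    (∑ i, (match ψ i with
      | none => 0
      | some h => ∑ b ∈ offN G (img ψ) h, (br G h b).card) + (dom ψ).card = n)) ∧
  (∀ ψ, FullT J G ψ → Adm J n (dv G ψ) ∧ eTot G ψ = 0 ∧
    ∀ i h b, ψ i = some h → b ∈ offN G (img ψ) h → br G h b = {b} ∧ dg G b = 1) ∧
  (∀ v, 1 ≤ dg G v ∧ dg G v ≤ n - 1)

/-- weights of partial embeddings -/
def S_WTX : Prop := Large fun j s => ∀ (J : SimpleGraph (Fin j)) (G : SimpleGraph (Fin s.N)),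
  J.IsTree → G.IsTree → ∀ ψ ∈ PEs J G,
  (∀ t, s.tM ≤ t → wt J G (aW s.Y t) (bW s.α s.Y t) s.Kv (fun i => s.Z i t)
    (fun i m d r => s.Gf i m d r t) ψ ≤
    (2:ℝ) ^ ((j + 4) * j) * (6 * (s.N:ℝ)) ^ s.N * s.Xp G ψ t) ∧
  (∀ t, 0 ≤ t → t ≤ s.tM → wt J G (aW s.Y t) (bW s.α s.Y t) s.Kv (fun i => s.Z i t)
    (fun i m d r => s.Gf i m d r t) ψ ≤
    s.D ^ (6 * s.N ^ 2) * (1 - s.Y 1 t) * ∏ i, s.V i 1 t)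

/-- bounds for `Xp` -/
def S_XB : Prop := Large fun j s => ∀ (J : SimpleGraph (Fin j)) (G : SimpleGraph (Fin s.N)),
  J.IsTree → G.IsTree → ∀ ψ ∈ PEs J G,
  (∀ t, s.tM ≤ t → t ≤ s.tl → s.Xp G ψ t ≤ s.D ^ (5 * s.N ^ 2) * ∏ i, s.V i 1 t) ∧
  (1 ≤ eTot G ψ → ∀ t, s.tl ≤ t → t ≤ s.tp → s.Xp G ψ t ≤ s.D ^ (-(1:ℝ) / 2) * s.Bt t) ∧
  (1 ≤ eTot G ψ → ∀ t, s.tp ≤ t → s.Xp G ψ t ≤
    s.D ^ (-(1:ℝ) / 4) * Real.exp (-(t - s.tp)) * s.Bt s.tp)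

/-- bounds for `PP` -/
def S_PPB : Prop := Large fun j s => ∀ (J : SimpleGraph (Fin j)), J.IsTree →
  (∀ d, Adm J s.N d →
    (∀ t, s.tl ≤ t → t ≤ s.tp → s.D ^ (-(3 * (s.N:ℝ) * s.e0)) * s.Bt t ≤ s.PP J d t ∧
      s.D ^ (-(2:ℝ)) * ∏ i, s.V i 1 t ≤ s.PP J d t) ∧
    (∀ t, s.tM ≤ t → t ≤ s.tl → s.PP J d t ≤ s.D ^ (5 * s.N ^ 2) * ∏ i, s.V i 1 t) ∧
    (∀ t, s.tp ≤ t → s.PP J d t ≤ s.D ^ s.ep * Real.exp (-(t - s.tp)) * s.PP J d s.tp) ∧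
    (∀ t, s.tp - 1 ≤ t → t ≤ s.tp → s.PP J d s.tp ≤ s.D ^ s.ep * s.PP J d t)) ∧
  (∀ d ds, Adm J s.N d → Adm J s.N ds → LexGt d ds → ∀ t, s.tl ≤ t → t ≤ s.tp →
    s.PP J d t ≤ s.D ^ (-(s.e0 * (1 / (16 * (s.N:ℝ))) ^ s.N / 2)) * s.PP J ds t)

/-- weights of full total embeddings -/
def S_WTP : Prop := Large fun j s => ∀ (J : SimpleGraph (Fin j)) (G : SimpleGraph (Fin s.N)),
  J.IsTree → G.IsTree → ∀ ψ, FullT J G ψ →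
  (∀ t, 0 ≤ t → wt J G (aW s.Y t) (bW s.α s.Y t) s.Kv (fun i => s.Z i t)
    (fun i m d r => s.Gf i m d r t) ψ ≤ s.PP J (dv G ψ) t) ∧
  (∀ t, s.tM ≤ t → t ≤ s.tp → (1 / (2:ℝ)) ^ j * s.PP J (dv G ψ) t ≤
    wt J G (aW s.Y t) (bW s.α s.Y t) s.Kv (fun _ => 0) (fun i _ d r => s.uM i d r t) ψ)

/-- continuity and nonnegativity -/
def S_UC : Prop := ∀ (j : ℕ) (s : Sys j), Facts s → ∀ (J : SimpleGraph (Fin j)), J.IsTree →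
  (∀ (n : ℕ) (G : SimpleGraph (Fin n)), 2 ≤ n → G.IsTree →
    ContinuousOn (fun t => s.Ubar J G t) (Set.Ici 0) ∧ ∀ t, 0 ≤ t → 0 ≤ s.Ubar J G t) ∧
  (∀ d : Fin j → ℕ, ContinuousOn (fun t => s.PP J d t) (Set.Ici 0) ∧
    ∀ t, 0 ≤ t → 0 ≤ s.PP J d t) ∧
  (∀ i k, ContinuousOn (s.V i k) (Set.Ici 0)) ∧ ContinuousOn (s.Y 1) (Set.Ici 0)

/-- the main integral is huge -/
def S_L3A : Prop := ∀ p : ℕ, Large fun j s => ∀ (J : SimpleGraph (Fin j)), J.IsTree →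
  ∀ ds, Adm J s.N ds → (2:ℝ) ^ (j + 1) ≤ (∫ t in s.tl..s.tp, s.PP J ds t) ∧
    s.D ^ p * ∏ i, s.V i 1 s.tl ≤ ∫ t in s.tl..s.tp, s.PP J ds t

/-- left region -/
def S_L3B : Prop := ∀ η : ℝ, 0 < η → Large fun j s => ∀ (J : SimpleGraph (Fin j)), J.IsTree →
  ∀ ds, Adm J s.N ds → ∀ G : SimpleGraph (Fin s.N), G.IsTree →
    ∀ τ, 0 ≤ τ → τ ≤ s.tl →
      ∫ t in (0:ℝ)..τ, s.Ubar J G t ≤ η * ∫ t in s.tl..s.tp, s.PP J ds t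

/-- middle region, pointwise -/
def S_L3C : Prop := ∀ η : ℝ, 0 < η → Large fun j s => ∀ (J : SimpleGraph (Fin j)), J.IsTree →
  ∀ ds, Adm J s.N ds → ∀ G : SimpleGraph (Fin s.N), G.IsTree →
    (∀ ψ ∈ PEs J G, 1 ≤ eTot G ψ ∨ (FullT J G ψ ∧ LexGt (dv G ψ) ds)) →
    ∀ t, s.tl ≤ t → t ≤ s.tp → s.Ubar J G t ≤ η * s.PP J ds t

/-- right region -/
def S_L3D : Prop := ∀ η : ℝ, 0 < η → Large fun j s => ∀ (J : SimpleGraph (Fin j)), J.IsTree →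
  ∀ ds, Adm J s.N ds → ∀ G : SimpleGraph (Fin s.N), G.IsTree →
    (∀ ψ ∈ PEs J G, 1 ≤ eTot G ψ ∨ (FullT J G ψ ∧ LexGt (dv G ψ) ds)) →
    (∀ t, s.tp ≤ t → s.Ubar J G t ≤ η * Real.exp (-(t - s.tp)) * s.PP J ds s.tp) ∧
    (∀ τ, s.tp ≤ τ → ∫ t in s.tp..τ, s.Ubar J G t ≤ η * ∫ t in s.tl..s.tp, s.PP J ds t)

/-- the comparison -/
def S_L3 : Prop := ∀ η : ℝ, 0 < η → Large fun j s => ∀ (J : SimpleGraph (Fin j)), J.IsTree →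
  ∀ ds, Adm J s.N ds → (2:ℝ) ^ (j + 1) ≤ ∫ t in s.tl..s.tp, s.PP J ds t ∧
  ∀ G : SimpleGraph (Fin s.N), G.IsTree →
    (∀ ψ ∈ PEs J G, 1 ≤ eTot G ψ ∨ (FullT J G ψ ∧ LexGt (dv G ψ) ds)) →
    ∀ τ, 0 ≤ τ → ∫ t in (0:ℝ)..τ, s.Ubar J G t ≤ η * ∫ t in s.tl..s.tp, s.PP J ds t

/-! ## C. Combinatorics: evolution of the pattern functionals -/

def liftψ {j n : ℕ} (ψ : Fin j → Option (Fin n)) : Fin j → Option (Fin (n + 1)) :=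
  fun i => (ψ i).map Fin.castSucc

def extψ {j n : ℕ} (ψ : Fin j → Option (Fin n)) (l : Fin j) : Fin j → Option (Fin (n + 1)) :=
  Function.update (liftψ ψ) l (some (Fin.last n))

def sing {j : ℕ} (n : ℕ) (l : Fin j) : Fin j → Option (Fin (n + 1)) :=
  fun i => if i = l then some (Fin.last n) else none

/-- basic facts on attachment -/
def S_ATT : Prop := ∀ (n : ℕ) (G : SimpleGraph (Fin n)) (v : Fin n), G.IsTree →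
  (attach G v).IsTree ∧
  (∀ x y : Fin n, (attach G v).Adj x.castSucc y.castSucc ↔ G.Adj x y) ∧
  (∀ x : Fin n, (attach G v).Adj (Fin.last n) x.castSucc ↔ x = v) ∧
  (∀ x y : Fin n, (attach G v).dist x.castSucc y.castSucc = G.dist x y) ∧
  (∀ y : Fin n, (attach G v).dist (Fin.last n) y.castSucc = G.dist v y + 1) ∧
  (∀ w : Fin n, dg (attach G v) w.castSucc = dg G w + if w = v then 1 else 0) ∧
  dg (attach G v) (Fin.last n) = 1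

/-- weights of trees -/
def S_TW : Prop := ∀ (α : ℝ) (n : ℕ) (G : SimpleGraph (Fin n)), 0 < α → α < 1 → 2 ≤ n →
  G.IsTree → (∀ v, 1 ≤ dg G v) ∧ ∑ v, dg G v = 2 * (n - 1) ∧ (n:ℝ) ≤ totW α G ∧
  totW α G ≤ 2 * n

/-- branches under attachment -/
def S_BR : Prop := ∀ (n : ℕ) (G : SimpleGraph (Fin n)) (v : Fin n), G.IsTree →
  (∀ h b, G.Adj h b → v ∈ br G h b →
    degs (attach G v) (br (attach G v) h.castSucc b.castSucc) =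
      (dg G v + 1) ::ₘ 1 ::ₘ (degs G (br G h b)).erase (dg G v)) ∧
  (∀ h b, G.Adj h b → v ∉ br G h b →
    degs (attach G v) (br (attach G v) h.castSucc b.castSucc) = degs G (br G h b)) ∧
  degs (attach G v) (br (attach G v) v.castSucc (Fin.last n)) = {1} ∧
  degs (attach G v) (br (attach G v) (Fin.last n) v.castSucc) =
    (dg G v + 1) ::ₘ (degs G Finset.univ).erase (dg G v)

/-- cells of a connected set of vertices -/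
def S_CELL : Prop := ∀ (n : ℕ) (G : SimpleGraph (Fin n)) (I : Finset (Fin n)), G.IsTree →
  (G.induce (I : Set (Fin n))).Connected →
  (∀ v, v ∉ I → ∃! p : Fin n × Fin n, p.1 ∈ I ∧ p.2 ∈ offN G I p.1 ∧ v ∈ br G p.1 p.2) ∧
  (∀ v ∈ I, ∀ h ∈ I, ∀ b ∈ offN G I h, v ∉ br G h b)

/-- images of partial embeddings are connected, and adjacency in the image is that of `J` -/
def S_IMG : Prop := ∀ (j n : ℕ) (J : SimpleGraph (Fin j)) (G : SimpleGraph (Fin n))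
  (ψ : Fin j → Option (Fin n)), J.IsTree → G.IsTree → PE J G ψ →
  (G.induce ((img ψ : Finset (Fin n)) : Set (Fin n))).Connected ∧
  (∀ i i' v v', ψ i = some v → ψ i' = some v' → (G.Adj v v' ↔ J.Adj i i')) ∧
  (∀ l, ψ l = none → ∀ i i', J.Adj i l → J.Adj i' l → ψ i ≠ none → ψ i' ≠ none → i = i')

/-- `hval` under insertion of a branch -/
def S_HV : Prop := ∀ (n : ℕ) (O : Finset (Fin n)) (a b : Fin n → ℝ) (g : ℕ → ℝ) (r : ℕ)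
  (x : Fin n), x ∉ O →
  hval (insert x O) a b g r = a x * hval O a b g r + b x * hval O a b g (r + 1)

/-- the operator on branch weights -/
def Lop (α : ℝ) (a : Multiset ℕ → ℝ) (C : Multiset ℕ) : ℝ :=
  (C.map (fun d => lam α d * (a ((d + 1) ::ₘ 1 ::ₘ C.erase d) - a C))).sum

/-- branch weights solve the evolution equation -/
def S_AB : Prop := ∀ (α z : ℝ) (Y : ℕ → ℝ → ℝ), 0 < α → α < 1 → 0 < z → z < 1 → IsY α z Y →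
  (∀ (C : Multiset ℕ) t, 0 ≤ t →
    HasDerivWithinAt (fun t => aW Y t C) (Lop α (aW Y t) C) (Set.Ici 0) t ∧
    HasDerivWithinAt (fun t => bW α Y t C) (Lop α (bW α Y t) C) (Set.Ici 0) t ∧
    0 < aW Y t C ∧ 0 ≤ bW α Y t C ∧ bW α Y t C ≤ aW Y t C * (C.map (lam α)).sum ∧
    ((∀ d ∈ C, 1 ≤ d) → aW Y t C ≤ Y 1 t ^ (Multiset.card C)) ∧
    ((∀ d ∈ C, 1 ≤ d) → bW α Y t C ≤ (1 + bet α) * (C.map (lam α)).sum * (1 - Y 1 t)) ∧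
    aW Y t {1} = Y 1 t ∧ bW α Y t {1} = m1 Y t) ∧
  (∀ C : Multiset ℕ, aW Y 0 C = z ^ (Multiset.card C) ∧
    bW α Y 0 C = z ^ (Multiset.card C) * (C.map (fun d => lam α d * (1 - z))).sum)

/-- the factor of `i` -/
def fac {j n : ℕ} (J : SimpleGraph (Fin j)) (G : SimpleGraph (Fin n)) (a b : Multiset ℕ → ℝ)
    (Kv Z : Fin j → ℝ) (Gf : Fin j → ℕ → ℕ → ℕ → ℝ) (ψ : Fin j → Option (Fin n)) (i : Fin j) : ℝ :=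
  match ψ i with
    | none => Z i
    | some h => hubf J G a b Kv Gf ψ i h

/-- the defect of `i` -/
def dfac {j n : ℕ} (α : ℝ) (J : SimpleGraph (Fin j)) (G : SimpleGraph (Fin n))
    (a b : Multiset ℕ → ℝ) (Kv Z' : Fin j → ℝ) (Gf Gf' : Fin j → ℕ → ℕ → ℕ → ℝ)
    (ψ : Fin j → Option (Fin n)) (i : Fin j) : ℝ :=
  match ψ i with
    | none => Z' i
    | some h => hubf J G a b Kv (fun i m d r => Gf' i m d r - lam α d *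
        (a {1} * Gf i m (d + 1) r + Kv i * b {1} * Gf i m (d + 1) (r + 1) - Gf i m d r)) ψ i h

/-- evolution identity for one hub, and locality -/
def S_EVH : Prop := ∀ (α : ℝ) (j n : ℕ) (J : SimpleGraph (Fin j)) (G : SimpleGraph (Fin n))
  (ψ : Fin j → Option (Fin n)), J.IsTree → G.IsTree → 2 ≤ n → PE J G ψ →
  (∀ (a b : ℝ → Multiset ℕ → ℝ) (Kv : Fin j → ℝ)
    (Gf : Fin j → ℕ → ℕ → ℕ → ℝ → ℝ) (Gf' : Fin j → ℕ → ℕ → ℕ → ℝ) (S : Set ℝ) (t0 : ℝ),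
    (∀ C, HasDerivWithinAt (fun t => a t C) (Lop α (a t0) C) S t0) →
    (∀ C, HasDerivWithinAt (fun t => b t C) (Lop α (b t0) C) S t0) →
    (∀ i m d r, HasDerivWithinAt (Gf i m d r) (Gf' i m d r) S t0) →
    ∀ i h, ψ i = some h →
    HasDerivWithinAt (fun t => hubf J G (a t) (b t) Kv (fun i m d r => Gf i m d r t) ψ i h)
      (∑ v, lam α (dg G v) * (hubf J (attach G v) (a t0) (b t0) Kv
          (fun i m d r => Gf i m d r t0) (liftψ ψ) i h.castSucc -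
        hubf J G (a t0) (b t0) Kv (fun i m d r => Gf i m d r t0) ψ i h) +
      hubf J G (a t0) (b t0) Kv (fun i m d r => Gf' i m d r - lam α d *
        (a t0 {1} * Gf i m (d + 1) r t0 + Kv i * b t0 {1} * Gf i m (d + 1) (r + 1) t0 -
          Gf i m d r t0)) ψ i h) S t0) ∧
  (∀ v : Fin n, ∃ i0 : Fin j, ∀ i h, i ≠ i0 → ψ i = some h → ∀ (a b : Multiset ℕ → ℝ)
    (Kv : Fin j → ℝ) (Gf : Fin j → ℕ → ℕ → ℕ → ℝ),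
    hubf J (attach G v) a b Kv Gf (liftψ ψ) i h.castSucc = hubf J G a b Kv Gf ψ i h)

/-- evolution identity for a fixed embedding -/
def S_EVOL : Prop := ∀ (α : ℝ) (j n : ℕ) (J : SimpleGraph (Fin j)) (G : SimpleGraph (Fin n))
  (ψ : Fin j → Option (Fin n)) (a b : ℝ → Multiset ℕ → ℝ) (Kv : Fin j → ℝ) (Z : Fin j → ℝ → ℝ)
  (Z' : Fin j → ℝ) (Gf : Fin j → ℕ → ℕ → ℕ → ℝ → ℝ) (Gf' : Fin j → ℕ → ℕ → ℕ → ℝ)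
  (S : Set ℝ) (t0 : ℝ), J.IsTree → G.IsTree → 2 ≤ n → PE J G ψ →
  (∀ C, HasDerivWithinAt (fun t => a t C) (Lop α (a t0) C) S t0) →
  (∀ C, HasDerivWithinAt (fun t => b t C) (Lop α (b t0) C) S t0) →
  (∀ i, HasDerivWithinAt (Z i) (Z' i) S t0) →
  (∀ i m d r, HasDerivWithinAt (Gf i m d r) (Gf' i m d r) S t0) →
  HasDerivWithinAt (fun t => wt J G (a t) (b t) Kv (fun i => Z i t)
      (fun i m d r => Gf i m d r t) ψ)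
    (∑ v, lam α (dg G v) * (wt J (attach G v) (a t0) (b t0) Kv (fun i => Z i t0)
        (fun i m d r => Gf i m d r t0) (liftψ ψ) -
      wt J G (a t0) (b t0) Kv (fun i => Z i t0) (fun i m d r => Gf i m d r t0) ψ) +
    ∑ i, dfac α J G (a t0) (b t0) Kv Z' (fun i m d r => Gf i m d r t0) Gf' ψ i *
      ∏ i' ∈ Finset.univ.erase i, fac J G (a t0) (b t0) Kv (fun i => Z i t0)
        (fun i m d r => Gf i m d r t0) ψ i') S t0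

/-- decomposition of the sum over partial embeddings into `G + v` -/
def S_EXT : Prop := ∀ (j n : ℕ) (J : SimpleGraph (Fin j)) (G : SimpleGraph (Fin n)) (v : Fin n)
  (F : (Fin j → Option (Fin (n + 1))) → ℝ), J.IsTree → G.IsTree →
  (∑ ψ ∈ PEs J (attach G v), F ψ = ∑ ψ ∈ PEs J G, F (liftψ ψ) +
    ∑ ψ ∈ PEs J G, ∑ l, (if ψ l = none ∧ ∃ i, J.Adj i l ∧ ψ i = some v then F (extψ ψ l) else 0) +
    ∑ w, F (sing n w)) ∧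
  (∀ ψ ∈ TEs J G, liftψ ψ ∈ TEs J (attach G v))

/-- values at the extensions -/
def S_EXTV : Prop := ∀ (j n : ℕ) (J : SimpleGraph (Fin j)) (G : SimpleGraph (Fin n)) (v : Fin n)
  (a b : Multiset ℕ → ℝ) (Kv Z : Fin j → ℝ) (Gf : Fin j → ℕ → ℕ → ℕ → ℝ), J.IsTree → G.IsTree →
  (∀ ψ ∈ PEs J G, ∀ i l, ψ l = none → J.Adj i l → ψ i = some v →
    wt J (attach G v) a b Kv Z Gf (extψ ψ l) = Gf l (dg J l - 1) 1 0 *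
      hval (offN G (img ψ) v) (fun x => a (degs G (br G v x)))
        (fun x => Kv i * b (degs G (br G v x)))
        (fun r => Gf i (miss J ψ i - 1) (dg G v + 1) r) 0 *
      ∏ i' ∈ (Finset.univ.erase i).erase l, fac J G a b Kv Z Gf ψ i') ∧
  (∀ w, wt J (attach G v) a b Kv Z Gf (sing n w) =
    (a ((dg G v + 1) ::ₘ (degs G Finset.univ).erase (dg G v)) * Gf w (dg J w) 1 0 +
      Kv w * b ((dg G v + 1) ::ₘ (degs G Finset.univ).erase (dg G v)) * Gf w (dg J w) 1 1) *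
    ∏ l ∈ Finset.univ.erase w, Z l)

/-- supersolution data -/
structure Super {j : ℕ} (α z : ℝ) (J : SimpleGraph (Fin j)) (Kv : Fin j → ℝ) (Km : ℝ) (g : ℕ → ℝ)
    (Y : ℕ → ℝ → ℝ) (Gf Gf' : Fin j → ℕ → ℕ → ℕ → ℝ → ℝ) (Z Z' : Fin j → ℝ → ℝ)
    (Eh Eh' : ℝ → ℝ) (mu kap : ℝ → ℝ) (x4 x3 : Fin j → ℝ → ℝ) (a1 : ℝ) : Prop where
  α0 : 0 < α
  α1 : α < 1
  z0 : 0 < z
  z1 : z < 1
  hY : IsY α z Y
  hJ : J.IsTree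
  Knn : ∀ i, 0 ≤ Kv i
  KKm : ∀ i, Kv i ≤ Km
  gnn : ∀ r, 0 ≤ g r
  mnn : ∀ t, 0 ≤ t → 0 ≤ mu t
  knn : ∀ t, 0 ≤ t → 0 ≤ kap t
  Gcont : ∀ i m d r, ContinuousOn (Gf i m d r) (Set.Ici 0)
  Gnn : ∀ i m d r t, 0 ≤ t → 0 ≤ Gf i m d r t
  Gder : ∀ i m d r t, 0 ≤ t → t ≠ a1 →
    HasDerivWithinAt (Gf i m d r) (Gf' i m d r t) (Set.Ici 0) t
  Gineq : ∀ i m d r t, m ≤ j → 1 ≤ d → 0 ≤ t → t ≠ a1 →
    lam α d * (Y 1 t * Gf i m (d + 1) r t + Kv i * m1 Y t * Gf i m (d + 1) (r + 1) t -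
      Gf i m d r t) - (if m = 0 then 0 else mu t * Gf i m d r t) ≤ Gf' i m d r t
  Gbirth : ∀ i m d r t, m + 1 ≤ j → 1 ≤ d → 0 ≤ t →
    lam α d * Gf i m (d + 1) r t ≤ kap t * Gf i (m + 1) d r t
  Ginit : ∀ i d r, 1 ≤ d → g r ≤ Gf i 0 d r 0
  Gx4 : ∀ i m t, m ≤ j → 0 ≤ t → Gf i m 1 0 t ≤ x4 i t
  Gx3 : ∀ i m t, m ≤ j → 0 ≤ t → Gf i m 1 0 t ≤ x3 i t ∧ Gf i m 1 1 t ≤ x3 i t
  Znn : ∀ i t, 0 ≤ t → 0 ≤ Z i t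
  Zder : ∀ i t, 0 ≤ t → HasDerivWithinAt (Z i) (Z' i t) (Set.Ici 0) t
  Zineq : ∀ i t, 0 ≤ t → mu t * Z i t + kap t * x4 i t ≤ Z' i t
  Enn : ∀ t, 0 ≤ t → 0 ≤ Eh t
  Eder : ∀ t, 0 ≤ t → HasDerivWithinAt Eh (Eh' t) (Set.Ici 0) t
  Eineq : ∀ t, 0 ≤ t → (1 + Km) * (32 / (1 - Y 1 t) ^ 2) *
    (∑ w, x3 w t * ∏ l ∈ Finset.univ.erase w, Z l t) ≤ Eh' t
  Glim : ∀ i m d r, m ≤ j → 1 ≤ d → Tendsto (Gf i m d r) atTop (𝓝 0)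
  Zbd : ∀ i, ∃ B, ∀ t, 0 ≤ t → Z i t ≤ B
  Ebd : ∃ B, ∀ t, 0 ≤ t → Eh t ≤ B

/-- the supersolution functional -/
def Ub {j : ℕ} (α : ℝ) (J : SimpleGraph (Fin j)) (Kv : Fin j → ℝ) (Y : ℕ → ℝ → ℝ)
    (Gf : Fin j → ℕ → ℕ → ℕ → ℝ → ℝ) (Z : Fin j → ℝ → ℝ) (Eh : ℝ → ℝ) {n : ℕ}
    (G : SimpleGraph (Fin n)) (t : ℝ) : ℝ :=
  (∑ ψ ∈ PEs J G, wt J G (aW Y t) (bW α Y t) Kv (fun i => Z i t)
    (fun i m d r => Gf i m d r t) ψ) + Real.sqrt (∏ v, Y (dg G v) t) * Eh t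

/-- per-embedding inequality: the derivative dominates the old and the extended embeddings -/
def S_STEP : Prop := ∀ (j n : ℕ) (α z : ℝ) (J : SimpleGraph (Fin j)) (Kv : Fin j → ℝ) (Km : ℝ)
  (g : ℕ → ℝ) (Y : ℕ → ℝ → ℝ) (Gf Gf' : Fin j → ℕ → ℕ → ℕ → ℝ → ℝ) (Z Z' : Fin j → ℝ → ℝ)
  (Eh Eh' : ℝ → ℝ) (mu kap : ℝ → ℝ) (x4 x3 : Fin j → ℝ → ℝ) (a1 : ℝ) (G : SimpleGraph (Fin n)),
  Super α z J Kv Km g Y Gf Gf' Z Z' Eh Eh' mu kap x4 x3 a1 → G.IsTree → 2 ≤ n →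
  ∀ ψ ∈ PEs J G, ∀ t, 0 ≤ t → t ≠ a1 →
  ∑ v, lam α (dg G v) * (∑ l, (if ψ l = none ∧ ∃ i, J.Adj i l ∧ ψ i = some v then
      wt J (attach G v) (aW Y t) (bW α Y t) Kv (fun i => Z i t)
        (fun i m d r => Gf i m d r t) (extψ ψ l) else 0)) ≤
    ∑ i, dfac α J G (aW Y t) (bW α Y t) Kv (fun i => Z' i t) (fun i m d r => Gf i m d r t)
        (fun i m d r => Gf' i m d r t) ψ i *
      ∏ i' ∈ Finset.univ.erase i, fac J G (aW Y t) (bW α Y t) Kv (fun i => Z i t)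
        (fun i m d r => Gf i m d r t) ψ i'

/-- the single-vertex embeddings are dominated by the `E` term -/
def S_EPART : Prop := ∀ (j n : ℕ) (α z : ℝ) (J : SimpleGraph (Fin j)) (Kv : Fin j → ℝ) (Km : ℝ)
  (g : ℕ → ℝ) (Y : ℕ → ℝ → ℝ) (Gf Gf' : Fin j → ℕ → ℕ → ℕ → ℝ → ℝ) (Z Z' : Fin j → ℝ → ℝ)
  (Eh Eh' : ℝ → ℝ) (mu kap : ℝ → ℝ) (x4 x3 : Fin j → ℝ → ℝ) (a1 : ℝ) (G : SimpleGraph (Fin n)),
  Super α z J Kv Km g Y Gf Gf' Z Z' Eh Eh' mu kap x4 x3 a1 → G.IsTree → 2 ≤ n →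
  ∀ t, 0 ≤ t → ∃ Ed, HasDerivWithinAt (fun t => Real.sqrt (∏ v, Y (dg G v) t) * Eh t) Ed
      (Set.Ici 0) t ∧
    ∑ v, lam α (dg G v) * (Real.sqrt (∏ u, Y (dg (attach G v) u) t) * Eh t -
      Real.sqrt (∏ u, Y (dg G u) t) * Eh t) +
    ∑ v, lam α (dg G v) * ∑ w, wt J (attach G v) (aW Y t) (bW α Y t) Kv (fun i => Z i t)
        (fun i m d r => Gf i m d r t) (sing n w) ≤ Ed

/-- differential inequality for the supersolution -/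
def S_GEN : Prop := ∀ (j n : ℕ) (α z : ℝ) (J : SimpleGraph (Fin j)) (Kv : Fin j → ℝ) (Km : ℝ)
  (g : ℕ → ℝ) (Y : ℕ → ℝ → ℝ) (Gf Gf' : Fin j → ℕ → ℕ → ℕ → ℝ → ℝ) (Z Z' : Fin j → ℝ → ℝ)
  (Eh Eh' : ℝ → ℝ) (mu kap : ℝ → ℝ) (x4 x3 : Fin j → ℝ → ℝ) (a1 : ℝ) (G : SimpleGraph (Fin n)),
  Super α z J Kv Km g Y Gf Gf' Z Z' Eh Eh' mu kap x4 x3 a1 → G.IsTree → 2 ≤ n →
  ContinuousOn (Ub α J Kv Y Gf Z Eh G) (Set.Ici 0) ∧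
  (∀ t, 0 ≤ t → 0 ≤ Ub α J Kv Y Gf Z Eh G t) ∧
  (∀ t, 0 ≤ t → t ≠ a1 → ∃ Ud, HasDerivWithinAt (Ub α J Kv Y Gf Z Eh G) Ud (Set.Ici 0) t ∧
    ∑ v, lam α (dg G v) * (Ub α J Kv Y Gf Z Eh (attach G v) t - Ub α J Kv Y Gf Z Eh G t) ≤ Ud) ∧
  fz α z J Kv g n G ≤ Ub α J Kv Y Gf Z Eh G 0 ∧
  Tendsto (Ub α J Kv Y Gf Z Eh G) atTop (𝓝 0)

/-- upper bound for the pattern functional -/
def S_UB : Prop := ∀ (j n : ℕ) (α z : ℝ) (J : SimpleGraph (Fin j)) (Kv : Fin j → ℝ) (Km : ℝ)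
  (g : ℕ → ℝ) (Y : ℕ → ℝ → ℝ) (Gf Gf' : Fin j → ℕ → ℕ → ℕ → ℝ → ℝ) (Z Z' : Fin j → ℝ → ℝ)
  (Eh Eh' : ℝ → ℝ) (mu kap : ℝ → ℝ) (x4 x3 : Fin j → ℝ → ℝ) (a1 : ℝ) (G : SimpleGraph (Fin n)),
  Super α z J Kv Km g Y Gf Gf' Z Z' Eh Eh' mu kap x4 x3 a1 → G.IsTree → 2 ≤ n →
  ∀ B : ℝ, (∀ τ, 0 ≤ τ → ∫ t in (0:ℝ)..τ, Ub α J Kv Y Gf Z Eh G t ≤ B) →
  ∀ m, psum α (fR α z J Kv g) m n G ≤ B

/-- the capped functional -/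
def Fcap {j : ℕ} (α : ℝ) (J : SimpleGraph (Fin j)) (Kv : Fin j → ℝ) (Y : ℕ → ℝ → ℝ)
    (w : Fin j → ℕ → ℕ → ℝ → ℝ) {n : ℕ} (G : SimpleGraph (Fin n)) (t : ℝ) : ℝ :=
  ∑ ψ ∈ TEs J G, wt J G (aW Y t) (bW α Y t) Kv (fun _ => 0) (fun i _ d r => w i d r t) ψ

/-- lower bound with capped hub functions -/
def S_LB1 : Prop := ∀ (j n : ℕ) (α z : ℝ) (J : SimpleGraph (Fin j)) (Kv : Fin j → ℝ)
  (g : ℕ → ℝ) (Y : ℕ → ℝ → ℝ) (Δ : ℕ) (w : Fin j → ℕ → ℕ → ℝ → ℝ) (G : SimpleGraph (Fin n)),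
  0 < α → α < 1 → 0 < z → z < 1 → IsY α z Y → J.IsTree → (∀ i, 0 ≤ Kv i) → (∀ r, 0 ≤ g r) →
  (∀ i, IsCap α (Y 1) (fun t => Kv i * m1 Y t) g Δ (w i)) → G.IsTree → 2 ≤ n →
  ContinuousOn (fun t => Fcap α J Kv Y w G t) (Set.Ici 0) ∧
  (∀ t, 0 ≤ t → 0 ≤ Fcap α J Kv Y w G t) ∧
  ∀ τ, 0 ≤ τ → ∀ m, ∫ t in (0:ℝ)..τ, Fcap α J Kv Y w G t ≤ psum α (fR α z J Kv g) m n G +
    pexp α (fun _ G' => ∫ t in (0:ℝ)..τ, Fcap α J Kv Y w G' t) m n G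

/-- decay of the capped functional in the number of vertices -/
def S_LB2 : Prop := ∀ (j n : ℕ) (α z : ℝ) (J : SimpleGraph (Fin j)) (Kv : Fin j → ℝ)
  (g : ℕ → ℝ) (Y : ℕ → ℝ → ℝ) (Δ : ℕ) (w : Fin j → ℕ → ℕ → ℝ → ℝ) (G : SimpleGraph (Fin n)),
  0 < α → α < 1 → 0 < z → z < 1 → IsY α z Y → J.IsTree → (∀ i, 0 ≤ Kv i) → (∀ r, 0 ≤ g r) →
  (∀ r, g r ≤ 1) →
  (∀ i, IsCap α (Y 1) (fun t => Kv i * m1 Y t) g Δ (w i)) → G.IsTree → 2 ≤ n →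
  ∀ τ, 0 ≤ τ → Tendsto (fun m => pexp α (fun _ G' => ∫ t in (0:ℝ)..τ, Fcap α J Kv Y w G' t) m n G)
    atTop (𝓝 0)

/-- lower bound for the pattern functional -/
def S_LB : Prop := ∀ (j n : ℕ) (α z : ℝ) (J : SimpleGraph (Fin j)) (Kv : Fin j → ℝ)
  (g : ℕ → ℝ) (Y : ℕ → ℝ → ℝ) (u : Fin j → ℕ → ℕ → ℝ → ℝ) (G : SimpleGraph (Fin n)),
  0 < α → α < 1 → 0 < z → z < 1 → IsY α z Y → J.IsTree → (∀ i, 0 ≤ Kv i) → (∀ r, 0 ≤ g r) →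
  (∀ r, g r ≤ 1) → (∀ i, IsHub α Y (Kv i) g (u i)) → G.IsTree → 2 ≤ n → ∀ ψ ∈ TEs J G,
  ∀ t1 t2 δ : ℝ, 0 ≤ t1 → t1 ≤ t2 → 0 < δ → ∃ m0 : ℕ, ∀ m, m0 ≤ m →
    (∫ t in t1..t2, wt J G (aW Y t) (bW α Y t) Kv (fun _ => 0) (fun i _ d r => u i d r t) ψ) - δ
      ≤ psum α (fR α z J Kv g) m n G

/-- the comparison system gives supersolution data -/
def S_SUPER : Prop := Large fun j s => ∀ (J : SimpleGraph (Fin j)), J.IsTree →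
  ∃ Gf' Z' Eh', Super s.α s.z J s.Kv s.K (gM s.M) s.Y s.Gf Gf' s.Z Z' s.Eh Eh' s.mu
    (fun _ => s.kap) s.x4 s.x3 s.a1

/-! ## D. The chain, total variation, final argument -/

/-- three marked branches determine the hub (medians) -/
def S_MED : Prop := ∀ (α : ℝ) (n m : ℕ) (G : SimpleGraph (Fin n)), 0 < α → α < 1 → G.IsTree →
  3 ≤ m → ∑ h, ∑ S ∈ Finset.powersetCard m (offN G ∅ h),
    ∏ b ∈ S, (∑ v ∈ br G h b, lam α (dg G v)) ≤ totW α G ^ m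

/-- bounded functional -/
def S_BD : Prop := ∀ (α : ℝ) (j M : ℕ) (J : SimpleGraph (Fin j)) (Kv : Fin j → ℝ), 0 < α → α < 1 →
  1 ≤ j → J.IsTree → (∀ i, 0 ≤ Kv i) → ∃ C : ℝ, 0 ≤ C ∧ ∀ z, 1 / 2 ≤ z → z < 1 →
  ∀ (n : ℕ) (G : SimpleGraph (Fin n)), 2 ≤ n → G.IsTree →
    0 ≤ fR α z J Kv (gM M) n G ∧
    fR α z J Kv (gM M) n G ≤ C * ((1 - z) * Real.exp (-((1 - z) * n / 2)))

/-- API of `pexp` -/
def S_PE : Prop := ∀ (α : ℝ), 0 < α → α < 1 →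
  (∀ f m m' n (G : SimpleGraph (Fin n)),
    pexp α f (m + m') n G = pexp α (fun n' G' => pexp α f m' n' G') m n G) ∧
  (∀ f g m n (G : SimpleGraph (Fin n)), G.IsTree → 2 ≤ n →
    (∀ n' (G' : SimpleGraph (Fin n')), G'.IsTree → 2 ≤ n' → n' = n + m → f n' G' ≤ g n' G') →
    pexp α f m n G ≤ pexp α g m n G) ∧
  (∀ (c : ℝ) m n (G : SimpleGraph (Fin n)), G.IsTree → 2 ≤ n → pexp α (fun _ _ => c) m n G = c) ∧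
  (∀ f g (c : ℝ) m n (G : SimpleGraph (Fin n)),
    pexp α (fun n' G' => f n' G' + c * g n' G') m n G = pexp α f m n G + c * pexp α g m n G) ∧
  (∀ f m, IsoInv f → IsoInv (fun n G => pexp α f m n G))

/-- isomorphism invariance of the pattern functional -/
def S_ISOF : Prop := ∀ (α z : ℝ) (j : ℕ) (J : SimpleGraph (Fin j)) (Kv : Fin j → ℝ) (g : ℕ → ℝ),
  IsoInv (fR α z J Kv g)

/-- a tree with a full total embedding is determined by its degree vector -/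
def S_ISO : Prop := ∀ (j N : ℕ) (J : SimpleGraph (Fin j)) (G H : SimpleGraph (Fin N))
  (ψ ψ' : Fin j → Option (Fin N)), 1 ≤ j → 3 ≤ N → J.IsTree → G.IsTree → H.IsTree →
  FullT J G ψ → FullT J H ψ' → dv G ψ = dv H ψ' → Nonempty (G ≃g H)

/-- choice of the pattern and of the extremal tree -/
def S_SEL : Prop := ∀ (N : ℕ) (𝒢 : Set (SimpleGraph (Fin N))), 3 ≤ N → 𝒢.Nonempty →
  (∀ G ∈ 𝒢, G.IsTree) → (∀ G H : SimpleGraph (Fin N), Nonempty (G ≃g H) → G ∈ 𝒢 → H ∈ 𝒢) →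
  ∃ (j : ℕ) (J : SimpleGraph (Fin j)) (Hs : SimpleGraph (Fin N)) (ψs : Fin j → Option (Fin N)),
  1 ≤ j ∧ j ≤ N ∧ J.IsTree ∧ Hs ∈ 𝒢 ∧ FullT J Hs ψs ∧
  ∀ G ∈ 𝒢, ¬ Nonempty (G ≃g Hs) → ∀ ψ ∈ PEs J G,
    1 ≤ eTot G ψ ∨ (FullT J G ψ ∧ LexGt (dv G ψ) (dv Hs ψs))

/-- the main theorem on pattern functionals -/
def S_MAIN : Prop := ∀ (α : ℝ) (N : ℕ) (𝒢 : Set (SimpleGraph (Fin N))), 0 < α → α < 1 → 3 ≤ N →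
  𝒢.Nonempty → (∀ G ∈ 𝒢, G.IsTree) →
  (∀ G H : SimpleGraph (Fin N), Nonempty (G ≃g H) → G ∈ 𝒢 → H ∈ 𝒢) →
  ∃ Hs ∈ 𝒢, ∀ η : ℝ, 0 < η → ∃ (j : ℕ) (J : SimpleGraph (Fin j)) (Kv : Fin j → ℝ) (M : ℕ) (z0 : ℝ),
  1 ≤ j ∧ J.IsTree ∧ (∀ i, 0 ≤ Kv i) ∧ 1 / 2 ≤ z0 ∧ z0 < 1 ∧ ∀ z, z0 < z → z < 1 →
  ∃ b : ℝ, 1 ≤ b ∧ (∃ m0, ∀ m, m0 ≤ m → b ≤ psum α (fR α z J Kv (gM M)) m N Hs) ∧
    ∀ G ∈ 𝒢, ¬ Nonempty (G ≃g Hs) → ∀ m, psum α (fR α z J Kv (gM M)) m N G ≤ η * b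

end

/-- the law of the chain started from `S` after `m` steps, as a function on graphs -/
noncomputable def law (α : ℝ) {k : ℕ} (S : SimpleGraph (Fin k)) :
    (m : ℕ) → SimpleGraph (Fin (k + m)) → ℝ
  | 0 => fun G => if G = S then 1 else 0
  | (m + 1) => fun G' => ∑ G : SimpleGraph (Fin (k + m)), ∑ v : Fin (k + m),
      law α S m G * ((dg G v : ℝ) ^ α / ∑ w, (dg G w : ℝ) ^ α) *
        (if attach G v = G' then 1 else 0)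

/-- total variation distance (isomorphism invariant events) of the chains started from `S`, `T`
when they have `n` vertices -/
noncomputable def dTV (α : ℝ) {k l : ℕ} (S : SimpleGraph (Fin k)) (T : SimpleGraph (Fin l))
    (n : ℕ) : ℝ :=
  sSup {x : ℝ | ∃ A : (m : ℕ) → Set (SimpleGraph (Fin m)),
    (∀ m (G H : SimpleGraph (Fin m)), Nonempty (G ≃g H) → (G ∈ A m ↔ H ∈ A m)) ∧
    x = |(∑ G : SimpleGraph (Fin (k + (n - k))), if G ∈ A _ then law α S (n - k) G else 0) -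
      (∑ G : SimpleGraph (Fin (l + (n - l))), if G ∈ A _ then law α T (n - l) G else 0)|}

/-- law and backward expectation agree -/
def S_LAW : Prop := ∀ (α : ℝ) (k m : ℕ) (S : SimpleGraph (Fin k))
  (f : (n : ℕ) → SimpleGraph (Fin n) → ℝ),
  ∑ G, law α S m G * f (k + m) G = pexp α f m k S

/-- total variation: limit and testing -/
def S_TV : Prop := ∀ (α : ℝ) (k l : ℕ) (S : SimpleGraph (Fin k)) (T : SimpleGraph (Fin l)),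
  0 < α → α < 1 → 3 ≤ k → 3 ≤ l → S.IsTree → T.IsTree →
  (∃ δ : ℝ, 0 ≤ δ ∧ Tendsto (dTV α S T) atTop (𝓝 δ)) ∧
  (∀ (f : (n : ℕ) → SimpleGraph (Fin n) → ℝ) (B : ℝ) (n : ℕ), IsoInv f → k ≤ n → l ≤ n →
    (∀ n' (G' : SimpleGraph (Fin n')), G'.IsTree → n' = n → 0 ≤ f n' G' ∧ f n' G' ≤ B) →
    |pexp α f (n - k) k S - pexp α f (n - l) l T| ≤ B * dTV α S T n) ∧
  (∀ n, dTV α S T n ≤ 1) ∧ (∀ n, 0 ≤ dTV α S T n)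

/-- the final answer -/
def S_RESULT : Prop := ∀ (α : ℝ), 0 < α → α < 1 → ∀ (k l : ℕ) (S : SimpleGraph (Fin k))
  (T : SimpleGraph (Fin l)), 3 ≤ k → 3 ≤ l → S.IsTree → T.IsTree → ¬ Nonempty (S ≃g T) →
  ∃ δ : ℝ, 0 < δ ∧ Tendsto (dTV α S T) atTop (𝓝 δ)

end Pool.Agent.TH981.SD
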